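import Mathlib

/-!
# A cone argument for an ordinary differential equation near a saddle
-/

set_option autoImplicit false

open scoped NNReal Topology
open Set Filter

namespace Pool.Agent.T9h50.TB

variable {X : Type*} [NormedAddCommGroup X] [NormedSpace ℝ X]
  {F : Type*} [NormedAddCommGroup F] [NormedSpace ℝ F]

/-- the data of the linearised equation: `al` is the coordinate in the direction with the growth rate
`1`, and `be` are coordinates in an invariant complement with smaller growth rates -/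
structure Sad (al : X →L[ℝ] ℝ) (be : X →L[ℝ] F) (G : X → X) (C1 C2 : ℝ) : Prop where
  c1 : 1 ≤ C1
  c2 : 1 ≤ C2
  al1 : ∀ x, |al x| ≤ C1 * ‖x‖
  be1 : ∀ x, ‖be x‖ ≤ C1 * ‖x‖
  nrm : ∀ x, ‖x‖ ≤ C2 * (|al x| + ‖be x‖)
  alG : ∀ x, al (G x) = al x
  beG : ∀ x, ‖(1 / 2 : ℝ) • be x + be (G x)‖ ≤ 146 / 100 * ‖be x‖

theorem cone {al : X →L[ℝ] ℝ} {be : X →L[ℝ] F} {G : X → X} {C1 C2 : ℝ} (h : Sad al be G C1 C2)
    {ε θ A a0 T : ℝ} (hε : 0 ≤ ε) (hθ0 : 0 < θ) (hθ : 200 * C1 * C2 * ε ≤ θ) (hθ1 : θ ≤ 1)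
    {D D' : ℝ → X} (hD : ∀ t ∈ Icc 0 T, HasDerivAt D (D' t) t)
    (herr : ∀ t ∈ Icc 0 T, ‖D t‖ ≤ 2 * C2 * A → ‖D' t - G (D t)‖ ≤ ε * ‖D t‖)
    (hA : ∀ t ∈ Icc 0 T, al (D t) ≤ A) (ha0 : al (D 0) = a0) (ha0' : 0 < a0) (hb0 : be (D 0) = 0)
    {t : ℝ} (ht : t ∈ Icc 0 T) :
    ‖be (D t)‖ ≤ θ * al (D t) ∧ a0 * Real.exp (t / 2) ≤ al (D t) := by
  have hc1 := h.c1
  have hc2 := h.c2
  have hCC : 200 * (C1 * C2 * ε) ≤ 1 := by nlinarith
  have hCC0 : 0 ≤ C1 * C2 * ε := by positivity
  have dal : ∀ s ∈ Icc 0 T, HasDerivAt (fun s => al (D s)) (al (D' s)) s := fun s hs =>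
    al.hasFDerivAt.comp_hasDerivAt s (hD s hs)
  have dbe : ∀ s ∈ Icc 0 T, HasDerivAt (fun s => be (D s)) (be (D' s)) s := fun s hs =>
    be.hasFDerivAt.comp_hasDerivAt s (hD s hs)
  have dexp : ∀ s : ℝ, HasDerivAt (fun s : ℝ => Real.exp (s / 2)) (Real.exp (s / 2) * (1 / 2)) s :=
    fun s => ((hasDerivAt_id s).div_const 2).exp
  -- the error in the coordinates
  have herr2 : ∀ s ∈ Icc 0 T, ‖be (D s)‖ ≤ θ * (al (D s) - a0 / 2) →
      a0 / 2 ≤ al (D s) ∧ |al (D' s) - al (D s)| ≤ 2 * (C1 * C2 * ε) * al (D s) ∧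
      ‖be (D' s) - be (G (D s))‖ ≤ 2 * (C1 * C2 * ε) * al (D s) := by
    intro s hs hb
    have h1 : 0 ≤ al (D s) - a0 / 2 := by
      by_contra hcon
      push Not at hcon
      have : θ * (al (D s) - a0 / 2) < 0 := mul_neg_of_pos_of_neg hθ0 hcon
      linarith [norm_nonneg (be (D s))]
    have h2 : 0 < al (D s) := by linarith
    have h3 : ‖D s‖ ≤ 2 * C2 * al (D s) := by
      refine (h.nrm (D s)).trans ?_
      rw [abs_of_pos h2]
      have : ‖be (D s)‖ ≤ al (D s) := by
        refine hb.trans ?_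
        nlinarith
      nlinarith
    have h4 : ‖D s‖ ≤ 2 * C2 * A := h3.trans (by
      have := hA s hs
      gcongr)
    have h5 := herr s hs h4
    have h6 : C1 * ‖D' s - G (D s)‖ ≤ 2 * (C1 * C2 * ε) * al (D s) := by
      calc C1 * ‖D' s - G (D s)‖ ≤ C1 * (ε * (2 * C2 * al (D s))) := by
            gcongr
            exact h5.trans (by gcongr)
        _ = _ := by ring
    refine ⟨by linarith, ?_, ?_⟩
    · have e : al (D' s) - al (D s) = al (D' s - G (D s)) := by rw [map_sub, h.alG]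
      rw [e]
      exact (h.al1 _).trans h6
    · rw [← map_sub]
      exact (h.be1 _).trans h6
  have key : ∀ s ∈ Icc 0 T, ‖be (D s)‖ ≤ θ * (al (D s) - a0 / 2) := by
    intro s hs
    have := image_norm_le_of_norm_deriv_right_lt_deriv_boundary'
      (f := fun s => Real.exp (s / 2) • be (D s))
      (f' := fun s => Real.exp (s / 2) • be (D' s) + (Real.exp (s / 2) * (1 / 2)) • be (D s))
      (a := 0) (b := T)
      (B := fun s => Real.exp (s / 2) * (θ * (al (D s) - a0 / 2)))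
      (B' := fun s => Real.exp (s / 2) * (1 / 2) * (θ * (al (D s) - a0 / 2)) +
        Real.exp (s / 2) * (θ * al (D' s))) ?_ ?_ ?_ ?_ ?_ ?_ hs
    · simp only [norm_smul, Real.norm_eq_abs, Real.abs_exp] at this
      exact le_of_mul_le_mul_left this (Real.exp_pos _)
    · intro s hs
      exact ((dexp s).smul (dbe s hs)).continuousAt.continuousWithinAt
    · intro s hs
      exact ((dexp s).fun_smul (dbe s ⟨hs.1, hs.2.le⟩)).hasDerivWithinAt
    · simp only [hb0, smul_zero, norm_zero, ha0]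
      have : 0 ≤ θ * (a0 - a0 / 2) := by
        apply mul_nonneg hθ0.le; linarith
      positivity
    · intro s hs
      exact ((dexp s).fun_mul (((dal s hs).sub_const (a0 / 2)).const_mul θ)).continuousAt.continuousWithinAt
    · intro s hs
      exact ((dexp s).fun_mul (((dal s ⟨hs.1, hs.2.le⟩).sub_const (a0 / 2)).const_mul θ)).hasDerivWithinAt
    · intro s hs he
      have hE := Real.exp_pos (s / 2)
      have hbe : ‖be (D s)‖ = θ * (al (D s) - a0 / 2) := by
        rw [norm_smul, Real.norm_eq_abs, Real.abs_exp] at he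
        exact mul_left_cancel₀ hE.ne' he
      obtain ⟨k1, k2, k3⟩ := herr2 s ⟨hs.1, hs.2.le⟩ hbe.le
      have k4 := (abs_le.1 k2).1
      have e1 : Real.exp (s / 2) • be (D' s) + (Real.exp (s / 2) * (1 / 2)) • be (D s) =
          Real.exp (s / 2) • (((1 / 2 : ℝ) • be (D s) + be (G (D s))) + (be (D' s) - be (G (D s)))) := by
        rw [mul_smul, ← smul_add]
        congr 1
        abel
      rw [e1, norm_smul, Real.norm_eq_abs, Real.abs_exp]
      have e2 : Real.exp (s / 2) * (1 / 2) * (θ * (al (D s) - a0 / 2)) +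
          Real.exp (s / 2) * (θ * al (D' s)) = Real.exp (s / 2) * (θ * ((al (D s) - a0 / 2) / 2 + al (D' s))) := by
        ring
      rw [e2]
      apply mul_lt_mul_of_pos_left _ hE
      have k5 : ‖((1 / 2 : ℝ) • be (D s) + be (G (D s))) + (be (D' s) - be (G (D s)))‖ ≤
          146 / 100 * (θ * (al (D s) - a0 / 2)) + 2 * (C1 * C2 * ε) * al (D s) := by
        refine (norm_add_le _ _).trans (add_le_add ?_ k3)
        rw [← hbe]
        exact h.beG _
      refine lt_of_le_of_lt k5 ?_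
      have k6 : 2 * (C1 * C2 * ε) ≤ θ / 100 := by linarith
      have k7 : 2 * (C1 * C2 * ε) * al (D s) ≤ θ / 100 * al (D s) := by
        apply mul_le_mul_of_nonneg_right k6; linarith
      have k8 : al (D s) * (1 - 1 / 100) ≤ al (D' s) := by nlinarith
      have k9 : θ * (al (D s) * (1 - 1 / 100)) ≤ θ * al (D' s) := by gcongr
      nlinarith
  -- growth
  have hgrow : a0 ≤ al (D t) * Real.exp (-(t / 2)) := by
    have hmono : MonotoneOn (fun s => al (D s) * Real.exp (-(s / 2))) (Icc 0 T) := by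
      have hd : ∀ s ∈ Icc 0 T, HasDerivAt (fun s => al (D s) * Real.exp (-(s / 2)))
          (al (D' s) * Real.exp (-(s / 2)) + al (D s) * (Real.exp (-(s / 2)) * (-(1 / 2)))) s := by
        intro s hs
        exact (dal s hs).fun_mul ((((hasDerivAt_id s).div_const 2).fun_neg).exp)
      apply monotoneOn_of_deriv_nonneg (convex_Icc 0 T)
      · exact fun s hs => (hd s hs).continuousAt.continuousWithinAt
      · intro s hs
        rw [interior_Icc] at hs
        exact (hd s (Ioo_subset_Icc_self hs)).differentiableAt.differentiableWithinAt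
      · intro s hs
        rw [interior_Icc] at hs
        rw [(hd s (Ioo_subset_Icc_self hs)).deriv]
        obtain ⟨k1, k2, _⟩ := herr2 s (Ioo_subset_Icc_self hs) (key s (Ioo_subset_Icc_self hs))
        have k4 := (abs_le.1 k2).1
        have k8 : al (D s) * (1 - 1 / 100) ≤ al (D' s) := by nlinarith
        have e : al (D' s) * Real.exp (-(s / 2)) + al (D s) * (Real.exp (-(s / 2)) * (-(1 / 2))) =
          (al (D' s) - al (D s) / 2) * Real.exp (-(s / 2)) := by ring
        rw [e]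
        apply mul_nonneg _ (Real.exp_pos _).le
        linarith
    have := hmono ⟨le_rfl, ht.1.trans ht.2⟩ ht ht.1
    simp only [ha0, zero_div, neg_zero, Real.exp_zero, mul_one] at this
    exact this
  refine ⟨(key t ht).trans ?_, ?_⟩
  · gcongr
    linarith
  · have h1 := Real.exp_pos (t / 2)
    have h2 : Real.exp (-(t / 2)) * Real.exp (t / 2) = 1 := by
      rw [← Real.exp_add]; simp
    calc a0 * Real.exp (t / 2) ≤ al (D t) * Real.exp (-(t / 2)) * Real.exp (t / 2) := by gcongr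
      _ = al (D t) := by rw [mul_assoc, h2, mul_one]

/-- the exit from a neighbourhood of the saddle -/
theorem cone_exit {al : X →L[ℝ] ℝ} {be : X →L[ℝ] F} {G : X → X} {C1 C2 : ℝ} (h : Sad al be G C1 C2)
    {ε θ A a0 : ℝ} (hε : 0 ≤ ε) (hθ0 : 0 < θ) (hθ : 200 * C1 * C2 * ε ≤ θ) (hθ1 : θ ≤ 1)
    {D D' : ℝ → X} (hD : ∀ t, 0 ≤ t → HasDerivAt D (D' t) t)
    (herr : ∀ t, 0 ≤ t → ‖D t‖ ≤ 2 * C2 * A → ‖D' t - G (D t)‖ ≤ ε * ‖D t‖)
    (ha0 : al (D 0) = a0) (ha0' : 0 < a0) (ha0A : a0 < A) (hb0 : be (D 0) = 0) :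
    ∃ T, 0 ≤ T ∧ al (D T) = A ∧ ‖be (D T)‖ ≤ θ * A ∧
      ∀ t ∈ Icc 0 T, ‖D t‖ ≤ 2 * C2 * A := by
  have dal : ∀ s, 0 ≤ s → ContinuousAt (fun s => al (D s)) s := fun s hs =>
    al.continuous.continuousAt.comp (hD s hs).continuousAt
  set S := {t : ℝ | 0 ≤ t ∧ A ≤ al (D t)} with hS
  have hne : S.Nonempty := by
    by_contra hcon
    have hlt : ∀ t, 0 ≤ t → al (D t) < A := by
      intro t ht
      by_contra h1
      exact hcon ⟨t, ht, not_lt.1 h1⟩
    set T := 2 * Real.log (A / a0) with hT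
    have hT0 : 0 ≤ T := by
      have : 0 < Real.log (A / a0) := Real.log_pos (by rwa [one_lt_div ha0'])
      linarith
    have h1 := (cone h hε hθ0 hθ hθ1 (T := T) (fun t ht => hD t ht.1) (fun t ht => herr t ht.1)
      (fun t ht => (hlt t ht.1).le) ha0 ha0' hb0 (t := T) ⟨hT0, le_rfl⟩).2
    have h2 : a0 * Real.exp (T / 2) = A := by
      have e : T / 2 = Real.log (A / a0) := by rw [hT]; ring
      rw [e, Real.exp_log (div_pos (ha0'.trans ha0A) ha0')]
      field_simp
    have := hlt T hT0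
    linarith
  have hbdd : BddBelow S := ⟨0, fun t ht => ht.1⟩
  have hcl : IsClosed S := by
    have e : S = Ici 0 ∩ (fun t => al (D t)) ⁻¹' (Ici A) := by
      ext t; simp [S]
    rw [e]
    exact ContinuousOn.preimage_isClosed_of_isClosed
      (fun s hs => (dal s hs).continuousWithinAt) isClosed_Ici isClosed_Ici
  set T := sInf S with hT
  have hmem : T ∈ S := hcl.csInf_mem hne hbdd
  have hT0 : 0 ≤ T := hmem.1
  have hbelow : ∀ t, 0 ≤ t → t < T → al (D t) < A := by
    intro t ht htT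
    by_contra h1
    exact absurd (csInf_le hbdd (show t ∈ S from ⟨ht, not_lt.1 h1⟩)) (not_le.2 htT)
  have hTpos : 0 < T := by
    rcases lt_or_eq_of_le hT0 with h1 | h1
    · exact h1
    · exfalso
      have := hmem.2
      rw [← h1, ha0] at this
      linarith
  have hTA : al (D T) = A := by
    apply le_antisymm _ hmem.2
    have hev : ∀ᶠ s in 𝓝[<] T, al (D s) ≤ A := by
      have : Ioo 0 T ∈ 𝓝[<] T := Ioo_mem_nhdsLT hTpos
      filter_upwards [this] with s hs
      exact (hbelow s hs.1.le hs.2).le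
    exact le_of_tendsto ((dal T hT0).tendsto.mono_left nhdsWithin_le_nhds) hev
  have hle : ∀ t ∈ Icc 0 T, al (D t) ≤ A := by
    intro t ht
    rcases lt_or_eq_of_le ht.2 with h1 | h1
    · exact (hbelow t ht.1 h1).le
    · rw [h1, hTA]
  have hcone := fun (t : ℝ) (ht : t ∈ Icc 0 T) => cone h hε hθ0 hθ hθ1 (fun t ht => hD t ht.1)
    (fun t ht => herr t ht.1) hle ha0 ha0' hb0 ht
  refine ⟨T, hT0, hTA, ?_, fun t ht => ?_⟩
  · have := (hcone T ⟨hT0, le_rfl⟩).1
    rwa [hTA] at this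
  · obtain ⟨h1, h2⟩ := hcone t ht
    have h3 : 0 < al (D t) := lt_of_lt_of_le (by positivity) h2
    have hc2 := h.c2
    refine (h.nrm (D t)).trans ?_
    rw [abs_of_pos h3]
    have h4 : ‖be (D t)‖ ≤ al (D t) := h1.trans (by nlinarith)
    have h5 := hle t ht
    nlinarith

end Pool.Agent.T9h50.TB
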