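import Pool.Agent.T9h50.TB.Snd

/-!
# Numerical data for the unstable manifold of the relative equilibrium
-/

set_option autoImplicit false
set_option exponentiation.threshold 2000

namespace Pool.Agent.T9h50.TB

/-- the scale of the coefficients: `26785440 * 2 ^ 72` -/
def SQ : Int := 126490664084915909692741386240

/-- coefficients of the real part of `a` -/
def QxA : List Int := [
  126490664084915909692741386240, 6324533204245795484637069312, -228612075363521834909046786,
  8831490384664461815509424, -382709299194779354026956, 17560815768596961255184,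
  -814927898463445348938, 36454354232084915987, -1446339979084283758, 38285699438669825,
  1068975081560145, -305505407295259, 35909761464872, -3441941592252, 300740048253, -24912413677,
  1992168080, -155269500, 11860179, -890784, 65914, -4810, 346]

/-- coefficients of the imaginary part of `a`, divided by the frequency -/
def QyA : List Int := [
  0, -8696233155837968791375970304, -6946965953481400743530884, 6052007057075313633717924,
  -483173326624448932855022, 33591422209303328913938, -2266014178642223385804,
  151655011353037565949, -10122880200054030612, 674317118647919773, -44783623650206312,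
  2960553930399808, -194426985893548, 12653773955247, -813684500808, 51492936726, -3189269758,
  191716178, -11031663, 592028, -27918, 945, 9]

/-- coefficients of the real part of `b` -/
def QxB : List Int := [
  252981328169831819385482772480, -733742414642353994723229696, 17630500442496174969044527,
  -647938225845424788022599, 27723167111935796738489, -1265201893174110187728,
  58469915203026165974, -2600609066381863147, 101919937503041672, -2566534734770856,
  -92725037378822, 23274802234985, -2687440746207, 255829898382, -22274584961, 1841318623,
  -147046756, 11450296, -874051, 65616, -4853, 354, -25]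

/-- coefficients of the imaginary part of `b`, divided by the frequency -/
def QyB : List Int := [
  0, 1008895820133236742744440832, -1837610700119320142206560, -407478743875710531494238,
  34604399742726344207537, -2443214201185141067158, 165849528662911280951, -11134747444429111202,
  744582914348700966, -49654917261311822, 3300216358783311, -218285742547956, 14341050074860,
  -933648636443, 60054058904, -3801499600, 235522470, -14163376, 815427, -43800, 2069, -70, -1]

/-- coefficients of the inverse of `|a|` -/
def QgA : List Int := [
  126490664084915909692741386240, -6324533204245795484637069312, 436135821127836999248700623,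
  -31372267913271977552765104, 2281668650585246056277264, -166050343381906362868036,
  12034277147610786414629, -866045064122912347074, 61751271343940214884, -4353461563570072310,
  302763895601495756, -20711061031993140, 1388135315123224, -90640330912595, 5714781925011,
  -342622091936, 18955593170, -899540914, 27504261, 959065, -297638, 38963, -4132]

/-- coefficients of the inverse of `|a + b|` -/
def QgC : List Int := [
  42163554694971969897580462080, -621198976622604609990426624, 29448511082345339774880694,
  -1603017421180848314286706, 92462753412484828897575, -5479481057642799665754,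
  328198380626954048860, -19648280234701177917, 1164434525916987349, -67589868131112694,
  3786516298483198, -199695257076523, 9400852867622, -335151596862, 613500448, 1573423848,
  -224186858, 23700549, -2217345, 193789, -16200, 1311, -104]

/-- coefficients of the inverse of `|b|` -/
def QgB : List Int := [
  63245332042457954846370693120, 183435603660588498680807424, -4058478278519479909032373,
  137034965734238251567481, -5608024724779185584225, 247221529222935609488,
  -10977156359624290971, 458126360023622273, -15501384165428662, 143049242717489, 46084533093166,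
  -6678975734742, 684944926324, -61829664298, 5220781549, -422889089, 33277389, -2561820, 193739,
  -14429, 1060, -77, 5]

/-- the initial state of the numerical integration -/
def st0 : St := ⟨83051680592025987000960693650, 1417930528202020696975156272, -3285134742963518534374656399, 11699590043801765066068883237, 158007394936871429025266740841, -166984406548827528568683776, 380230997823839321777201953, 23915327278911410080647882714, 75521612553512873518194675322, 26037791779025662682317406874, 39726517630293242431017278911⟩

/-- the coefficients multiplied by their index -/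
def lin : Nat → List Int → List Int
  | _, [] => []
  | k, a :: p => Int.mul (Int.ofNat k) a :: lin (k + 1) p

/-- the coefficients multiplied by the square of their index -/
def sqd : Nat → List Int → List Int
  | _, [] => []
  | k, a :: p => Int.mul (Int.ofNat (Nat.mul k k)) a :: sqd (k + 1) p

/-- the packed polynomial is divisible by `X ^ 2` and the other coefficients are small -/
def chkQ (D : Nat) (V : Int) : Bool :=
  (decide (Int.emod V (Int.ofNat (Nat.mul XN XN)) = 0)).and (chk D (Int.ediv V (Int.ofNat (Nat.mul XN XN))))

/-- the check for the inverse distances -/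
def chkGQ (D : Nat) (g x y : Int) : Bool :=
  chkQ D (Int.sub (Int.mul (Int.mul g g) (Int.add (Int.mul 11 (Int.mul x x)) (Int.mul 4 (Int.mul y y))))
    (Int.mul 11 (Int.mul (Int.mul SQ SQ) (Int.mul SQ SQ))))

/-- the check for the real parts -/
def chkXQ (D : Nat) (x y : List Int) (F : Int) : Bool :=
  chkQ D (Int.sub (Int.mul (Int.mul 14432 (Int.mul SQ (Int.mul SQ SQ)))
    (Int.sub (Int.sub (Int.mul 11 (pk (sqd 0 x))) (Int.mul 4 (pk x))) (Int.mul 8 (pk (lin 0 y)))))
    (Int.mul 11 F))

/-- the check for the imaginary parts -/
def chkYQ (D : Nat) (x y : List Int) (F : Int) : Bool :=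
  chkQ D (Int.sub (Int.mul (Int.mul 14432 (Int.mul SQ (Int.mul SQ SQ)))
    (Int.add (Int.sub (Int.mul 11 (pk (sqd 0 y))) (Int.mul 4 (pk y))) (Int.mul 22 (pk (lin 0 x)))))
    (Int.mul 11 F))

/-- the packed cubes -/
def c3 (x : Int) : Int := Int.mul (Int.mul x x) x

/-- the acceleration of `a`, packed -/
def fAQ (xa xc xb : Int) : Int :=
  Int.sub (Int.mul 35244 (Int.sub (Int.mul xb (c3 (pk QgB))) (Int.mul xc (c3 (pk QgC)))))
    (Int.mul 10143 (Int.mul xa (c3 (pk QgA))))

/-- the acceleration of `b`, packed -/
def fBQ (xa xc xb : Int) : Int :=
  Int.sub (Int.mul 747 (Int.sub (Int.mul xa (c3 (pk QgA))) (Int.mul xc (c3 (pk QgC)))))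
    (Int.mul 44640 (Int.mul xb (c3 (pk QgB))))

/-- bound for the inverse distances -/
def DGQ : Nat := Nat.div (Nat.mul 11 (Nat.pow (Int.toNat SQ) 4)) (Nat.pow 10 26)

/-- bound for the residuals -/
def DRQ : Nat := Nat.div (Nat.mul 158752 (Nat.pow (Int.toNat SQ) 4)) (Nat.pow 10 25)

theorem q_ga : chkGQ DGQ (pk QgA) (pk QxA) (pk QyA) = true := by decide +kernel
theorem q_gc : chkGQ DGQ (pk QgC) (Int.add (pk QxA) (pk QxB)) (Int.add (pk QyA) (pk QyB)) = true := by
  decide +kernel
theorem q_gb : chkGQ DGQ (pk QgB) (pk QxB) (pk QyB) = true := by decide +kernel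
theorem q_xa : chkXQ DRQ QxA QyA (fAQ (pk QxA) (Int.add (pk QxA) (pk QxB)) (pk QxB)) = true := by
  decide +kernel
theorem q_ya : chkYQ DRQ QxA QyA (fAQ (pk QyA) (Int.add (pk QyA) (pk QyB)) (pk QyB)) = true := by
  decide +kernel
theorem q_xb : chkXQ DRQ QxB QyB (fBQ (pk QxA) (Int.add (pk QxA) (pk QxB)) (pk QxB)) = true := by
  decide +kernel
theorem q_yb : chkYQ DRQ QxB QyB (fBQ (pk QyA) (Int.add (pk QyA) (pk QyB)) (pk QyB)) = true := by
  decide +kernel

/-- bounds for the norms -/
def nQ : Bool :=
  (Nat.ble (nrm QxA) (Nat.pow 2 97)).and <| (Nat.ble (nrm QyA) (Nat.pow 2 97)).and <|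
  (Nat.ble (nrm QxB) (Nat.pow 2 98)).and <| (Nat.ble (nrm QyB) (Nat.pow 2 98)).and <|
  (Nat.ble (nrm (sqd 0 QxA)) (Nat.pow 2 102)).and <| (Nat.ble (nrm (sqd 0 QyA)) (Nat.pow 2 102)).and <|
  (Nat.ble (nrm (sqd 0 QxB)) (Nat.pow 2 102)).and <| (Nat.ble (nrm (sqd 0 QyB)) (Nat.pow 2 102)).and <|
  (Nat.ble (nrm (lin 0 QxA)) (Nat.pow 2 102)).and <| (Nat.ble (nrm (lin 0 QyA)) (Nat.pow 2 102)).and <|
  (Nat.ble (nrm (lin 0 QxB)) (Nat.pow 2 102)).and <| (Nat.ble (nrm (lin 0 QyB)) (Nat.pow 2 102)).and <|
  (Nat.ble (Nat.mul (nrm QgA) 941) (Nat.mul 1000 (Int.toNat SQ))).and <|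
  (Nat.ble (Nat.mul (nrm QgC) 2901) (Nat.mul 1000 (Int.toNat SQ))).and <|
  (Nat.ble (Nat.mul (nrm QgB) 1551) (Nat.mul 1000 (Int.toNat SQ))).and <|
  (Nat.blt (nrm QgA) (Int.toNat (Int.mul 2 (QgA.headD 0)))).and <|
  (Nat.blt (nrm QgC) (Int.toNat (Int.mul 2 (QgC.headD 0)))).and <|
  (Nat.blt (nrm QgB) (Int.toNat (Int.mul 2 (QgB.headD 0))))

theorem q_n : nQ = true := by decide +kernel

/-- bounds for the Taylor polynomials -/
def DG0 : Nat := Nat.div (Nat.pow 2 384) (Nat.pow 10 26)
def DR0 : Nat := Nat.mul 14432 (Nat.div (Nat.pow 2 384) (Nat.pow 10 24))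

end Pool.Agent.T9h50.TB
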