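import Pool.Agent.T9h50.TB.Stp

/-!
# The defect of the approximate trajectory
-/

set_option autoImplicit false
set_option exponentiation.threshold 2000

open scoped NNReal ComplexConjugate
open Complex Set

namespace Pool.Agent.T9h50.TB

lemma re_part {r a b c u v w D : ℝ} {k1 k2 : ℝ}
    (h : |230912 * 2 ^ 288 * r - (k1 * (u * (a * a * a) - v * (b * b * b)) - k2 * (w * (c * c * c)))| ≤ D) :
    |16 * (r / SR) - (k1 / 14432 * ((a / SR * (a / SR) * (a / SR)) * (u / SR) -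
      (b / SR * (b / SR) * (b / SR)) * (v / SR)) -
      k2 / 14432 * ((c / SR * (c / SR) * (c / SR)) * (w / SR)))| ≤ D / (14432 * 2 ^ 384) := by
  have e : 16 * (r / SR) - (k1 / 14432 * ((a / SR * (a / SR) * (a / SR)) * (u / SR) -
      (b / SR * (b / SR) * (b / SR)) * (v / SR)) -
      k2 / 14432 * ((c / SR * (c / SR) * (c / SR)) * (w / SR))) =
      (230912 * 2 ^ 288 * r - (k1 * (u * (a * a * a) - v * (b * b * b)) - k2 * (w * (c * c * c)))) /
        (14432 * 2 ^ 384) := by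
    unfold SR
    field_simp
    ring
  rw [e, abs_div, abs_of_pos (by positivity : (0:ℝ) < 14432 * 2 ^ 384)]
  exact div_le_div_of_nonneg_right h (by positivity)

/-- sum of the errors -/
lemma combine {W A B C a b c : ℂ} {k1 k2 k3 : ℝ} {δ ea eb ec : ℝ}
    (hW : ‖W - (k1 • (B - C) - k2 • A)‖ ≤ δ) (hA : ‖A - a‖ ≤ ea) (hB : ‖B - b‖ ≤ eb)
    (hC : ‖C - c‖ ≤ ec) (hk1 : 0 ≤ k1) (hk2 : 0 ≤ k2) (h3 : k1 * (eb + ec) + k2 * ea ≤ k3) :
    ‖W - (k1 • (b - c) - k2 • a)‖ ≤ δ + k3 := by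
  have e : W - (k1 • (b - c) - k2 • a) = (W - (k1 • (B - C) - k2 • A)) +
      (k1 • ((B - b) - (C - c)) - k2 • (A - a)) := by
    simp only [smul_sub]; abel
  rw [e]
  refine (norm_add_le _ _).trans ?_
  have h4 : ‖k1 • ((B - b) - (C - c)) - k2 • (A - a)‖ ≤ k1 * (eb + ec) + k2 * ea := by
    refine (norm_sub_le _ _).trans ?_
    rw [norm_smul, norm_smul, Real.norm_of_nonneg hk1, Real.norm_of_nonneg hk2]
    gcongr
    exact (norm_sub_le _ _).trans (by gcongr)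
  linarith

theorem trj_defect {DG DR : ℕ} {L : Ls} (hL : Good DG DR L) (hDG : (DG : ℝ) ≤ 2 ^ 384 / 10 ^ 26)
    (hDR : (DR : ℝ) ≤ 14432 * 2 ^ 384 / 10 ^ 24) {m : Fin 3 → ℝ} (hm : NearM (1 / 10 ^ 24) m)
    {t : ℝ} (h0 : 0 ≤ t) (h1 : t ≤ 1 / 4) :
    dist (trj' L t) (fld m (trj L t)) ≤ 1.25 / 10 ^ 22 ∧ Far (7 / 10 ^ 4) (trj L t) := by
  set x := 4 * t with hx
  have hx0 : 0 ≤ x := by linarith
  have hx1 : x ≤ 1 := by linarith
  have hD0 : (0 : ℝ) ≤ 104 * (DG : ℝ) := by positivity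
  have hD1 : 104 * (DG : ℝ) ≤ 2 ^ 384 / 10 ^ 4 := by
    have : (2 : ℝ) ^ 384 / 10 ^ 27 * 104 ≤ 2 ^ 384 / 10 ^ 4 := by
      rw [div_mul_eq_mul_div, div_le_div_iff₀ (by positivity) (by positivity)]
      norm_num
    linarith
  have hD2 : 104 * (DG : ℝ) / 2 ^ 384 ≤ 1.04 / 10 ^ 24 := by
    rw [div_le_div_iff₀ (by positivity) (by positivity)]
    have : (DG : ℝ) * 10 ^ 26 ≤ 2 ^ 384 := by
      rwa [le_div_iff₀ (by positivity)] at hDG
    nlinarith
  obtain ⟨fa, ka⟩ := kern_cmp dA_pos (hL.ga0 x hx0 hx1) hD0 (hL.ea x hx0 hx1) hD1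
    (hL.ga1 x hx0 hx1) (by norm_num) (by unfold dA; norm_num)
  obtain ⟨fc, kc⟩ := kern_cmp dC_pos (hL.gc0 x hx0 hx1) hD0 (hL.ec x hx0 hx1) hD1
    (hL.gc1 x hx0 hx1) (by norm_num) (by unfold dC; norm_num)
  obtain ⟨fb, kb⟩ := kern_cmp dB_pos (hL.gb0 x hx0 hx1) hD0 (hL.eb x hx0 hx1) hD1
    (hL.gb1 x hx0 hx1) (by norm_num) (by unfold dB; norm_num)
  set A : ℂ := cz L.ax L.ay x with hA
  set B : ℂ := cz L.bx L.bt x with hB
  have eA : (⟨evR L.ax x / SR, evR L.ay x / SR⟩ : ℂ) = A := rfl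
  have eB : (⟨evR L.bx x / SR, evR L.bt x / SR⟩ : ℂ) = B := rfl
  have eC : (⟨(evR L.ax x + evR L.bx x) / SR, (evR L.ay x + evR L.bt x) / SR⟩ : ℂ) = A + B := by
    apply Complex.ext
    · simp only [A, B, cz, Complex.add_re]; ring
    · simp only [A, B, cz, Complex.add_im]; ring
  rw [eA] at fa ka
  rw [eB] at fb kb
  rw [eC] at fc kc
  have far : Far (7 / 10 ^ 4) (trj L t) := by
    refine ⟨?_, ?_, ?_⟩
    · calc dA + 7 / 10 ^ 4 ≤ (1 - 1 / 10 ^ 4) * 941 / 1000 := by unfold dA; norm_num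
        _ ≤ _ := fa
    · calc dC + 7 / 10 ^ 4 ≤ (1 - 1 / 10 ^ 4) * 2901 / 1000 := by unfold dC; norm_num
        _ ≤ _ := fc
    · calc dB + 7 / 10 ^ 4 ≤ (1 - 1 / 10 ^ 4) * 1551 / 1000 := by unfold dB; norm_num
        _ ≤ _ := fb
  refine ⟨?_, far⟩
  -- residual
  set γa := evR L.ga x / SR * (evR L.ga x / SR) * (evR L.ga x / SR) with hγa
  set γb := evR L.gb x / SR * (evR L.gb x / SR) * (evR L.gb x / SR) with hγb
  set γc := evR L.gc x / SR * (evR L.gc x / SR) * (evR L.gc x / SR) with hγc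
  have hδ : 104 * (DR : ℝ) / (14432 * 2 ^ 384) ≤ 1.04 / 10 ^ 22 := by
    rw [div_le_div_iff₀ (by positivity) (by positivity)]
    have : (DR : ℝ) * 10 ^ 24 ≤ 14432 * 2 ^ 384 := by
      rwa [le_div_iff₀ (by positivity)] at hDR
    nlinarith
  have resA : ‖(16 : ℝ) • cz2 L.ax L.ay x - ((35244 / 14432 : ℝ) • (((γb : ℝ) : ℂ) * B - ((γc : ℝ) : ℂ) * (A + B)) -
      (10143 / 14432 : ℝ) • (((γa : ℝ) : ℂ) * A))‖ ≤ 2 * (1.04 / 10 ^ 22) := by
    have p1 := (re_part (hL.rax x hx0 hx1)).trans hδ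
    have p2 := (re_part (hL.ray x hx0 hx1)).trans hδ
    refine le_trans (le_of_eq ?_) (norm_mk_le p1 p2)
    congr 1
    rw [← eC, ← eA, ← eB]
    apply Complex.ext
    · simp only [cz2, Complex.sub_re, Complex.real_smul, Complex.re_ofReal_mul, γa, γb, γc]
    · simp only [cz2, Complex.sub_im, Complex.real_smul, Complex.im_ofReal_mul, γa, γb, γc]
  have resB : ‖(16 : ℝ) • cz2 L.bx L.bt x - ((747 / 14432 : ℝ) • (((γa : ℝ) : ℂ) * A - ((γc : ℝ) : ℂ) * (A + B)) -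
      (44640 / 14432 : ℝ) • (((γb : ℝ) : ℂ) * B))‖ ≤ 2 * (1.04 / 10 ^ 22) := by
    have p1 := (re_part (hL.rbx x hx0 hx1)).trans hδ
    have p2 := (re_part (hL.rby x hx0 hx1)).trans hδ
    refine le_trans (le_of_eq ?_) (norm_mk_le p1 p2)
    congr 1
    rw [← eC, ← eA, ← eB]
    apply Complex.ext
    · simp only [cz2, Complex.sub_re, Complex.real_smul, Complex.re_ofReal_mul, γa, γb, γc]
    · simp only [cz2, Complex.sub_im, Complex.real_smul, Complex.im_ofReal_mul, γa, γb, γc]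
  have hpos : (0 : ℝ) ≤ 104 * (DG : ℝ) / 2 ^ 384 := by positivity
  have RA := combine resA ka kb kc (by norm_num) (by norm_num) (k3 := 1 / 10 ^ 23) (by
    simp only [dA, dB, dC]
    norm_num at hD2 ⊢
    linarith)
  have RB := combine resB kb ka kc (by norm_num) (by norm_num) (k3 := 1 / 10 ^ 23) (by
    simp only [dA, dB, dC]
    norm_num at hD2 ⊢
    linarith)
  have FAh : FA mh A B = (35244 / 14432 : ℝ) • (kd dB B - kd dC (A + B)) - (10143 / 14432 : ℝ) • kd dA A := by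
    simp only [FA, mh0, mh1, mh2, smul_sub]
    rw [show (747 / 14432 + 9396 / 14432 : ℝ) = 10143 / 14432 by norm_num]
    abel
  have FBh : FB mh A B = (747 / 14432 : ℝ) • (kd dA A - kd dC (A + B)) - (44640 / 14432 : ℝ) • kd dB B := by
    simp only [FB, mh0, mh1, mh2, smul_sub]
    rw [show (9396 / 14432 + 35244 / 14432 : ℝ) = 44640 / 14432 by norm_num]
  rw [← FAh] at RA
  rw [← FBh] at RB
  have MA := FA_mass hm A B
  have MB := FB_mass hm A B
  have TA : ‖(16 : ℝ) • cz2 L.ax L.ay x - FA m A B‖ ≤ 2.3 / 10 ^ 22 := by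
    have e : (16 : ℝ) • cz2 L.ax L.ay x - FA m A B =
      ((16 : ℝ) • cz2 L.ax L.ay x - FA mh A B) - (FA m A B - FA mh A B) := by abel
    rw [e]
    refine (norm_sub_le _ _).trans ?_
    norm_num at RA MA ⊢
    linarith
  have TB : ‖(16 : ℝ) • cz2 L.bx L.bt x - FB m A B‖ ≤ 2.3 / 10 ^ 22 := by
    have e : (16 : ℝ) • cz2 L.bx L.bt x - FB m A B =
      ((16 : ℝ) • cz2 L.bx L.bt x - FB mh A B) - (FB m A B - FB mh A B) := by abel
    rw [e]
    refine (norm_sub_le _ _).trans ?_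
    norm_num at RB MB ⊢
    linarith
  rw [dist_eq_norm]
  have hsg : sg ≠ 0 := sg_pos.ne'
  have e1 : (trj' L t - fld m (trj L t)).1 = 0 := by
    simp only [trj', fld, trj, Prod.fst_sub, smul_smul]
    rw [show sg * (4 / sg) = 4 by field_simp, sub_self]
  have e2 : (trj' L t - fld m (trj L t)).2.1 = 0 := by
    simp only [trj', fld, trj, Prod.fst_sub, Prod.snd_sub, smul_smul]
    rw [show sg * (4 / sg) = 4 by field_simp, sub_self]
  have e3 : (trj' L t - fld m (trj L t)).2.2.1 = sg⁻¹ • ((16 : ℝ) • cz2 L.ax L.ay x - FA m A B) := by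
    simp only [trj', fld, trj, Prod.fst_sub, Prod.snd_sub, smul_sub, smul_smul]
    rw [show sg⁻¹ * 16 = 16 / sg by field_simp]
  have e4 : (trj' L t - fld m (trj L t)).2.2.2 = sg⁻¹ • ((16 : ℝ) • cz2 L.bx L.bt x - FB m A B) := by
    simp only [trj', fld, trj, Prod.snd_sub, smul_sub, smul_smul]
    rw [show sg⁻¹ * 16 = 16 / sg by field_simp]
  have hs' : ∀ z : ℂ, ‖z‖ ≤ 2.3 / 10 ^ 22 → ‖sg⁻¹ • z‖ ≤ 1.25 / 10 ^ 22 := fun z hz => by
    rw [norm_smul, Real.norm_of_nonneg (inv_pos.2 sg_pos).le, sg]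
    norm_num at hz ⊢
    linarith
  rw [Prod.norm_def, Prod.norm_def, Prod.norm_def, e1, e2, e3, e4, norm_zero]
  exact max_le (by norm_num) (max_le (by norm_num) (max_le (hs' _ TA) (hs' _ TB)))

end Pool.Agent.T9h50.TB
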