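import Pool.Agent.T9h50.TB.Stp

/-!
# A criterion for escape
-/

set_option autoImplicit false

open scoped NNReal ComplexConjugate Topology
open Complex Set Filter

namespace Pool.Agent.T9h50.TB

/-- the real inner product -/
noncomputable def ip (a b : ℂ) : ℝ := a.re * b.re + a.im * b.im

/-- the determinant -/
noncomputable def dtm (a b : ℂ) : ℝ := a.re * b.im - a.im * b.re

lemma ip_self (a : ℂ) : ip a a = ‖a‖ ^ 2 := by
  rw [← Complex.normSq_eq_norm_sq, Complex.normSq_apply, ip]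

lemma lagr (a b : ℂ) : ip a b ^ 2 + dtm a b ^ 2 = ‖a‖ ^ 2 * ‖b‖ ^ 2 := by
  rw [← ip_self, ← ip_self, ip, ip, ip, dtm]; ring

lemma abs_ip_le (a b : ℂ) : |ip a b| ≤ ‖a‖ * ‖b‖ := by
  apply abs_le_of_sq_le_sq' _ (by positivity) |> abs_le.2
  rw [mul_pow, ← lagr]
  nlinarith [sq_nonneg (dtm a b)]

lemma abs_dtm_le (a b : ℂ) : |dtm a b| ≤ ‖a‖ * ‖b‖ := by
  apply abs_le_of_sq_le_sq' _ (by positivity) |> abs_le.2
  rw [mul_pow, ← lagr]
  nlinarith [sq_nonneg (ip a b)]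

lemma hasDerivAt_re {f : ℝ → ℂ} {f' : ℂ} {t : ℝ} (h : HasDerivAt f f' t) :
    HasDerivAt (fun s => (f s).re) f'.re t := by
  have := (Complex.reCLM.hasFDerivAt (x := f t)).comp_hasDerivAt t h
  exact this

lemma hasDerivAt_im {f : ℝ → ℂ} {f' : ℂ} {t : ℝ} (h : HasDerivAt f f' t) :
    HasDerivAt (fun s => (f s).im) f'.im t := by
  have := (Complex.imCLM.hasFDerivAt (x := f t)).comp_hasDerivAt t h
  exact this

lemma hasDerivAt_ip {f g : ℝ → ℂ} {f' g' : ℂ} {t : ℝ} (hf : HasDerivAt f f' t)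
    (hg : HasDerivAt g g' t) : HasDerivAt (fun s => ip (f s) (g s)) (ip f' (g t) + ip (f t) g') t := by
  have h := ((hasDerivAt_re hf).fun_mul (hasDerivAt_re hg)).fun_add
    ((hasDerivAt_im hf).fun_mul (hasDerivAt_im hg))
  refine h.congr_deriv ?_
  simp only [ip]; ring

lemma hasDerivAt_dtm {f g : ℝ → ℂ} {f' g' : ℂ} {t : ℝ} (hf : HasDerivAt f f' t)
    (hg : HasDerivAt g g' t) :
    HasDerivAt (fun s => dtm (f s) (g s)) (dtm f' (g t) + dtm (f t) g') t := by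
  have h := ((hasDerivAt_re hf).fun_mul (hasDerivAt_im hg)).fun_sub
    ((hasDerivAt_im hf).fun_mul (hasDerivAt_re hg))
  refine h.congr_deriv ?_
  simp only [dtm]; ring

lemma hasDerivAt_inv_norm {z : ℝ → ℂ} {z' : ℂ} {t : ℝ} (hz : HasDerivAt z z' t) (h0 : z t ≠ 0) :
    HasDerivAt (fun s => 1 / ‖z s‖) (-(ip (z t) z') / ‖z t‖ ^ 3) t := by
  have hpos : 0 < ‖z t‖ := norm_pos_iff.2 h0
  have h1 : HasDerivAt (fun s => ‖z s‖ ^ 2) (2 * ip (z t) z') t := by
    have h := hasDerivAt_ip hz hz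
    have e : (fun s => ip (z s) (z s)) = fun s => ‖z s‖ ^ 2 := by funext s; exact ip_self _
    rw [e] at h
    refine h.congr_deriv ?_
    rw [ip, ip]; ring
  have h2 := h1.sqrt (by positivity)
  have e2 : (fun s => √(‖z s‖ ^ 2)) = fun s => ‖z s‖ := by
    funext s; exact Real.sqrt_sq (norm_nonneg _)
  rw [e2, Real.sqrt_sq hpos.le] at h2
  have h3 := (hasDerivAt_const t (1 : ℝ)).div h2 hpos.ne'
  refine h3.congr_deriv ?_
  field_simp
  ring

lemma le_of_deriv {f f' : ℝ → ℝ} {a b : ℝ} (hab : a ≤ b) (h : ∀ t ∈ Icc a b, HasDerivAt f (f' t) t)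
    (h0 : ∀ t ∈ Icc a b, 0 ≤ f' t) : f a ≤ f b := by
  have hm : MonotoneOn f (Icc a b) := by
    apply monotoneOn_of_deriv_nonneg (convex_Icc a b)
    · exact fun t ht => (h t ht).continuousAt.continuousWithinAt
    · intro t ht
      rw [interior_Icc] at ht
      exact (h t (Ioo_subset_Icc_self ht)).differentiableAt.differentiableWithinAt
    · intro t ht
      rw [interior_Icc] at ht
      rw [(h t (Ioo_subset_Icc_self ht)).deriv]
      exact h0 t (Ioo_subset_Icc_self ht)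
  exact hm ⟨le_rfl, hab⟩ ⟨hab, le_rfl⟩ hab

/-- continuous induction -/
lemma forall_pos_of_step {g : ℝ → ℝ} {T0 : ℝ} (hg : ContinuousOn g (Ici T0)) (h0 : 0 < g T0)
    (hstep : ∀ T, T0 < T → (∀ t, T0 ≤ t → t < T → 0 < g t) → 0 < g T) : ∀ t, T0 ≤ t → 0 < g t := by
  by_contra hcon
  push Not at hcon
  obtain ⟨t1, ht1, hgt1⟩ := hcon
  set S := {t : ℝ | T0 ≤ t ∧ g t ≤ 0} with hS
  have hne : S.Nonempty := ⟨t1, ht1, hgt1⟩
  have hbdd : BddBelow S := ⟨T0, fun t ht => ht.1⟩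
  have hcl : IsClosed S := by
    have : S = Ici T0 ∩ g ⁻¹' (Iic 0) := by
      ext t; simp [S]
    rw [this]
    exact hg.preimage_isClosed_of_isClosed isClosed_Ici isClosed_Iic
  have hmem : sInf S ∈ S := hcl.csInf_mem hne hbdd
  have hlt : T0 < sInf S := by
    rcases lt_or_eq_of_le hmem.1 with h | h
    · exact h
    · exfalso
      have := hmem.2
      rw [← h] at this
      linarith
  have := hstep (sInf S) hlt (fun t h1 h2 => by
    by_contra h3
    push Not at h3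
    exact absurd (csInf_le hbdd ⟨h1, h3⟩) (not_le.2 h2))
  linarith [hmem.2]

lemma kd_congr {d Y : ℝ} {z : ℂ} (h : d ≤ Y) (hz : Y ≤ ‖z‖) : kd d z = kd Y z := by
  rw [kd_eq (h.trans hz), kd_eq hz]

end Pool.Agent.T9h50.TB
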