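import Pool.Agent.T9h50.TB.Dfc

/-!
# The numerical integration
-/

set_option autoImplicit false
set_option exponentiation.threshold 2000

open scoped NNReal ComplexConjugate
open Complex Set

namespace Pool.Agent.T9h50.TB

/-- the point of the state space which corresponds to a state -/
noncomputable def stE (s : St) : E :=
  (⟨s.ax0 / SR, s.ay0 / SR⟩, ⟨s.bx0 / SR, s.bt0 / SR⟩,
    (4 / sg : ℝ) • (⟨s.ax1 / SR, s.ay1 / SR⟩ : ℂ), (4 / sg : ℝ) • (⟨s.bx1 / SR, s.bt1 / SR⟩ : ℂ))

lemma trj_zero {L : Ls} {s : St} (h : chkS L s = true) : trj L 0 = stE s := by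
  simp only [chkS, Bool.and_eq_true] at h
  obtain ⟨h1, h2, h3, h4⟩ := h
  obtain ⟨a1, a2⟩ := hd2_sound h1
  obtain ⟨b1, b2⟩ := hd2_sound h2
  obtain ⟨c1, c2⟩ := hd2_sound h3
  obtain ⟨d1, d2⟩ := hd2_sound h4
  simp only [trj, mul_zero, cz, cz1, a1, a2, b1, b2, c1, c2, d1, d2, stE]

lemma trj_quarter (L : Ls) : trj L (1 / 4) = stE (nxt L) := by
  have e : (4 : ℝ) * (1 / 4) = 1 := by norm_num
  simp only [trj, e, cz, cz1, stE, nxt, sm_eq, dsm_eq]
  norm_num

lemma exp_bound : Real.exp (37 / 80) ≤ 1.59 := by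
  by_contra h
  push Not at h
  have h1 : (1.59 : ℝ) ^ 80 < Real.exp (37 / 80) ^ 80 := by gcongr
  rw [← Real.exp_nat_mul] at h1
  have h2 : ((80 : ℕ) : ℝ) * (37 / 80) = ((37 : ℕ) : ℝ) * 1 := by norm_num
  rw [h2, Real.exp_nat_mul] at h1
  have h3 := Real.exp_one_lt_d9
  have h4 : Real.exp 1 ^ 37 < 2.7182818286 ^ 37 := by gcongr
  norm_num at h1 h4
  linarith

/-- one step, in general form -/
lemma gron {m : Fin 3 → ℝ} (hm : NearM (1 / 10 ^ 6) m) {y z z' : ℝ → E} {t0 h e ε : ℝ}
    (hy : ∀ t ∈ Icc t0 (t0 + h), HasDerivAt y (fld m (y t)) t)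
    (hz : ∀ t ∈ Icc 0 h, HasDerivAt z (z' t) t) (hd : ∀ t ∈ Icc 0 h, dist (z' t) (fld m (z t)) ≤ ε)
    (h0 : dist (y t0) (z 0) ≤ e) {t : ℝ} (ht : t ∈ Icc 0 h) :
    dist (y (t0 + t)) (z t) ≤ (e + ε / (37 / 20)) * Real.exp (37 / 20 * t) - ε / (37 / 20) := by
  have hL := fld_lip hm
  have hy' : ∀ s ∈ Icc 0 h, HasDerivAt (fun s => y (t0 + s)) (fld m (y (t0 + s))) s := by
    intro s hs
    have := hy (t0 + s) ⟨by linarith [hs.1], by linarith [hs.2]⟩
    exact this.comp_const_add t0 s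
  have key := dist_le_of_approx_trajectories_ODE (v := fun _ => fld m) (K := (37 / 20 : ℝ≥0))
    (f := fun s => y (t0 + s)) (g := z) (f' := fun s => fld m (y (t0 + s))) (g' := z')
    (a := 0) (b := h) (εf := 0) (εg := ε) (δ := e) (fun _ => hL)
    (fun s hs => (hy' s hs).continuousAt.continuousWithinAt)
    (fun s hs => (hy' s ⟨hs.1, hs.2.le⟩).hasDerivWithinAt)
    (fun s _ => by simp)
    (fun s hs => (hz s hs).continuousAt.continuousWithinAt)
    (fun s hs => (hz s ⟨hs.1, hs.2.le⟩).hasDerivWithinAt)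
    (fun s hs => hd s ⟨hs.1, hs.2.le⟩) (by simpa using h0) t ht
  have cs : ((37 / 20 : ℝ≥0) : ℝ) = 37 / 20 := by norm_num
  rw [cs, gronwallBound_of_K_ne_0 (by norm_num), zero_add, sub_zero] at key
  calc _ ≤ _ := key
    _ = _ := by ring

lemma run_succ (DG DR deg n : Nat) (s : St) : run DG DR deg (n + 1) s =
    bif (chkS (gen deg s) s).and (chkL DG DR (gen deg s)) then run DG DR deg n (nxt (gen deg s)) else none := by
  have h1 : ∀ {α : Type} (L : Ls) (f : Ls → α), fLs L f = f L := fun L f => by cases L; rfl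
  have h2 : ∀ {α : Type} (s : St) (f : St → α), fSt s f = f s := fun s f => by
    simp only [fSt, fI_eq]
  have : run DG DR deg (n + 1) s = fLs (gen deg s) fun L =>
      Bool.casesOn (motive := fun _ => Option St) ((chkS L s).and (chkL DG DR L)) none
        (fSt (nxt L) (run DG DR deg n)) := rfl
  rw [this, h1, h2]
  cases (chkS (gen deg s) s).and (chkL DG DR (gen deg s)) <;> rfl

/-- the error constant -/
noncomputable def cE : ℝ := 1.25 / 10 ^ 22 / (37 / 20)

lemma cE_pos : 0 < cE := by unfold cE; norm_num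

/-- the numerical integration is sound -/
theorem run_sound {DG DR deg : ℕ} (hDG : (DG : ℝ) ≤ 2 ^ 384 / 10 ^ 26)
    (hDR : (DR : ℝ) ≤ 14432 * 2 ^ 384 / 10 ^ 24) {m : Fin 3 → ℝ} (hm : NearM (1 / 10 ^ 24) m)
    (n : ℕ) (s s' : St) (h : run DG DR deg n s = some s') (y : ℝ → E) (t0 e : ℝ) (he0 : 0 ≤ e)
    (hy : ∀ t, t0 ≤ t → HasDerivAt y (fld m (y t)) t) (he : 1.59 ^ n * (e + cE) ≤ 3 / 10 ^ 4)
    (h0 : dist (y t0) (stE s) ≤ e) :
    (∀ t, t0 ≤ t → t < t0 + n / 4 → Far 0 (y t)) ∧
      dist (y (t0 + n / 4)) (stE s') ≤ 1.59 ^ n * (e + cE) := by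
  have hXN : ∀ D : ℕ, (D : ℝ) ≤ 14432 * 2 ^ 384 → 2 * D < XN := by
    intro D hD
    have h1 : D ≤ 14432 * 2 ^ 384 := by exact_mod_cast hD
    have h2 : 2 * (14432 * 2 ^ 384) ≤ 2 ^ 430 * 2 := by norm_num
    have := two_pow_lt_XN
    omega
  have hG : 2 * DG < XN := hXN DG (hDG.trans (by
    rw [div_le_iff₀ (by positivity)]; norm_num))
  have hR : 2 * DR < XN := hXN DR (hDR.trans (by
    rw [div_le_iff₀ (by positivity)]; norm_num))
  induction n generalizing s t0 e with
  | zero =>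
    have hs : s = s' := by
      have : run DG DR deg 0 s = some s := rfl
      rw [this] at h
      exact Option.some.inj h
    subst hs
    refine ⟨fun t h1 h2 => ?_, ?_⟩
    · simp at h2; linarith
    · have := cE_pos
      simp only [Nat.cast_zero, zero_div, add_zero, pow_zero, one_mul]
      linarith
  | succ n ih =>
    rw [run_succ] at h
    set L := gen deg s with hL
    cases hc : (chkS L s).and (chkL DG DR L) with
    | false => rw [hc] at h; simp at h
    | true =>
      rw [hc] at h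
      simp only [cond_true] at h
      rw [Bool.and_eq_true] at hc
      have hgood := chkL_sound hG hR hc.2
      have hm6 : NearM (1 / 10 ^ 6) m := hm.mono (by norm_num)
      have hdef : ∀ t ∈ Icc (0 : ℝ) (1 / 4), dist (trj' L t) (fld m (trj L t)) ≤ 1.25 / 10 ^ 22 ∧
          Far (7 / 10 ^ 4) (trj L t) := fun t ht => trj_defect hgood hDG hDR hm ht.1 ht.2
      have hstep : ∀ t ∈ Icc (0 : ℝ) (1 / 4), dist (y (t0 + t)) (trj L t) ≤ 1.59 * (e + cE) - cE := by
        intro t ht
        have h1 := gron hm6 (y := y) (z := trj L) (z' := trj' L) (t0 := t0) (h := 1 / 4) (e := e)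
          (ε := 1.25 / 10 ^ 22) (fun s hs => hy s hs.1) (fun s _ => hasDerivAt_trj L s)
          (fun s hs => (hdef s hs).1) (by rw [trj_zero hc.1]; exact h0) ht
        have h2 : Real.exp (37 / 20 * t) ≤ 1.59 :=
          (Real.exp_le_exp.2 (by linarith [ht.2])).trans exp_bound
        have h3 := cE_pos
        have h4 : (1.25 / 10 ^ 22 / (37 / 20) : ℝ) = cE := rfl
        rw [h4] at h1
        have h5 : (e + cE) * Real.exp (37 / 20 * t) ≤ 1.59 * (e + cE) := by
          rw [mul_comm]; gcongr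
        linarith
      have hce := cE_pos
      have he1 : 0 ≤ 1.59 * (e + cE) - cE := by
        have : 0 ≤ e + cE := by linarith
        norm_num; linarith
      have hpow : (1.59 : ℝ) ^ (n + 1) = 1.59 ^ n * 1.59 := pow_succ _ _
      have hone : (1 : ℝ) ≤ 1.59 ^ n := one_le_pow₀ (by norm_num)
      have hb : 1.59 * (e + cE) ≤ 3 / 10 ^ 4 := by
        calc 1.59 * (e + cE) ≤ 1.59 ^ n * (1.59 * (e + cE)) :=
              le_mul_of_one_le_left (by positivity) hone
          _ = 1.59 ^ (n + 1) * (e + cE) := by rw [hpow]; ring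
          _ ≤ _ := he
      have hnext := ih (nxt L) h (t0 + 1 / 4) (1.59 * (e + cE) - cE) he1
        (fun t ht => hy t (by linarith)) (by
          have : 1.59 * (e + cE) - cE + cE = 1.59 * (e + cE) := by ring
          rw [this, ← mul_assoc, ← hpow]; exact he) (by
          rw [← trj_quarter]; exact hstep (1 / 4) ⟨by norm_num, le_rfl⟩)
      refine ⟨fun t h1 h2 => ?_, ?_⟩
      · rcases lt_or_ge t (t0 + 1 / 4) with h3 | h3
        · have h4 : t - t0 ∈ Icc (0 : ℝ) (1 / 4) := ⟨by linarith, by linarith⟩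
          have h5 := hstep (t - t0) h4
          rw [add_sub_cancel] at h5
          have h6 := (hdef (t - t0) h4).2.of_dist h5
          have h7 : 0 ≤ 7 / 10 ^ 4 - 2 * (1.59 * (e + cE) - cE) := by
            norm_num at hb ⊢; linarith
          obtain ⟨f1, f2, f3⟩ := h6
          exact ⟨by linarith, by linarith, by linarith⟩
        · refine hnext.1 t h3 ?_
          push_cast at h2
          linarith
      · have h3 := hnext.2
        have e3 : t0 + 1 / 4 + (n : ℝ) / 4 = t0 + ((n + 1 : ℕ) : ℝ) / 4 := by push_cast; ring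
        rw [e3] at h3
        have : 1.59 * (e + cE) - cE + cE = 1.59 * (e + cE) := by ring
        rw [this] at h3
        calc _ ≤ _ := h3
          _ = _ := by rw [hpow]; ring

end Pool.Agent.T9h50.TB
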