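import Pool.Agent.T9h50.TB.Nwt

/-!
# The Euler relative equilibrium with the masses `83 : 1044 : 3916`
-/

set_option autoImplicit false

open scoped NNReal ComplexConjugate Topology
open Complex Set Filter

namespace Pool.Agent.T9h50.TB

/-- positions of the bodies of the relative equilibrium -/
noncomputable def pos : Fin 3 → ℂ := ![104 / 41, 63 / 41, -19 / 41]

/-- the relative equilibrium -/
noncomputable def eul (t : ℝ) : Ph :=
  (fun a => rot t * pos a, fun a => I * om * (rot t * pos a))

lemma om_sqC : (om : ℂ) * om = 4 / 11 := by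
  have := om_sq
  rw [← Complex.ofReal_mul, this]; push_cast; ring

lemma eul_sol : IsSol mh univ eul := by
  intro t _
  have hr := norm_rot t
  have hr0 : rot t ≠ 0 := by
    intro h
    rw [h, norm_zero] at hr
    exact zero_ne_one hr
  have p0 : pos 0 = 104 / 41 := rfl
  have p1 : pos 1 = 63 / 41 := rfl
  have p2 : pos 2 = -19 / 41 := rfl
  refine ⟨?_, ?_⟩
  · intro i j hij h
    have h' : pos i = pos j := mul_left_cancel₀ hr0 h
    fin_cases i <;> fin_cases j <;>
      simp only [Fin.zero_eta, Fin.mk_one, Fin.reduceFinMk, p0, p1, p2, ne_eq] at hij h'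
    · exact absurd trivial hij
    all_goals first | exact absurd trivial hij | norm_num at h'
  · rw [hasDerivWithinAt_univ]
    have hnorm : ∀ i j, ‖rot t * pos i - rot t * pos j‖ = ‖pos i - pos j‖ := by
      intro i j
      rw [← mul_sub, norm_mul, hr, one_mul]
    have n01 : ‖pos 0 - pos 1‖ = 1 := by rw [p0, p1]; norm_num
    have n10 : ‖pos 1 - pos 0‖ = 1 := by rw [norm_sub_rev, n01]
    have n12 : ‖pos 1 - pos 2‖ = 2 := by rw [p1, p2]; norm_num
    have n21 : ‖pos 2 - pos 1‖ = 2 := by rw [norm_sub_rev, n12]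
    have n02 : ‖pos 0 - pos 2‖ = 3 := by rw [p0, p2]; norm_num
    have n20 : ‖pos 2 - pos 0‖ = 3 := by rw [norm_sub_rev, n02]
    have hacc : ∀ i, acc mh (fun a => rot t * pos a) i = I * om * (I * om * (rot t * pos i)) := by
      intro i
      have e : ∀ z : ℂ, I * om * (I * om * z) = -(4 / 11) * z := fun z => by
        have : I * om * (I * om * z) = (I * I) * (om * om) * z := by ring
        rw [this, I_mul_I, om_sqC]; ring
      rw [e]
      fin_cases i
      · have e1 : (Finset.univ.erase (0 : Fin 3)) = {1, 2} := by decide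
        simp only [Fin.zero_eta, acc, e1]
        rw [Finset.sum_pair (by decide), hnorm, hnorm, n10, n20, mh1, mh2, p0, p1, p2]
        push_cast
        ring
      · have e1 : (Finset.univ.erase (1 : Fin 3)) = {0, 2} := by decide
        simp only [Fin.mk_one, acc, e1]
        rw [Finset.sum_pair (by decide), hnorm, hnorm, n01, n21, mh0, mh2, p0, p1, p2]
        push_cast
        ring
      · have e1 : (Finset.univ.erase (2 : Fin 3)) = {0, 1} := by decide
        simp only [Fin.reduceFinMk, acc, e1]
        rw [Finset.sum_pair (by decide), hnorm, hnorm, n02, n12, mh0, mh1, p0, p1, p2]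
        push_cast
        ring
    have hd : ∀ i, HasDerivAt (fun s => rot s * pos i) (I * om * (rot t * pos i)) t := by
      intro i
      refine ((hasDerivAt_rot t).mul_const (pos i)).congr_deriv ?_
      ring
    refine HasDerivAt.prodMk ?_ ?_
    · rw [hasDerivAt_pi]
      exact hd
    · rw [hasDerivAt_pi]
      intro i
      exact ((hd i).const_mul (I * om)).congr_deriv (hacc i).symm

lemma continuous_evR (l : List Int) : Continuous (evR l) := by
  induction l with
  | nil => exact continuous_const
  | cons a p ih => exact continuous_const.add (continuous_id.mul ih)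

/-- the limit of the approximate solution -/
noncomputable def xre : E := (1, 2, sg⁻¹ • (I * om), sg⁻¹ • (2 * (I * om)))

/-- the curve of initial conditions -/
noncomputable def wz (s : ℝ) : E := (cq QxA QyA s, cq QxB QyB s, sg⁻¹ • cq1 QxA QyA s, sg⁻¹ • cq1 QxB QyB s)

lemma continuous_wz : Continuous wz := by
  have h : ∀ f g : ℝ → ℝ, Continuous f → Continuous g → Continuous (fun x => (⟨f x, g x⟩ : ℂ)) := by
    intro f g hf hg
    have e : (fun x => (⟨f x, g x⟩ : ℂ)) = fun x => (f x : ℂ) + (g x : ℂ) * I := by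
      funext x; apply Complex.ext <;> simp
    rw [e]
    exact (continuous_ofReal.comp hf).add ((continuous_ofReal.comp hg).mul continuous_const)
  have c1 : ∀ x y, Continuous (cq x y) := fun x y =>
    h _ _ ((continuous_evR x).div_const _) (continuous_const.mul ((continuous_evR y).div_const _))
  have c2 : ∀ x y, Continuous (cq1 x y) := fun x y =>
    h _ _ (((continuous_evR _).div_const _).sub (continuous_const.mul ((continuous_evR y).div_const _)))
      (continuous_const.mul (((continuous_evR _).div_const _).add ((continuous_evR x).div_const _)))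
  have c3 : ∀ x y, Continuous (fun s => sg⁻¹ • cq1 x y s) := fun x y =>
    (continuous_const_smul sg⁻¹).comp (c2 x y)
  exact (c1 _ _).prodMk ((c1 _ _).prodMk ((c3 _ _).prodMk (c3 _ _)))

lemma wz_zero : wz 0 = xre := by
  have e : ∀ (a : ℤ) (p : List Int), evR (a :: p) 0 = a := fun a p => by simp [evR]
  have a1 : evR QxA 0 = SQR := by rw [QxA, e, SQR]; norm_num
  have a2 : evR QyA 0 = 0 := by rw [QyA, e]; norm_num
  have a3 : evR QxB 0 = 2 * SQR := by rw [QxB, e, SQR]; norm_num
  have a4 : evR QyB 0 = 0 := by rw [QyB, e]; norm_num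
  have l1 : ∀ l, evR (lin 0 l) 0 = 0 := fun l => by rw [evR_lin]; push_cast; ring
  have hS := SQR_pos.ne'
  have b1 : cq QxA QyA 0 = 1 := by
    rw [cq, a1, a2, div_self hS, zero_div, mul_zero]; rfl
  have b2 : cq QxB QyB 0 = 2 := by
    rw [cq, a3, a4, mul_div_assoc, div_self hS, zero_div, mul_zero, mul_one]
    apply Complex.ext <;> simp
  have b3 : cq1 QxA QyA 0 = I * om := by
    rw [cq1, l1, l1, a1, a2, div_self hS, zero_div]
    apply Complex.ext <;> simp
  have b4 : cq1 QxB QyB 0 = 2 * (I * om) := by
    rw [cq1, l1, l1, a3, a4, mul_div_assoc, div_self hS, zero_div]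
    apply Complex.ext <;> simp
    ring
  rw [wz, b1, b2, b3, b4, xre]

/-- the times at which the rotation is trivial -/
noncomputable def tk (k : ℕ) : ℝ := -(2 * Real.pi * k / om)

lemma rot_tk (k : ℕ) : rot (tk k) = 1 := by
  have h : om * tk k = -(2 * Real.pi * k) := by
    rw [tk]
    have := om_pos.ne'
    field_simp
  rw [rot, h]
  have e : (((-(2 * Real.pi * k) : ℝ) : ℂ)) * I = -(k * (2 * Real.pi * I)) := by push_cast; ring
  rw [e, Complex.exp_neg, Complex.exp_nat_mul_two_pi_mul_I, inv_one]

lemma wu_tk (k : ℕ) : wu (tk k) = wz (Real.exp (tk k)) := by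
  rw [wu, wz, rot_tk]
  simp only [one_mul]

lemma tk_nonpos (k : ℕ) : tk k ≤ 0 := by
  rw [tk]
  have h1 := om_pos
  have h2 := Real.pi_pos
  have : 0 ≤ 2 * Real.pi * k / om := by positivity
  linarith

lemma tendsto_tk : Tendsto tk atTop atBot := by
  have h1 := om_pos
  have h2 := Real.pi_pos
  have e : tk = fun k : ℕ => (-(2 * Real.pi / om)) * (k : ℝ) := by
    funext k; rw [tk]; ring
  rw [e]
  exact tendsto_natCast_atTop_atTop.const_mul_atTop_of_neg (by
    have : 0 < 2 * Real.pi / om := by positivity
    linarith)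

lemma tendsto_wu_tk : Tendsto (fun k => wu (tk k)) atTop (𝓝 xre) := by
  have h1 : Tendsto (fun k => Real.exp (tk k)) atTop (𝓝 0) :=
    Real.tendsto_exp_atBot.comp tendsto_tk
  have h2 := (continuous_wz.tendsto 0).comp h1
  rw [wz_zero] at h2
  refine h2.congr fun k => ?_
  rw [wu_tk]; rfl

lemma nearM_mh : NearM 0 mh := fun i => by simp

theorem unbE_xre : ∀ V ∈ 𝓝 xre, ∃ x ∈ V, UnbE mh x := by
  intro V hV
  obtain ⟨k, hk⟩ := (tendsto_wu_tk.eventually_mem hV).exists
  refine ⟨_, hk, unbE_of_near nearM_mh (by norm_num) (tk_nonpos k) (c := 0) (dist_self _).le ?_⟩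
  norm_num

/-- near the relative equilibrium there are unbounded solutions -/
theorem eul_unb : ∀ U ∈ 𝓝 (eul 0), ∃ w ∈ U, Unb mh w := by
  apply unb_of_unbE
  · rw [mh0, mh1, mh2]; norm_num
  · have e : rel (eul 0) = xre := by
      have r0 : rot 0 = 1 := by simp [rot]
      simp only [rel, eul, xre, r0, one_mul, pos]
      refine Prod.ext ?_ (Prod.ext ?_ (Prod.ext ?_ ?_))
      · simp; norm_num
      · simp; norm_num
      · simp only [Matrix.cons_val_zero, Matrix.cons_val_one]; congr 1; ring
      · dsimp only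
        congr 1
        have p1 : (![104 / 41, 63 / 41, -19 / 41] : Fin 3 → ℂ) 1 = 63 / 41 := rfl
        have p2 : (![104 / 41, 63 / 41, -19 / 41] : Fin 3 → ℂ) 2 = -19 / 41 := rfl
        rw [p1, p2]
        ring
    rw [e]
    exact unbE_xre

end Pool.Agent.T9h50.TB
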