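import Pool.Agent.T9h50.TB.Rtf

/-!
# Solutions which stay near the relative equilibrium are limits of unbounded solutions
-/

set_option autoImplicit false

open scoped NNReal ComplexConjugate Topology
open Complex Set Filter

namespace Pool.Agent.T9h50.TB

lemma uv_mul {b : ℂ} (hb : b ≠ 0) : uv b * b = (‖b‖ : ℂ) := by
  have h : (‖b‖ : ℂ) ≠ 0 := by exact_mod_cast (norm_pos_iff.2 hb).ne'
  have h2 : conj b * b = (‖b‖ : ℂ) ^ 2 := by
    rw [mul_comm, Complex.mul_conj, Complex.normSq_eq_norm_sq]; push_cast; rfl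
  rw [uv, mul_assoc, h2]
  push_cast
  field_simp

lemma norm_xre_le : ‖xre‖ ≤ 2 := by
  have ho := om_pos
  have ho1 := om_lt
  have h1 : ‖I * (om : ℂ)‖ ≤ 1 := by
    rw [norm_mul, Complex.norm_I, one_mul, Complex.norm_real, Real.norm_of_nonneg ho.le]; exact ho1.le
  have h2 : ‖2 * (I * (om : ℂ))‖ ≤ 2 := by
    rw [norm_mul]; norm_num
    rw [norm_mul, Complex.norm_I, one_mul, Complex.norm_real, Real.norm_of_nonneg ho.le] at h1
    rw [abs_of_pos ho]; exact h1
  have hs' : ∀ z : ℂ, ‖z‖ ≤ 2 → ‖sg⁻¹ • z‖ ≤ 2 := fun z hz => by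
    rw [norm_smul, Real.norm_of_nonneg (inv_pos.2 sg_pos).le, sg]
    norm_num at hz ⊢
    linarith
  rw [Prod.norm_def, Prod.norm_def, Prod.norm_def]
  refine max_le ?_ (max_le ?_ (max_le ?_ ?_))
  · rw [norm_xre.1]; norm_num
  · rw [norm_xre.2.1]
  · exact hs' _ (h1.trans (by norm_num))
  · exact hs' _ h2

lemma dtm_eq (b c : ℂ) : dtm b c = (conj b * c).im := by
  rw [dtm, Complex.mul_im, Complex.conj_re, Complex.conj_im]; ring

lemma frame_close {γ : E} {u : ℂ} {κ : ℝ} (hu : ‖u‖ = 1) (hκ : κ ≤ 1 / 10) (h : ‖γ - u • xre‖ ≤ κ) :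
    γ.2.1 ≠ 0 ∧ ‖uv γ.2.1 • γ - xre‖ ≤ 5 * κ ∧
      |dtm γ.2.1 (sg • γ.2.2.2) / ‖γ.2.1‖ ^ 2 - om| ≤ 6 * κ := by
  have hκ0 : 0 ≤ κ := (norm_nonneg _).trans h
  set b := γ.2.1 with hb
  have h1 : ‖b - u * 2‖ ≤ κ :=
    ((norm_fst_le (γ - u • xre).2).trans (norm_snd_le (γ - u • xre))).trans h
  have n2 : ‖u * 2‖ = 2 := by rw [norm_mul, hu]; norm_num
  have hb1 : ‖b‖ ≤ 2 + κ := by
    have := norm_le_norm_add_norm_sub' b (u * 2)
    rw [norm_sub_rev] at h1
    rw [n2] at this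
    rw [norm_sub_rev] at h1
    linarith
  have hb2 : 2 - κ ≤ ‖b‖ := by
    have := norm_sub_norm_le (u * 2) b
    rw [n2, norm_sub_rev] at this
    linarith
  have hb3 : 19 / 10 ≤ ‖b‖ := by linarith
  have hb0 : b ≠ 0 := norm_pos_iff.1 (by linarith)
  have hbp : 0 < ‖b‖ := norm_pos_iff.2 hb0
  have hv := norm_uv hb0
  have huv : ‖uv b * u - 1‖ ≤ 11 / 10 * κ := by
    have hne : (‖b‖ : ℂ) ≠ 0 := by exact_mod_cast hbp.ne'
    have huu : conj u * u = 1 := by
      rw [mul_comm, Complex.mul_conj, Complex.normSq_eq_norm_sq, hu]; norm_num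
    have e : uv b * u - 1 = ((1 / ‖b‖ : ℝ) : ℂ) * (((2 - ‖b‖ : ℝ) : ℂ) + conj (b - u * 2) * u) := by
      rw [uv, map_sub, map_mul]
      have : (conj b - conj u * conj 2) * u = conj b * u - conj 2 * (conj u * u) := by ring
      rw [this, huu]
      have h2 : conj (2 : ℂ) = 2 := by
        have := Complex.conj_ofReal 2
        simpa using this
      rw [h2]
      push_cast
      field_simp
      ring
    rw [e, norm_mul, Complex.norm_real, Real.norm_of_nonneg (by positivity)]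
    have h3 : ‖((2 - ‖b‖ : ℝ) : ℂ) + conj (b - u * 2) * u‖ ≤ 2 * κ := by
      refine (norm_add_le _ _).trans ?_
      rw [Complex.norm_real, norm_mul, Complex.norm_conj, hu, mul_one, Real.norm_eq_abs]
      have : |2 - ‖b‖| ≤ κ := by rw [abs_le]; constructor <;> linarith
      linarith
    calc 1 / ‖b‖ * ‖((2 - ‖b‖ : ℝ) : ℂ) + conj (b - u * 2) * u‖ ≤ 1 / (19 / 10) * (2 * κ) := by
          gcongr
      _ ≤ 11 / 10 * κ := by
          norm_num
          linarith
  have hΓ : ‖uv b • γ - xre‖ ≤ 5 * κ := by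
    have e : uv b • γ - xre = uv b • (γ - u • xre) + (uv b * u - 1) • xre := by
      rw [smul_sub, sub_smul, one_smul, mul_smul]; abel
    rw [e]
    refine (norm_add_le _ _).trans ?_
    rw [norm_smul, norm_smul, hv, one_mul]
    have := norm_xre_le
    have h4 : ‖uv b * u - 1‖ * ‖xre‖ ≤ 11 / 10 * κ * 2 := by gcongr
    linarith
  refine ⟨hb0, hΓ, ?_⟩
  set w := uv b * (sg • γ.2.2.2) with hw
  have hwc : ‖w - 2 * (I * om)‖ ≤ 37 / 4 * κ := by
    have e : w - 2 * (I * om) = sg • ((uv b • γ - xre).2.2.2) := by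
      show uv b * (sg • γ.2.2.2) - 2 * (I * om) = sg • (uv b * γ.2.2.2 - sg⁻¹ • (2 * (I * om)))
      rw [smul_sub, smul_smul, mul_inv_cancel₀ sg_pos.ne', one_smul]
      simp only [Complex.real_smul]
      ring
    rw [e, norm_smul, Real.norm_of_nonneg sg_pos.le]
    have h5 : ‖(uv b • γ - xre).2.2.2‖ ≤ 5 * κ :=
      (norm_snd_le (uv b • γ - xre).2.2).trans ((norm_snd_le (uv b • γ - xre).2).trans
        ((norm_snd_le (uv b • γ - xre)).trans hΓ))
    rw [sg]
    linarith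
  have hwi : |w.im - 2 * om| ≤ 37 / 4 * κ := by
    have e : w.im - 2 * om = (w - 2 * (I * om)).im := by simp
    rw [e]
    exact (Complex.abs_im_le_norm _).trans hwc
  have hd : dtm b (sg • γ.2.2.2) = ‖b‖ * w.im := by
    have e : conj b * (sg • γ.2.2.2) = ((‖b‖ : ℝ) : ℂ) * w := by
      have hne : (‖b‖ : ℂ) ≠ 0 := by exact_mod_cast hbp.ne'
      rw [hw, uv]; push_cast; field_simp
    rw [dtm_eq, e, Complex.im_ofReal_mul]
  rw [hd]
  have e2 : ‖b‖ * w.im / ‖b‖ ^ 2 - om = (w.im - om * ‖b‖) / ‖b‖ := by field_simp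
  rw [e2, abs_div, abs_of_pos hbp, div_le_iff₀ hbp]
  have ho := om_pos
  have ho1 := om_lt
  obtain ⟨w1', w2'⟩ := abs_le.1 hwi
  have : |w.im - om * ‖b‖| ≤ 41 / 4 * κ := by
    rw [abs_le]
    constructor
    · have h6 : om * ‖b‖ ≤ 2 * om + κ := by nlinarith
      linarith
    · have h6 : 2 * om - κ ≤ om * ‖b‖ := by nlinarith
      linarith
  nlinarith

lemma wu_eq (t : ℝ) : wu t = rot t • wz (Real.exp t) := by
  have c : ∀ (z : ℂ), sg⁻¹ • (rot t * z) = rot t * (sg⁻¹ • z) := fun z => by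
    simp only [Complex.real_smul]; ring
  rw [wu, wz, c, c]
  rfl

lemma far_xre : Far (1 / 20) xre := by
  obtain ⟨n1, n2, n3⟩ := norm_xre
  refine ⟨?_, ?_, ?_⟩
  · rw [n1]; unfold dA; norm_num
  · rw [n3]; unfold dC; norm_num
  · rw [n2]; unfold dB; norm_num

set_option maxHeartbeats 1000000 in
theorem unbE_dense : ∃ κ : ℝ, 0 < κ ∧ κ ≤ 1 / 10 ^ 24 ∧ ∀ m : Fin 3 → ℝ, NearM κ m → ∀ γ : ℝ → E,
    (∀ t, 0 ≤ t → HasDerivAt γ (fld m (γ t)) t) →
    (∀ t, 0 ≤ t → ∃ u : ℂ, ‖u‖ = 1 ∧ ‖γ t - u • xre‖ ≤ κ) →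
    ∀ V ∈ 𝓝 (γ 0), ∃ x ∈ V, UnbE m x := by
  obtain ⟨C1, C2, hS⟩ := exists_sad
  obtain ⟨K, ρ0, hK, hρ0, hq⟩ := quad_est contDiffAt_fld
  have ha1 := a1_pos
  have hC1 := hS.c1
  have hC2 := hS.c2
  set Λ : ℝ := 12 + 5 * K + 2 * K * C2 * a1 with hΛ
  have hΛ0 : 0 < Λ := by positivity
  set M : ℝ := 5 + C2 * (200 * C1 * C2 * Λ) * a1 + 256 with hM
  have hM0 : 0 < M := by positivity
  have hev : ∀ c : ℝ, 0 < c → ∀ᶠ t in atBot, Real.exp t ≤ c := fun c hc =>
    (Real.tendsto_exp_atBot.eventually_lt_const hc).mono fun t ht => ht.le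
  have hev2 : ∀ᶠ t : ℝ in atBot, Real.exp (t / 10) ≤ 5 / 10 ^ 24 / (M + 60) := by
    have h1 : Tendsto (fun t : ℝ => t / 10) atBot atBot :=
      tendsto_id.atBot_div_const (by norm_num)
    exact h1.eventually (hev _ (by positivity))
  have hc1 : 0 < min ρ0 (1 / 100) / (5 + 2 * C2 * a1) := by
    have : 0 < min ρ0 (1 / 100) := lt_min hρ0 (by norm_num)
    positivity
  have hc2 : 0 < 1 / (200 * C1 * C2 * Λ) := by positivity
  obtain ⟨t1, h1, h2, h3, h4⟩ := ((hev (1 / 10 ^ 12) (by norm_num)).and ((hev _ hc1).and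
    ((hev _ hc2).and hev2))).exists
  set s := Real.exp t1 with hs
  have hs0 : 0 < s := Real.exp_pos _
  have hs1 : s ≤ 1 := h1.trans (by norm_num)
  have ht1 : t1 ≤ 0 := by
    by_contra hcon
    push Not at hcon
    have := Real.one_lt_exp_iff.2 hcon
    rw [← hs] at this
    linarith
  have hss : s ^ 2 ≤ s := by nlinarith
  rw [le_div_iff₀ (by positivity)] at h2 h3 h4
  set κ : ℝ := s ^ 2 with hκ
  have hκ0 : 0 < κ := by positivity
  have hκ24 : κ ≤ 1 / 10 ^ 24 := by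
    calc κ ≤ (1 / 10 ^ 12) ^ 2 := by rw [hκ]; gcongr
      _ = 1 / 10 ^ 24 := by norm_num
  refine ⟨κ, hκ0, hκ24, fun m hm γ hγ hnear V hV => ?_⟩
  set A : ℝ := a1 * s with hA
  have hA0 : 0 < A := by positivity
  set ρ : ℝ := 5 * κ + 2 * C2 * A with hρ
  have hρ1 : ρ ≤ min ρ0 (1 / 100) := by
    have : ρ ≤ s * (5 + 2 * C2 * a1) := by
      rw [hρ, hA]; nlinarith
    exact this.trans h2
  set ε : ℝ := 12 * κ + K * ρ with hε
  have hρ0' : 0 ≤ ρ := by positivity
  have hε0 : 0 ≤ ε := by positivity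
  have hεΛ : ε ≤ Λ * s := by
    rw [hε, hρ, hA, hΛ]
    nlinarith
  set θ : ℝ := 200 * C1 * C2 * Λ * s with hθ
  have hθ0 : 0 < θ := by positivity
  have hθ1 : θ ≤ 1 := by
    rw [hθ]; linarith
  have hθ2 : 200 * C1 * C2 * ε ≤ θ := by
    rw [hθ]
    calc 200 * C1 * C2 * ε ≤ 200 * C1 * C2 * (Λ * s) := by gcongr
      _ = _ := by ring
  have hκ10 : κ ≤ 1 / 10 := hκ24.trans (by norm_num)
  have hfr : ∀ t, 0 ≤ t → (γ t).2.1 ≠ 0 ∧ ‖uv (γ t).2.1 • γ t - xre‖ ≤ 5 * κ ∧
      |dtm (γ t).2.1 (sg • (γ t).2.2.2) / ‖(γ t).2.1‖ ^ 2 - om| ≤ 6 * κ := by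
    intro t ht
    obtain ⟨u, hu, hd⟩ := hnear t ht
    exact frame_close hu hκ10 hd
  obtain ⟨r, hr0, hr⟩ := Metric.mem_nhds_iff.1 hV
  set v : ℝ → ℂ := fun t => uv (γ t).2.1 with hv
  have hvn : ∀ t, 0 ≤ t → ‖v t‖ = 1 := fun t ht => norm_uv (hfr t ht).1
  set a : ℝ := min (r / (2 * (‖w1‖ + 1))) (s / 2) with ha
  have ha0 : 0 < a := lt_min (by positivity) (by positivity)
  have hw1 : 0 ≤ ‖w1‖ := norm_nonneg _
  have har : a * ‖w1‖ < r := by
    have h5 : a ≤ r / (2 * (‖w1‖ + 1)) := min_le_left _ _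
    calc a * ‖w1‖ ≤ r / (2 * (‖w1‖ + 1)) * (‖w1‖ + 1) := by gcongr; linarith
      _ = r / 2 := by field_simp
      _ < r := by linarith
  have has : a < s := lt_of_le_of_lt (min_le_right _ _) (by linarith)
  set x : E := γ 0 + (conj (v 0)) • (a • w1) with hx
  have hxV : x ∈ V := by
    apply hr
    rw [Metric.mem_ball, dist_eq_norm, hx, add_sub_cancel_left, norm_smul, Complex.norm_conj,
      hvn 0 le_rfl, one_mul, norm_smul, Real.norm_of_nonneg ha0.le]
    exact har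
  refine ⟨x, hxV, ?_⟩
  have hL := fld_lip (hm.mono (hκ24.trans (by norm_num)))
  obtain ⟨y, hy0, hy⟩ := exists_forward (fld m) _ hL x
  set D : ℝ → E := fun t => v t • (y t - γ t) with hD
  set om' : ℝ → ℝ := fun t => dtm (γ t).2.1 (sg • (γ t).2.2.2) / ‖(γ t).2.1‖ ^ 2 with hom'
  set D' : ℝ → E := fun t => v t • (fld m (y t) - fld m (γ t)) +
    (-(I * (om' t : ℝ)) * v t) • (y t - γ t) with hD'
  have hDd : ∀ t, 0 ≤ t → HasDerivAt D (D' t) t := by
    intro t ht
    have k1 : HasDerivAt (fun s => (γ s).2.1) (sg • (γ t).2.2.2) t := (hγ t ht).snd.fst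
    have k2 : HasDerivAt v (-(I * (om' t : ℝ)) * v t) t := hasDerivAt_uv k1 (hfr t ht).1
    exact k2.fun_smul ((hy t ht).fun_sub (hγ t ht))
  have herr : ∀ t, 0 ≤ t → ‖D t‖ ≤ 2 * C2 * A → ‖D' t - Gm (D t)‖ ≤ ε * ‖D t‖ := by
    intro t ht hDt
    have hvt := hvn t ht
    obtain ⟨-, k1, k2⟩ := hfr t ht
    have e0 : D t = v t • y t - v t • γ t := by simp only [hD, smul_sub]
    have e1 : D' t - Gm (D t) =
        ((fld m (v t • y t) - fld m (v t • γ t)) - (fld mh (v t • y t) - fld mh (v t • γ t))) +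
        (fld mh (v t • y t) - fld mh (v t • γ t) - fderiv ℝ (fld mh) xre (v t • y t - v t • γ t)) -
        (I * ((om' t - om : ℝ) : ℂ)) • D t := by
      rw [Gm, fld_rot m hvt, fld_rot m hvt, ← e0]
      have e2 : (-(I * (om' t : ℝ)) * v t) • (y t - γ t) = (-(I * (om' t : ℝ))) • D t := by
        simp only [hD, mul_smul]
      simp only [hD']
      rw [e2, smul_sub]
      push_cast
      rw [mul_sub, sub_smul, neg_smul]
      abel
    have hΓ : ‖v t • γ t - xre‖ ≤ ρ := k1.trans (by rw [hρ]; have : 0 ≤ 2 * C2 * A := by positivity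
                                                    linarith)
    have hX : ‖v t • y t - xre‖ ≤ ρ := by
      have e3 : v t • y t - xre = (v t • γ t - xre) + D t := by rw [e0]; abel
      rw [e3]
      refine (norm_add_le _ _).trans ?_
      rw [hρ]
      exact add_le_add k1 hDt
    have q1 := fld_mass hm (v t • y t) (v t • γ t)
    have q2 := hq ρ (hρ1.trans (min_le_left _ _)) _ _ hX hΓ
    rw [← e0] at q1 q2
    have q3 : ‖(I * ((om' t - om : ℝ) : ℂ)) • D t‖ ≤ 6 * κ * ‖D t‖ := by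
      rw [norm_smul, norm_mul, Complex.norm_I, one_mul, Complex.norm_real, Real.norm_eq_abs]
      exact mul_le_mul_of_nonneg_right k2 (norm_nonneg _)
    rw [e1]
    refine (norm_sub_le _ _).trans ?_
    refine (add_le_add (norm_add_le _ _) le_rfl).trans ?_
    rw [← e0]
    calc _ ≤ 6 * κ * ‖D t‖ + K * ρ * ‖D t‖ + 6 * κ * ‖D t‖ := by gcongr
      _ = ε * ‖D t‖ := by rw [hε]; ring
  have hD0 : D 0 = a • w1 := by
    have hvv : v 0 * conj (v 0) = 1 := by
      rw [Complex.mul_conj, Complex.normSq_eq_norm_sq, hvn 0 le_rfl]; norm_num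
    simp only [hD]
    rw [hy0, hx, add_sub_cancel_left, smul_smul, hvv, one_smul]
  have hal0 : al (D 0) = a * a1 := by rw [hD0, map_smul, smul_eq_mul]; rfl
  have hbe0 : be (D 0) = 0 := by rw [hD0, map_smul, be_w1, smul_zero]
  obtain ⟨T, hT0, hT1, hT2, hT3⟩ := cone_exit hS hε0 hθ0 hθ2 hθ1 hDd herr hal0 (by positivity)
    (by rw [hA, mul_comm]; exact mul_lt_mul_of_pos_left has ha1) hbe0
  -- matching
  have hvT := hvn T hT0
  have hmatch : ‖v T • y T - wz s‖ ≤ M * s ^ 2 := by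
    have e1 : v T • y T - wz s = (v T • γ T - xre) + (D T - s • w1) - (wz s - xre - s • w1) := by
      have e0 : D T = v T • y T - v T • γ T := by simp only [hD, smul_sub]
      rw [e0]; abel
    have k1 := (hfr T hT0).2.1
    have k2 : ‖D T - s • w1‖ ≤ C2 * (θ * A) := by
      refine (hS.nrm _).trans ?_
      have e2 : al (D T - s • w1) = 0 := by
        rw [map_sub, hT1, map_smul, smul_eq_mul, hA]
        show a1 * s - s * a1 = 0
        ring
      have e3 : be (D T - s • w1) = be (D T) := by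
        have e4 : be (s • w1) = 0 := by rw [map_smul, be_w1, smul_zero]
        rw [map_sub, e4, sub_zero]
      rw [e2, e3, abs_zero, zero_add]
      gcongr
    have k3 := wz_two hs0.le hs1
    rw [e1]
    refine (norm_sub_le _ _).trans ?_
    refine (add_le_add (norm_add_le _ _) le_rfl).trans ?_
    calc _ ≤ 5 * κ + C2 * (θ * A) + 256 * s ^ 2 := by gcongr
      _ = M * s ^ 2 := by rw [hM, hκ, hθ, hA]; ring
  have hrot1 : ‖rot t1 * v T‖ = 1 := by rw [norm_mul, norm_rot, hvT, one_mul]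
  set z : ℝ → E := fun τ => (rot t1 * v T) • y (τ - t1 + T) with hz
  have hzd : ∀ τ, t1 ≤ τ → HasDerivAt z (fld m (z τ)) τ := by
    intro τ hτ
    have k1 := hy (τ - t1 + T) (by linarith)
    have k2 : HasDerivAt (fun τ => y (τ - t1 + T)) (fld m (y (τ - t1 + T))) τ := by
      have e : (fun τ => y (τ - t1 + T)) = fun τ => y (τ - (t1 - T)) := by
        funext τ; congr 1; ring
      rw [e]
      have k3 : HasDerivAt y (fld m (y (τ - t1 + T))) (τ - (t1 - T)) := by
        have : τ - (t1 - T) = τ - t1 + T := by ring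
        rw [this]; exact k1
      exact k3.comp_sub_const τ (t1 - T)
    have k4 := k2.const_smul (rot t1 * v T)
    rw [← fld_rot m hrot1] at k4
    exact k4
  have hzc : dist (z t1) (wu t1) ≤ M * s ^ 2 := by
    rw [dist_eq_norm, wu_eq]
    simp only [hz, sub_self, zero_add]
    rw [mul_smul, ← smul_sub, norm_smul, norm_rot, one_mul]
    exact hmatch
  have hesc := escape_wu hm hκ24 ht1 hzd hzc (by
    have e1 : (M * s ^ 2 + 60 * κ) * Real.exp (-(19 / 10 * t1)) = Real.exp (t1 / 10) * (M + 60) := by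
      have e2 : s ^ 2 = Real.exp (2 * t1) := by rw [hs, ← Real.exp_nat_mul]; norm_num
      have e3 : Real.exp (t1 / 10) = Real.exp (2 * t1) * Real.exp (-(19 / 10 * t1)) := by
        rw [← Real.exp_add]; congr 1; ring
      rw [hκ, e2, e3]; ring
    rw [e1]
    exact h4)
  have hnz : ∀ τ, ‖(z τ).1‖ = ‖(y (τ - t1 + T)).1‖ := by
    intro τ
    show ‖(rot t1 * v T) * (y (τ - t1 + T)).1‖ = _
    rw [norm_mul, hrot1, one_mul]
  refine ⟨y, hy0, hy, fun t ht => ?_, fun R => ?_⟩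
  · rcases le_or_gt t T with h5 | h5
    · have k1 := (hfr t ht).2.1
      have k2 := hT3 t ⟨ht, h5⟩
      have e0 : D t = v t • y t - v t • γ t := by simp only [hD, smul_sub]
      have hX : dist (v t • y t) xre ≤ 1 / 100 := by
        have e3 : v t • y t - xre = (v t • γ t - xre) + D t := by rw [e0]; abel
        rw [dist_eq_norm, e3]
        refine (norm_add_le _ _).trans ?_
        refine le_trans ?_ (hρ1.trans (min_le_right _ _))
        rw [hρ]
        exact add_le_add k1 k2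
      exact ((far_xre.of_dist hX).mono (by norm_num)).rot (hvn t ht)
    · have h6 := hesc.1 (t - T + t1) (by linarith)
      have e1 : z (t - T + t1) = (rot t1 * v T) • y t := by
        simp only [hz]
        congr 2
        ring
      rw [e1] at h6
      exact h6.rot hrot1
  · have h6 := hesc.2 (21 + |R| / (24 / 100)) (by
      have : 0 ≤ |R| / (24 / 100) := by positivity
      linarith)
    have hnn : 0 ≤ |R| / (24 / 100) := by positivity
    refine ⟨21 + |R| / (24 / 100) - t1 + T, by linarith, ?_⟩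
    rw [hnz] at h6
    have e : (24 : ℝ) / 100 * (21 + |R| / (24 / 100) - 21) = |R| := by field_simp; ring
    rw [e] at h6
    have := le_abs_self R
    linarith

end Pool.Agent.T9h50.TB
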