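import Pool.Agent.T9h50.TB.Exit

/-!
# Euler relative equilibria for nearby masses
-/

set_option autoImplicit false

open scoped NNReal ComplexConjugate Topology
open Complex Set Filter

namespace Pool.Agent.T9h50.TB

noncomputable def gA (m : Fin 3 → ℝ) (x : ℝ) : ℝ := -(m 0 + m 1) / x ^ 2 - m 2 / (x + 2) ^ 2 + m 2 / 4
noncomputable def gB (m : Fin 3 → ℝ) (x : ℝ) : ℝ := m 0 / x ^ 2 - m 0 / (x + 2) ^ 2 - (m 1 + m 2) / 4
noncomputable def fE (m : Fin 3 → ℝ) (x : ℝ) : ℝ := 2 * gA m x - x * gB m x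

lemma nearM_iff {δ : ℝ} (hδ : 0 ≤ δ) (m : Fin 3 → ℝ) : NearM δ m ↔ dist m mh ≤ δ := by
  rw [dist_pi_le_iff hδ]
  simp only [NearM, Real.dist_eq]

lemma fE_mh (x : ℝ) (hx : 0 < x) : fE mh x * (57728 * (x ^ 2 * (x + 2) ^ 2)) =
    (x - 1) * (324576 + 661104 * x + 754200 * x ^ 2 + 293688 * x ^ 3 + 44640 * x ^ 4) := by
  rw [fE, gA, gB, mh0, mh1, mh2]
  field_simp
  ring

lemma fE_pos {x : ℝ} (hx : 1 < x) : 0 < fE mh x := by
  have hx0 : 0 < x := by linarith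
  have h := fE_mh x hx0
  have h1 : 0 < (x - 1) * (324576 + 661104 * x + 754200 * x ^ 2 + 293688 * x ^ 3 + 44640 * x ^ 4) := by
    have : 0 < x - 1 := by linarith
    positivity
  rw [← h] at h1
  have h2 : 0 < 57728 * (x ^ 2 * (x + 2) ^ 2) := by positivity
  exact (mul_pos_iff_of_pos_right h2).1 h1

lemma fE_neg {x : ℝ} (hx0 : 0 < x) (hx : x < 1) : fE mh x < 0 := by
  have h := fE_mh x hx0
  have h1 : (x - 1) * (324576 + 661104 * x + 754200 * x ^ 2 + 293688 * x ^ 3 + 44640 * x ^ 4) < 0 := by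
    have h3 : x - 1 < 0 := by linarith
    have h4 : 0 < 324576 + 661104 * x + 754200 * x ^ 2 + 293688 * x ^ 3 + 44640 * x ^ 4 := by positivity
    exact mul_neg_of_neg_of_pos h3 h4
  rw [← h] at h1
  have h2 : 0 < 57728 * (x ^ 2 * (x + 2) ^ 2) := by positivity
  by_contra hcon
  push Not at hcon
  have := mul_nonneg hcon h2.le
  linarith

lemma continuous_fE_mass (x : ℝ) : Continuous (fun m : Fin 3 → ℝ => fE m x) := by
  unfold fE gA gB
  fun_prop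

lemma continuousOn_fE (m : Fin 3 → ℝ) {a b : ℝ} (ha : 0 < a) : ContinuousOn (fE m) (Icc a b) := by
  have h : ∀ x ∈ Icc a b, x ^ 2 ≠ 0 ∧ (x + 2) ^ 2 ≠ 0 := by
    intro x hx
    have : 0 < x := ha.trans_le hx.1
    exact ⟨by positivity, by positivity⟩
  unfold fE gA gB
  have c1 : ContinuousOn (fun x : ℝ => x ^ 2) (Icc a b) := by fun_prop
  have c2 : ContinuousOn (fun x : ℝ => (x + 2) ^ 2) (Icc a b) := by fun_prop
  have d1 : ∀ c : ℝ, ContinuousOn (fun x : ℝ => c / x ^ 2) (Icc a b) := fun c =>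
    continuousOn_const.div c1 fun x hx => (h x hx).1
  have d2 : ∀ c : ℝ, ContinuousOn (fun x : ℝ => c / (x + 2) ^ 2) (Icc a b) := fun c =>
    continuousOn_const.div c2 fun x hx => (h x hx).2
  exact (continuousOn_const.mul (((d1 _).sub (d2 _)).add continuousOn_const)).sub
    (continuousOn_id.mul (((d1 _).sub (d2 _)).sub continuousOn_const))

lemma exists_root {κ : ℝ} (hκ : 0 < κ) : ∃ δ : ℝ, 0 < δ ∧ ∀ m : Fin 3 → ℝ, NearM δ m →
    ∃ x w : ℝ, |x - 1| ≤ κ ∧ 0 < w ∧ |w - om| ≤ κ ∧ gA m x = -(w ^ 2 * x) ∧ gB m x = -(w ^ 2 * 2) := by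
  -- the frequency is continuous
  have hg1 : gB mh 1 = -(8 / 11) := by rw [gB, mh0, mh1, mh2]; norm_num
  have hcont : ContinuousAt (fun p : (Fin 3 → ℝ) × ℝ => Real.sqrt (-(gB p.1 p.2) / 2)) (mh, 1) := by
    unfold gB
    have c1 : ContinuousAt (fun p : (Fin 3 → ℝ) × ℝ => p.2 ^ 2) (mh, 1) := by fun_prop
    have c2 : ContinuousAt (fun p : (Fin 3 → ℝ) × ℝ => (p.2 + 2) ^ 2) (mh, 1) := by fun_prop
    have c3 : ContinuousAt (fun p : (Fin 3 → ℝ) × ℝ => p.1 0) (mh, 1) := by fun_prop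
    have c4 : ContinuousAt (fun p : (Fin 3 → ℝ) × ℝ => (p.1 1 + p.1 2) / 4) (mh, 1) := by fun_prop
    exact (((((c3.div c1 (by norm_num)).sub (c3.div c2 (by norm_num))).sub c4).neg).div_const 2).sqrt
  have hval : Real.sqrt (-(gB mh 1) / 2) = om := by rw [hg1, om]; congr 1; norm_num
  have hom := om_pos
  obtain ⟨δ0, hδ0, h0⟩ := Metric.continuousAt_iff.1 hcont (min κ om) (lt_min hκ hom)
  simp only [hval] at h0
  set τ : ℝ := min (min κ (1 / 2)) (δ0 / 2) with hτ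
  have hτ0 : 0 < τ := lt_min (lt_min hκ (by norm_num)) (by linarith)
  have hτκ : τ ≤ κ := (min_le_left _ _).trans (min_le_left _ _)
  have hτ2 : τ ≤ 1 / 2 := (min_le_left _ _).trans (min_le_right _ _)
  have hτδ : τ < δ0 := lt_of_le_of_lt (min_le_right _ _) (by linarith)
  have p1 : ∀ᶠ m in 𝓝 mh, 0 < fE m (1 + τ) :=
    (continuous_fE_mass _).continuousAt.eventually_const_lt (fE_pos (by linarith))
  have p2 : ∀ᶠ m in 𝓝 mh, fE m (1 - τ) < 0 :=
    (continuous_fE_mass _).continuousAt.eventually_lt_const (fE_neg (by linarith) (by linarith))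
  obtain ⟨δ1, hδ1, h1⟩ := Metric.eventually_nhds_iff.1 (p1.and p2)
  refine ⟨min δ0 δ1 / 2, by have := lt_min hδ0 hδ1; linarith, fun m hm => ?_⟩
  have hmin := lt_min hδ0 hδ1
  have hd : dist m mh ≤ min δ0 δ1 / 2 := (nearM_iff (by linarith) m).1 hm
  have hd0 : dist m mh < δ0 := by have := min_le_left δ0 δ1; linarith
  have hd1 : dist m mh < δ1 := by have := min_le_right δ0 δ1; linarith
  obtain ⟨k1, k2⟩ := h1 hd1
  have hivt := intermediate_value_Icc (a := 1 - τ) (b := 1 + τ) (by linarith)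
    (continuousOn_fE m (by linarith : 0 < 1 - τ))
  obtain ⟨x, hx, hfx⟩ := hivt ⟨k2.le, k1.le⟩
  have hx1 : |x - 1| ≤ τ := by rw [abs_le]; constructor <;> linarith [hx.1, hx.2]
  have hdist : dist ((m, x) : (Fin 3 → ℝ) × ℝ) (mh, 1) < δ0 := by
    rw [Prod.dist_eq]
    refine max_lt hd0 ?_
    rw [Real.dist_eq]
    exact lt_of_le_of_lt hx1 hτδ
  have hw := h0 hdist
  simp only [Real.dist_eq] at hw
  set w := Real.sqrt (-(gB m x) / 2) with hwdef
  have hw1 : |w - om| < κ := lt_of_lt_of_le hw (min_le_left _ _)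
  have hw2 : |w - om| < om := lt_of_lt_of_le hw (min_le_right _ _)
  have hw0 : 0 < w := by linarith [(abs_lt.1 hw2).1]
  have hsq : w ^ 2 = -(gB m x) / 2 := Real.sq_sqrt (Real.sqrt_pos.1 hw0).le
  refine ⟨x, w, hx1.trans hτκ, hw0, hw1.le, ?_, ?_⟩
  · rw [hsq]
    rw [fE] at hfx
    linarith
  · rw [hsq]; ring

/-- the relative equilibrium in relative coordinates -/
noncomputable def yr (x w : ℝ) : E := (x, 2, sg⁻¹ • (I * w * x), sg⁻¹ • (2 * (I * w)))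

lemma far_yr {x w : ℝ} (hx : |x - 1| ≤ 1 / 20) : Far 0 (yr x w) := by
  obtain ⟨h1, h2⟩ := abs_le.1 hx
  have e1 : ‖((x : ℝ) : ℂ)‖ = x := by rw [Complex.norm_real, Real.norm_of_nonneg (by linarith)]
  have e2 : ‖((x : ℝ) : ℂ) + 2‖ = x + 2 := by
    have : ((x : ℝ) : ℂ) + 2 = ((x + 2 : ℝ) : ℂ) := by push_cast; ring
    rw [this, Complex.norm_real, Real.norm_of_nonneg (by linarith)]
  refine ⟨?_, ?_, ?_⟩
  · show dA + 0 ≤ ‖((x : ℝ) : ℂ)‖
    rw [e1]; unfold dA; linarith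
  · show dC + 0 ≤ ‖((x : ℝ) : ℂ) + 2‖
    rw [e2]; unfold dC; linarith
  · show dB + 0 ≤ ‖(2 : ℂ)‖
    rw [Complex.norm_two]; unfold dB; norm_num

lemma kd_real {d r : ℝ} (hd : 0 < d) (hr : d ≤ r) : kd d (r : ℂ) = ((1 / r ^ 2 : ℝ) : ℂ) := by
  have hr0 : 0 < r := hd.trans_le hr
  have e1 : ‖(r : ℂ)‖ = r := by rw [Complex.norm_real, Real.norm_of_nonneg hr0.le]
  rw [kd_eq (by rw [e1]; exact hr), e1, Complex.real_smul, ← Complex.ofReal_mul]
  congr 1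
  field_simp

lemma fld_yr {m : Fin 3 → ℝ} {x w : ℝ} (hx : |x - 1| ≤ 1 / 20) (hA : gA m x = -(w ^ 2 * x))
    (hB : gB m x = -(w ^ 2 * 2)) : fld m (yr x w) = (I * w) • yr x w := by
  obtain ⟨h1, h2⟩ := abs_le.1 hx
  have kA : kd dA (x : ℂ) = ((1 / x ^ 2 : ℝ) : ℂ) := kd_real dA_pos (by unfold dA; linarith)
  have kB : kd dB (2 : ℂ) = ((1 / 2 ^ 2 : ℝ) : ℂ) := by
    have := kd_real (r := 2) dB_pos (by unfold dB; norm_num)
    simpa using this
  have kC : kd dC ((x : ℂ) + 2) = ((1 / (x + 2) ^ 2 : ℝ) : ℂ) := by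
    have e : (x : ℂ) + 2 = ((x + 2 : ℝ) : ℂ) := by push_cast; ring
    rw [e]
    exact kd_real dC_pos (by unfold dC; linarith)
  have fA : FA m (x : ℂ) 2 = ((-(w ^ 2 * x) : ℝ) : ℂ) := by
    rw [FA, kA, kB, kC, ← hA, gA]
    simp only [Complex.real_smul]
    push_cast
    ring
  have fB : FB m (x : ℂ) 2 = ((-(w ^ 2 * 2) : ℝ) : ℂ) := by
    rw [FB, kA, kB, kC, ← hB, gB]
    simp only [Complex.real_smul]
    push_cast
    ring
  have hI : ∀ z : ℂ, I * w * (I * w * z) = ((-(w ^ 2) : ℝ) : ℂ) * z := fun z => by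
    have : I * w * (I * w * z) = (I * I) * (w * w) * z := by ring
    rw [this, I_mul_I]; push_cast; ring
  have hsg := sg_pos.ne'
  refine Prod.ext ?_ (Prod.ext ?_ (Prod.ext ?_ ?_))
  · show sg • (sg⁻¹ • (I * w * x)) = I * w * x
    rw [smul_smul, mul_inv_cancel₀ hsg, one_smul]
  · show sg • (sg⁻¹ • (2 * (I * w))) = I * w * 2
    rw [smul_smul, mul_inv_cancel₀ hsg, one_smul]; ring
  · show sg⁻¹ • FA m (x : ℂ) 2 = I * w * (sg⁻¹ • (I * w * x))
    rw [fA, mul_smul_comm, hI]; congr 1; push_cast; ring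
  · show sg⁻¹ • FB m (x : ℂ) 2 = I * w * (sg⁻¹ • (2 * (I * w)))
    have e : 2 * (I * (w : ℂ)) = I * w * 2 := by ring
    rw [fB, e, mul_smul_comm, hI]; congr 1; push_cast; ring

/-- the rotation with the angular velocity `w` -/
noncomputable def rw' (w t : ℝ) : ℂ := Complex.exp ((w * t : ℝ) * I)

lemma norm_rw (w t : ℝ) : ‖rw' w t‖ = 1 := by rw [rw', Complex.norm_exp_ofReal_mul_I]

lemma hasDerivAt_rw (w t : ℝ) : HasDerivAt (rw' w) (I * w * rw' w t) t := by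
  have h1 : HasDerivAt (fun t : ℝ => ((w * t : ℝ) : ℂ) * I) (((w * 1 : ℝ) : ℂ) * I) t :=
    (((hasDerivAt_id t).const_mul w).ofReal_comp).mul_const I
  refine h1.cexp.congr_deriv ?_
  rw [rw']; push_cast; ring

lemma rel_sol {m : Fin 3 → ℝ} {x w : ℝ} (hx : |x - 1| ≤ 1 / 20) (hA : gA m x = -(w ^ 2 * x))
    (hB : gB m x = -(w ^ 2 * 2)) (t : ℝ) :
    HasDerivAt (fun t => rw' w t • yr x w) (fld m (rw' w t • yr x w)) t := by
  rw [fld_rot m (norm_rw w t), fld_yr hx hA hB]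
  refine ((hasDerivAt_rw w t).smul_const (yr x w)).congr_deriv ?_
  rw [smul_smul]; congr 1; ring

lemma yr_near {x w κ : ℝ} (hx : |x - 1| ≤ κ) (hx2 : |x - 1| ≤ 1 / 20) (hw : |w - om| ≤ κ) :
    ‖yr x w - xre‖ ≤ 3 * κ := by
  have hκ : 0 ≤ κ := (abs_nonneg _).trans hx
  have ho := om_pos
  have ho1 := om_lt
  have hs' : ∀ z : ℂ, ‖z‖ ≤ 3 * κ → ‖sg⁻¹ • z‖ ≤ 3 * κ := fun z hz => by
    rw [norm_smul, Real.norm_of_nonneg (inv_pos.2 sg_pos).le, sg]
    norm_num at hz ⊢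
    linarith
  obtain ⟨h1, h2⟩ := abs_le.1 hx2
  rw [Prod.norm_def, Prod.norm_def, Prod.norm_def]
  refine max_le ?_ (max_le ?_ (max_le ?_ ?_))
  · show ‖(x : ℂ) - 1‖ ≤ _
    have : (x : ℂ) - 1 = ((x - 1 : ℝ) : ℂ) := by push_cast; ring
    rw [this, Complex.norm_real, Real.norm_eq_abs]; linarith
  · show ‖(2 : ℂ) - 2‖ ≤ _
    rw [sub_self, norm_zero]; positivity
  · show ‖sg⁻¹ • (I * w * x) - sg⁻¹ • (I * om)‖ ≤ _
    rw [← smul_sub]
    apply hs'
    have e : I * (w : ℂ) * x - I * om = I * (((w - om) * x + om * (x - 1) : ℝ) : ℂ) := by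
      push_cast; ring
    rw [e, norm_mul, Complex.norm_I, one_mul, Complex.norm_real, Real.norm_eq_abs]
    refine (abs_add_le _ _).trans ?_
    rw [abs_mul, abs_mul, abs_of_pos ho, abs_of_pos (by linarith : 0 < x)]
    have k1 : |w - om| * x ≤ κ * 2 := mul_le_mul hw (by linarith) (by linarith) hκ
    have k2 : om * |x - 1| ≤ 1 * κ := mul_le_mul ho1.le hx (abs_nonneg _) (by norm_num)
    linarith
  · show ‖sg⁻¹ • (2 * (I * w)) - sg⁻¹ • (2 * (I * om))‖ ≤ _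
    rw [← smul_sub]
    apply hs'
    have e : 2 * (I * (w : ℂ)) - 2 * (I * om) = I * ((2 * (w - om) : ℝ) : ℂ) := by push_cast; ring
    rw [e, norm_mul, Complex.norm_I, one_mul, Complex.norm_real, Real.norm_eq_abs, abs_mul]
    norm_num
    linarith

end Pool.Agent.T9h50.TB
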