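import Mathlib

/-!
# Global solutions of Lipschitz vector fields (forward in time)
-/

set_option autoImplicit false

open scoped NNReal Topology
open Set Metric Filter

namespace Pool.Agent.T9h50.TB

variable {F : Type*} [NormedAddCommGroup F] [NormedSpace ℝ F] [CompleteSpace F]

/-- local solutions on an interval whose length does not depend on the initial value -/
lemma local_sol (W : F → F) (K : ℝ≥0) (hK : LipschitzWith K W) (x₀ : F) :
    ∃ α : ℝ → F, α 0 = x₀ ∧ ∀ t ∈ Ioo (-(1 / ((K : ℝ) + 1))) (1 / ((K : ℝ) + 1)),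
      HasDerivAt α (W (α t)) t := by
  set τ : ℝ := 1 / ((K : ℝ) + 1) with hτ
  have hK0 : (0 : ℝ) < (K : ℝ) + 1 := by positivity
  have hτ0 : 0 < τ := by positivity
  have h0 : (0 : ℝ) ∈ Icc (-τ) τ := ⟨by linarith, hτ0.le⟩
  set a : ℝ≥0 := ‖W x₀‖₊ + 1 with ha
  set L : ℝ≥0 := ‖W x₀‖₊ + K * a with hL
  have hpl : IsPicardLindelof (fun _ => W) (⟨0, h0⟩ : Icc (-τ) τ) x₀ a 0 L K := by
    apply IsPicardLindelof.of_time_independent
    · intro x hx
      have h1 : ‖W x‖ ≤ ‖W x₀‖ + K * ‖x - x₀‖ := by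
        calc ‖W x‖ = ‖W x₀ + (W x - W x₀)‖ := by congr 1; abel
          _ ≤ ‖W x₀‖ + ‖W x - W x₀‖ := norm_add_le _ _
          _ ≤ ‖W x₀‖ + K * ‖x - x₀‖ := by
            gcongr
            have := hK.dist_le_mul x x₀
            rwa [dist_eq_norm, dist_eq_norm] at this
      have h2 : ‖x - x₀‖ ≤ a := by
        rw [mem_closedBall, dist_eq_norm] at hx
        exact hx
      calc ‖W x‖ ≤ ‖W x₀‖ + K * ‖x - x₀‖ := h1
        _ ≤ ‖W x₀‖ + K * a := by gcongr
        _ = L := by rw [hL]; simp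
    · exact hK.lipschitzOnWith
    · have e : max (τ - ((⟨0, h0⟩ : Icc (-τ) τ) : ℝ)) (((⟨0, h0⟩ : Icc (-τ) τ) : ℝ) - (-τ)) = τ := by
        simp
      rw [e]
      have h1 : (L : ℝ) ≤ ((K : ℝ) + 1) * a := by
        rw [hL]; push_cast
        have : (‖W x₀‖ : ℝ) ≤ a := by rw [ha]; push_cast; simp
        nlinarith
      calc (L : ℝ) * τ ≤ ((K : ℝ) + 1) * a * τ := by gcongr
        _ = (a : ℝ) - ((0 : ℝ≥0) : ℝ) := by rw [hτ]; push_cast; field_simp; ring
  obtain ⟨α, h1, h2⟩ := hpl.exists_eq_forall_mem_Icc_hasDerivWithinAt₀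
  refine ⟨α, h1, fun t ht => ?_⟩
  exact (h2 t (Ioo_subset_Icc_self ht)).hasDerivAt (Icc_mem_nhds ht.1 ht.2)

/-- Lipschitz vector fields have global forward solutions. -/
theorem exists_forward (W : F → F) (K : ℝ≥0) (hK : LipschitzWith K W) (x₀ : F) :
    ∃ α : ℝ → F, α 0 = x₀ ∧ ∀ t, 0 ≤ t → HasDerivAt α (W (α t)) t := by
  choose φ hφ0 hφ using local_sol W K hK
  set T : ℝ := 1 / ((K : ℝ) + 1) with hT
  have hT0 : 0 < T := by positivity
  set τ : ℝ := T / 2 with hτ
  have hτ0 : 0 < τ := by positivity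
  let X : ℕ → F := fun n => Nat.rec x₀ (fun _ x => φ x τ) n
  have hX : ∀ n, X (n + 1) = φ (X n) τ := fun n => rfl
  have hover : ∀ n : ℕ, ∀ s ∈ Ioo (-τ) T, φ (X (n + 1)) (s - τ) = φ (X n) s := by
    intro n s hs
    have h0 : τ ∈ Ioo (-τ) T := ⟨by linarith, by rw [hτ]; linarith⟩
    have := ODE_solution_unique_of_mem_Ioo (v := fun _ => W) (s := fun _ => univ) (K := K)
      (f := fun s => φ (X (n + 1)) (s - τ)) (g := φ (X n)) (a := -τ) (b := T) (t₀ := τ)
      (fun t _ => hK.lipschitzOnWith) h0 (fun t ht => ⟨?_, mem_univ _⟩)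
      (fun t ht => ⟨hφ (X n) t ⟨by linarith [ht.1, hτ], ht.2⟩, mem_univ _⟩)
      (by simp only [sub_self]; rw [hφ0, hX])
    · exact this hs
    · have h3 := hφ (X (n + 1)) (t - τ) ⟨by linarith [ht.1, hτ], by linarith [ht.2]⟩
      exact h3.comp_sub_const t τ
  refine ⟨fun t => φ (X ⌊t / τ⌋₊) (t - ⌊t / τ⌋₊ * τ), ?_, fun t ht => ?_⟩
  · simp [hφ0, X]
  · set n := ⌊t / τ⌋₊ with hn
    have hn1 : (n : ℝ) * τ ≤ t := by
      have := Nat.floor_le (div_nonneg ht hτ0.le)
      rwa [le_div_iff₀ hτ0] at this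
    have hn2 : t < (n + 1 : ℝ) * τ := by
      have := Nat.lt_floor_add_one (t / τ)
      rwa [div_lt_iff₀ hτ0] at this
    have hev : (fun t => φ (X ⌊t / τ⌋₊) (t - ⌊t / τ⌋₊ * τ)) =ᶠ[𝓝 t]
        fun t => φ (X n) (t - n * τ) := by
      have h1 : ∀ᶠ s in 𝓝 t, s ∈ Ioo ((n : ℝ) * τ - τ) ((n + 1 : ℝ) * τ) :=
        Ioo_mem_nhds (by linarith) hn2
      filter_upwards [h1] with s hs
      rcases le_or_gt ((n : ℝ) * τ) s with h | h
      · have : ⌊s / τ⌋₊ = n := by
          rw [Nat.floor_eq_iff (div_nonneg (le_trans (by positivity) h) hτ0.le)]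
          constructor
          · rwa [le_div_iff₀ hτ0]
          · rw [div_lt_iff₀ hτ0]; exact hs.2
        rw [this]
      · cases hcn : n with
        | zero =>
          have : ⌊s / τ⌋₊ = 0 := by
            apply Nat.floor_eq_zero.2
            rw [div_lt_iff₀ hτ0]
            rw [hcn] at h
            simp at h
            linarith
          rw [this]
        | succ k =>
          rw [hcn] at h hs
          push_cast at h hs
          have hk : ⌊s / τ⌋₊ = k := by
            have hs0 : 0 ≤ s := by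
              have : 0 ≤ (k : ℝ) * τ := by positivity
              nlinarith [hs.1]
            rw [Nat.floor_eq_iff (div_nonneg hs0 hτ0.le)]
            constructor
            · rw [le_div_iff₀ hτ0]; linarith [hs.1]
            · rw [div_lt_iff₀ hτ0]; exact h
          rw [hk]
          have := hover k (s - k * τ) ⟨by linarith [hs.1], by linarith [hτ]⟩
          rw [← this]
          congr 1
          push_cast
          ring
    have h5 : HasDerivAt (fun t => φ (X n) (t - n * τ)) (W (φ (X n) (t - n * τ))) t := by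
      have h6 := hφ (X n) (t - n * τ) ⟨by linarith, by linarith [hτ]⟩
      exact h6.comp_sub_const t _
    exact h5.congr_of_eventuallyEq hev

end Pool.Agent.T9h50.TB
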