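import Pool.Agent.T9h50.TB.Kern
import Pool.Agent.T9h50.TB.Glob

/-!
# The softened three-body vector field in relative coordinates

`a = q_1 - q_2`, `b = q_2 - q_3`, `p = a' / σ`, `q = b' / σ` with `σ = 37 / 20`.
-/

set_option autoImplicit false

open scoped NNReal ComplexConjugate
open Complex Set

namespace Pool.Agent.T9h50.TB

/-- the state space: `(a, b, a' / σ, b' / σ)` -/
abbrev E : Type := ℂ × ℂ × ℂ × ℂ

/-- the radii of the softening for `q_1 - q_2`, `q_1 - q_3` and `q_2 - q_3` -/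
noncomputable def dA : ℝ := 94 / 100
noncomputable def dC : ℝ := 29 / 10
noncomputable def dB : ℝ := 155 / 100

/-- the acceleration of `a` in the softened problem -/
noncomputable def FA (m : Fin 3 → ℝ) (a b : ℂ) : ℂ :=
  -((m 0 + m 1 : ℝ) • kd dA a) - (m 2 : ℝ) • kd dC (a + b) + (m 2 : ℝ) • kd dB b

/-- the acceleration of `b` in the softened problem -/
noncomputable def FB (m : Fin 3 → ℝ) (a b : ℂ) : ℂ :=
  (m 0 : ℝ) • kd dA a - (m 0 : ℝ) • kd dC (a + b) - (m 1 + m 2 : ℝ) • kd dB b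

/-- the weight of the velocities -/
noncomputable def sg : ℝ := 37 / 20

/-- the softened vector field -/
noncomputable def fld (m : Fin 3 → ℝ) (x : E) : E :=
  (sg • x.2.2.1, sg • x.2.2.2, sg⁻¹ • FA m x.1 x.2.1, sg⁻¹ • FB m x.1 x.2.1)

/-- the masses `83 : 1044 : 3916` -/
noncomputable def mh : Fin 3 → ℝ := ![747 / 14432, 9396 / 14432, 35244 / 14432]

lemma mh0 : mh 0 = 747 / 14432 := rfl
lemma mh1 : mh 1 = 9396 / 14432 := rfl
lemma mh2 : mh 2 = 35244 / 14432 := rfl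

/-- the masses differ from `mh` by at most `ε` -/
def NearM (ε : ℝ) (m : Fin 3 → ℝ) : Prop := ∀ i, |m i - mh i| ≤ ε

lemma NearM.mono {ε ε' : ℝ} {m : Fin 3 → ℝ} (h : NearM ε m) (hε : ε ≤ ε') : NearM ε' m :=
  fun i => (h i).trans hε

lemma dA_pos : 0 < dA := by norm_num [dA]
lemma dB_pos : 0 < dB := by norm_num [dB]
lemma dC_pos : 0 < dC := by norm_num [dC]
lemma sg_pos : 0 < sg := by norm_num [sg]

lemma FA_lip {m : Fin 3 → ℝ} (h0 : 0 ≤ m 0) (h1 : 0 ≤ m 1) (h2 : 0 ≤ m 2) (a b a' b' : ℂ) {r : ℝ}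
    (ha : ‖a - a'‖ ≤ r) (hb : ‖b - b'‖ ≤ r) :
    ‖FA m a b - FA m a' b'‖ ≤
      ((m 0 + m 1) * (2 / dA ^ 3) + m 2 * (2 / dC ^ 3) * 2 + m 2 * (2 / dB ^ 3)) * r := by
  have hr : 0 ≤ r := (norm_nonneg _).trans ha
  have e : FA m a b - FA m a' b' = -((m 0 + m 1 : ℝ) • (kd dA a - kd dA a')) -
      (m 2 : ℝ) • (kd dC (a + b) - kd dC (a' + b')) + (m 2 : ℝ) • (kd dB b - kd dB b') := by
    simp only [FA, smul_sub]; abel
  have hA := kd_lip dA_pos a a'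
  have hC := kd_lip dC_pos (a + b) (a' + b')
  have hB := kd_lip dB_pos b b'
  have hab : ‖a + b - (a' + b')‖ ≤ 2 * r := by
    have : a + b - (a' + b') = (a - a') + (b - b') := by ring
    rw [this]
    exact (norm_add_le _ _).trans (by linarith)
  have pA : 0 < dA ^ 3 := by have := dA_pos; positivity
  have pB : 0 < dB ^ 3 := by have := dB_pos; positivity
  have pC : 0 < dC ^ 3 := by have := dC_pos; positivity
  rw [e]
  calc _ ≤ ‖(m 0 + m 1 : ℝ) • (kd dA a - kd dA a')‖ + ‖(m 2 : ℝ) • (kd dC (a + b) - kd dC (a' + b'))‖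
        + ‖(m 2 : ℝ) • (kd dB b - kd dB b')‖ := by
        refine (norm_add_le _ _).trans ?_
        gcongr
        refine (norm_sub_le _ _).trans ?_
        rw [norm_neg]
    _ = (m 0 + m 1) * ‖kd dA a - kd dA a'‖ + m 2 * ‖kd dC (a + b) - kd dC (a' + b')‖
        + m 2 * ‖kd dB b - kd dB b'‖ := by
        rw [norm_smul, norm_smul, norm_smul, Real.norm_of_nonneg (by linarith),
          Real.norm_of_nonneg h2]
    _ ≤ (m 0 + m 1) * (2 / dA ^ 3 * r) + m 2 * (2 / dC ^ 3 * (2 * r)) + m 2 * (2 / dB ^ 3 * r) := by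
        gcongr
        · exact hA.trans (by gcongr)
        · exact hC.trans (by gcongr)
        · exact hB.trans (by gcongr)
    _ = _ := by ring

lemma FB_lip {m : Fin 3 → ℝ} (h0 : 0 ≤ m 0) (h1 : 0 ≤ m 1) (h2 : 0 ≤ m 2) (a b a' b' : ℂ) {r : ℝ}
    (ha : ‖a - a'‖ ≤ r) (hb : ‖b - b'‖ ≤ r) :
    ‖FB m a b - FB m a' b'‖ ≤
      (m 0 * (2 / dA ^ 3) + m 0 * (2 / dC ^ 3) * 2 + (m 1 + m 2) * (2 / dB ^ 3)) * r := by
  have hr : 0 ≤ r := (norm_nonneg _).trans ha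
  have e : FB m a b - FB m a' b' = (m 0 : ℝ) • (kd dA a - kd dA a') -
      (m 0 : ℝ) • (kd dC (a + b) - kd dC (a' + b')) - (m 1 + m 2 : ℝ) • (kd dB b - kd dB b') := by
    simp only [FB, smul_sub]; abel
  have hA := kd_lip dA_pos a a'
  have hC := kd_lip dC_pos (a + b) (a' + b')
  have hB := kd_lip dB_pos b b'
  have hab : ‖a + b - (a' + b')‖ ≤ 2 * r := by
    have : a + b - (a' + b') = (a - a') + (b - b') := by ring
    rw [this]
    exact (norm_add_le _ _).trans (by linarith)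
  have pA : 0 < dA ^ 3 := by have := dA_pos; positivity
  have pB : 0 < dB ^ 3 := by have := dB_pos; positivity
  have pC : 0 < dC ^ 3 := by have := dC_pos; positivity
  rw [e]
  calc _ ≤ ‖(m 0 : ℝ) • (kd dA a - kd dA a')‖ + ‖(m 0 : ℝ) • (kd dC (a + b) - kd dC (a' + b'))‖
        + ‖(m 1 + m 2 : ℝ) • (kd dB b - kd dB b')‖ := by
        refine (norm_sub_le _ _).trans ?_
        gcongr
        exact norm_sub_le _ _
    _ = m 0 * ‖kd dA a - kd dA a'‖ + m 0 * ‖kd dC (a + b) - kd dC (a' + b')‖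
        + (m 1 + m 2) * ‖kd dB b - kd dB b'‖ := by
        rw [norm_smul, norm_smul, norm_smul, Real.norm_of_nonneg h0,
          Real.norm_of_nonneg (by linarith : 0 ≤ m 1 + m 2)]
    _ ≤ m 0 * (2 / dA ^ 3 * r) + m 0 * (2 / dC ^ 3 * (2 * r)) + (m 1 + m 2) * (2 / dB ^ 3 * r) := by
        gcongr
        · exact hA.trans (by gcongr)
        · exact hC.trans (by gcongr)
        · exact hB.trans (by gcongr)
    _ = _ := by ring

lemma NearM.bounds {m : Fin 3 → ℝ} (hm : NearM (1 / 10 ^ 6) m) :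
    (0.05175 ≤ m 0 ∧ m 0 ≤ 0.05177) ∧ (0.65105 ≤ m 1 ∧ m 1 ≤ 0.65106) ∧
      (2.44207 ≤ m 2 ∧ m 2 ≤ 2.44208) := by
  have h0 := abs_le.1 (hm 0)
  have h1 := abs_le.1 (hm 1)
  have h2 := abs_le.1 (hm 2)
  rw [mh0] at h0
  rw [mh1] at h1
  rw [mh2] at h2
  refine ⟨⟨?_, ?_⟩, ⟨?_, ?_⟩, ⟨?_, ?_⟩⟩
  · norm_num at h0 ⊢; linarith [h0.1]
  · norm_num at h0 ⊢; linarith [h0.2]
  · norm_num at h1 ⊢; linarith [h1.1]
  · norm_num at h1 ⊢; linarith [h1.2]
  · norm_num at h2 ⊢; linarith [h2.1]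
  · norm_num at h2 ⊢; linarith [h2.2]

/-- the softened vector field is Lipschitz with the constant `37 / 20` -/
theorem fld_lip {m : Fin 3 → ℝ} (hm : NearM (1 / 10 ^ 6) m) : LipschitzWith (37 / 20 : ℝ≥0) (fld m) := by
  obtain ⟨⟨h0, h0'⟩, ⟨h1, h1'⟩, ⟨h2, h2'⟩⟩ := hm.bounds
  apply LipschitzWith.of_dist_le_mul
  intro x y
  rw [dist_eq_norm, dist_eq_norm]
  set r := ‖x - y‖ with hr
  have hr0 : 0 ≤ r := norm_nonneg _
  have n1 : ‖x.1 - y.1‖ ≤ r := norm_fst_le (x - y)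
  have n2 : ‖x.2.1 - y.2.1‖ ≤ r := (norm_fst_le (x - y).2).trans (norm_snd_le (x - y))
  have n3 : ‖x.2.2.1 - y.2.2.1‖ ≤ r :=
    (norm_fst_le (x - y).2.2).trans ((norm_snd_le (x - y).2).trans (norm_snd_le (x - y)))
  have n4 : ‖x.2.2.2 - y.2.2.2‖ ≤ r :=
    (norm_snd_le (x - y).2.2).trans ((norm_snd_le (x - y).2).trans (norm_snd_le (x - y)))
  have cs : ((37 / 20 : ℝ≥0) : ℝ) = 37 / 20 := by norm_num
  rw [cs]
  have hA := FA_lip (m := m) (by linarith) (by linarith) (by linarith) x.1 x.2.1 y.1 y.2.1 n1 n2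
  have hB := FB_lip (m := m) (by linarith) (by linarith) (by linarith) x.1 x.2.1 y.1 y.2.1 n1 n2
  have kA : (m 0 + m 1) * (2 / dA ^ 3) + m 2 * (2 / dC ^ 3) * 2 + m 2 * (2 / dB ^ 3) ≤ 1369 / 400 := by
    simp only [dA, dB, dC]
    norm_num at h0' h1' h2' ⊢
    linarith
  have kB : m 0 * (2 / dA ^ 3) + m 0 * (2 / dC ^ 3) * 2 + (m 1 + m 2) * (2 / dB ^ 3) ≤ 1369 / 400 := by
    simp only [dA, dB, dC]
    norm_num at h0' h1' h2' ⊢
    linarith
  have hA' : ‖FA m x.1 x.2.1 - FA m y.1 y.2.1‖ ≤ 1369 / 400 * r := hA.trans (by gcongr)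
  have hB' : ‖FB m x.1 x.2.1 - FB m y.1 y.2.1‖ ≤ 1369 / 400 * r := hB.trans (by gcongr)
  have hs : ∀ z : ℂ, ‖sg • z‖ = 37 / 20 * ‖z‖ := fun z => by
    rw [norm_smul, Real.norm_of_nonneg sg_pos.le, sg]
  have hs' : ∀ z : ℂ, ‖sg⁻¹ • z‖ = 20 / 37 * ‖z‖ := fun z => by
    rw [norm_smul, Real.norm_of_nonneg (inv_pos.2 sg_pos).le, sg]; norm_num
  rw [Prod.norm_def, Prod.norm_def, Prod.norm_def]
  simp only [fld, Prod.fst_sub, Prod.snd_sub, ← smul_sub, hs, hs']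
  refine max_le ?_ (max_le ?_ (max_le ?_ ?_))
  · gcongr
  · gcongr
  · linarith
  · linarith

end Pool.Agent.T9h50.TB
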