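import Pool.Agent.T9h50.TB.Fam

/-!
# Phase space: solutions near Euler relative equilibria are limits of unbounded solutions
-/

set_option autoImplicit false

open scoped NNReal ComplexConjugate Topology
open Complex Set Filter

namespace Pool.Agent.T9h50.TB

/-- the phase point `w` is `ε`-close to a rotation of `z` (relative positions and velocities) -/
def Near (ε : ℝ) (z w : Ph) : Prop := ∃ u : ℂ, ‖u‖ = 1 ∧ ∀ a b,
  ‖(w.1 a - w.1 b) - u * (z.1 a - z.1 b)‖ ≤ ε ∧ ‖(w.2 a - w.2 b) - u * (z.2 a - z.2 b)‖ ≤ ε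

lemma near_rel {ε : ℝ} {z w : Ph} (h : Near ε z w) : ∃ u : ℂ, ‖u‖ = 1 ∧ ‖rel w - u • rel z‖ ≤ ε := by
  obtain ⟨u, hu, hh⟩ := h
  have hε : 0 ≤ ε := (norm_nonneg _).trans (hh 0 1).1
  have hs' : ∀ z : ℂ, ‖z‖ ≤ ε → ‖sg⁻¹ • z‖ ≤ ε := fun z hz => by
    rw [norm_smul, Real.norm_of_nonneg (inv_pos.2 sg_pos).le, sg]
    norm_num at hz ⊢
    linarith
  refine ⟨u, hu, ?_⟩
  rw [Prod.norm_def, Prod.norm_def, Prod.norm_def]
  refine max_le ?_ (max_le ?_ (max_le ?_ ?_))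
  · exact (hh 0 1).1
  · exact (hh 1 2).1
  · show ‖sg⁻¹ • (w.2 0 - w.2 1) - u * (sg⁻¹ • (z.2 0 - z.2 1))‖ ≤ ε
    rw [mul_smul_comm, ← smul_sub]
    exact hs' _ (hh 0 1).2
  · show ‖sg⁻¹ • (w.2 1 - w.2 2) - u * (sg⁻¹ • (z.2 1 - z.2 2))‖ ≤ ε
    rw [mul_smul_comm, ← smul_sub]
    exact hs' _ (hh 1 2).2

/-- the relative coordinates as a linear map -/
noncomputable def relL : Ph →ₗ[ℝ] E where
  toFun := rel
  map_add' x y := by
    have c : ∀ z w : ℂ, sg⁻¹ • (z + w) = sg⁻¹ • z + sg⁻¹ • w := fun z w => smul_add _ _ _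
    refine Prod.ext ?_ (Prod.ext ?_ (Prod.ext ?_ ?_))
    · show (x.1 0 + y.1 0) - (x.1 1 + y.1 1) = (x.1 0 - x.1 1) + (y.1 0 - y.1 1); ring
    · show (x.1 1 + y.1 1) - (x.1 2 + y.1 2) = (x.1 1 - x.1 2) + (y.1 1 - y.1 2); ring
    · show sg⁻¹ • ((x.2 0 + y.2 0) - (x.2 1 + y.2 1)) = sg⁻¹ • (x.2 0 - x.2 1) + sg⁻¹ • (y.2 0 - y.2 1)
      rw [← c]; congr 1; ring
    · show sg⁻¹ • ((x.2 1 + y.2 1) - (x.2 2 + y.2 2)) = sg⁻¹ • (x.2 1 - x.2 2) + sg⁻¹ • (y.2 1 - y.2 2)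
      rw [← c]; congr 1; ring
  map_smul' r x := by
    refine Prod.ext ?_ (Prod.ext ?_ (Prod.ext ?_ ?_))
    · show r • x.1 0 - r • x.1 1 = r • (x.1 0 - x.1 1); rw [smul_sub]
    · show r • x.1 1 - r • x.1 2 = r • (x.1 1 - x.1 2); rw [smul_sub]
    · show sg⁻¹ • (r • x.2 0 - r • x.2 1) = r • (sg⁻¹ • (x.2 0 - x.2 1))
      rw [← smul_sub, smul_comm]
    · show sg⁻¹ • (r • x.2 1 - r • x.2 2) = r • (sg⁻¹ • (x.2 1 - x.2 2))
      rw [← smul_sub, smul_comm]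

noncomputable def relC : Ph →L[ℝ] E := LinearMap.toContinuousLinearMap relL

lemma relC_apply (z : Ph) : relC z = rel z := rfl

lemma fld_rel (m : Fin 3 → ℝ) {z : Ph} (hf : Far 0 (rel z)) : fld m (rel z) = rel (z.2, acc m z.1) := by
  obtain ⟨f1, f2, f3⟩ := hf
  rw [add_zero] at f1 f2 f3
  have r1 : (rel z).1 = z.1 0 - z.1 1 := rfl
  have r2 : (rel z).2.1 = z.1 1 - z.1 2 := rfl
  rw [r1] at f1
  rw [r1, r2] at f2
  rw [r2] at f3
  have hc : z.1 0 - z.1 1 + (z.1 1 - z.1 2) = z.1 0 - z.1 2 := by ring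
  rw [hc] at f2
  have hA : kd dA (z.1 0 - z.1 1) = ((‖z.1 0 - z.1 1‖ ^ 3)⁻¹ : ℝ) • (z.1 0 - z.1 1) := kd_eq f1
  have hB : kd dB (z.1 1 - z.1 2) = ((‖z.1 1 - z.1 2‖ ^ 3)⁻¹ : ℝ) • (z.1 1 - z.1 2) := kd_eq f3
  have hC : kd dC (z.1 0 - z.1 2) = ((‖z.1 0 - z.1 2‖ ^ 3)⁻¹ : ℝ) • (z.1 0 - z.1 2) := kd_eq f2
  have s0 : (Finset.univ.erase (0 : Fin 3)) = {1, 2} := by decide
  have s1 : (Finset.univ.erase (1 : Fin 3)) = {0, 2} := by decide
  have s2 : (Finset.univ.erase (2 : Fin 3)) = {0, 1} := by decide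
  have a0 : acc m z.1 0 = ((m 1 / ‖z.1 0 - z.1 1‖ ^ 3 : ℝ) : ℂ) * (z.1 1 - z.1 0) +
      ((m 2 / ‖z.1 0 - z.1 2‖ ^ 3 : ℝ) : ℂ) * (z.1 2 - z.1 0) := by
    rw [acc, s0, Finset.sum_pair (by decide), norm_sub_rev (z.1 1), norm_sub_rev (z.1 2)]
  have a1 : acc m z.1 1 = ((m 0 / ‖z.1 0 - z.1 1‖ ^ 3 : ℝ) : ℂ) * (z.1 0 - z.1 1) +
      ((m 2 / ‖z.1 1 - z.1 2‖ ^ 3 : ℝ) : ℂ) * (z.1 2 - z.1 1) := by
    rw [acc, s1, Finset.sum_pair (by decide), norm_sub_rev (z.1 2)]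
  have a2 : acc m z.1 2 = ((m 0 / ‖z.1 0 - z.1 2‖ ^ 3 : ℝ) : ℂ) * (z.1 0 - z.1 2) +
      ((m 1 / ‖z.1 1 - z.1 2‖ ^ 3 : ℝ) : ℂ) * (z.1 1 - z.1 2) := by
    rw [acc, s2, Finset.sum_pair (by decide)]
  have hsg : ∀ w : ℂ, sg • (sg⁻¹ • w) = w := fun w => by
    rw [smul_smul, mul_inv_cancel₀ sg_pos.ne', one_smul]
  refine Prod.ext ?_ (Prod.ext ?_ (Prod.ext ?_ ?_))
  · exact hsg _
  · exact hsg _
  · show sg⁻¹ • FA m (z.1 0 - z.1 1) (z.1 1 - z.1 2) = sg⁻¹ • (acc m z.1 0 - acc m z.1 1)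
    congr 1
    rw [FA, hc, hA, hB, hC, a0, a1]
    simp only [Complex.real_smul]
    push_cast
    ring
  · show sg⁻¹ • FB m (z.1 0 - z.1 1) (z.1 1 - z.1 2) = sg⁻¹ • (acc m z.1 1 - acc m z.1 2)
    congr 1
    rw [FB, hc, hA, hB, hC, a1, a2]
    simp only [Complex.real_smul]
    push_cast
    ring

/-- extension of a function with a one-sided derivative at `0` -/
lemma extend {y y' : ℝ → E} (h : ∀ t, 0 ≤ t → HasDerivWithinAt y (y' t) (Ici 0) t) :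
    ∃ z : ℝ → E, (∀ t, 0 ≤ t → z t = y t) ∧ ∀ t, 0 ≤ t → HasDerivAt z (y' t) t := by
  classical
  set z : ℝ → E := fun t => if 0 ≤ t then y t else y 0 + t • y' 0 with hz
  have hz1 : ∀ t, 0 ≤ t → z t = y t := fun t ht => by simp only [hz, if_pos ht]
  refine ⟨z, hz1, fun t ht => ?_⟩
  rcases lt_or_eq_of_le ht with h1 | h1
  · have h2 : HasDerivAt y (y' t) t := (h t ht).hasDerivAt (Ici_mem_nhds h1)
    refine h2.congr_of_eventuallyEq ?_
    filter_upwards [Ioi_mem_nhds h1] with s hs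
    exact hz1 s (le_of_lt hs)
  · rw [← h1]
    have h2 : HasDerivWithinAt z (y' 0) (Ici 0) 0 := by
      refine (h 0 le_rfl).congr (fun s hs => hz1 s hs) (hz1 0 le_rfl)
    have h3 : HasDerivWithinAt z (y' 0) (Iic 0) 0 := by
      have h4 : HasDerivAt (fun t : ℝ => y 0 + t • y' 0) (y' 0) 0 := by
        have := ((hasDerivAt_id (0 : ℝ)).smul_const (y' 0)).const_add (y 0)
        simpa using this
      refine h4.hasDerivWithinAt.congr (fun s hs => ?_) ?_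
      · rcases lt_or_eq_of_le (show s ≤ 0 from hs) with h5 | h5
        · simp only [hz, if_neg (not_le.2 h5)]
        · rw [h5, hz1 0 le_rfl]; simp
      · rw [hz1 0 le_rfl]; simp
    have h4 := h2.union h3
    rw [Ici_union_Iic, hasDerivWithinAt_univ] at h4
    exact h4

/-- rigid rotation of a collinear configuration -/
noncomputable def rigid (w : ℝ) (p : Fin 3 → ℝ) (t : ℝ) : Ph :=
  (fun a => Complex.exp ((w * t : ℝ) * I) * p a,
    fun a => I * w * (Complex.exp ((w * t : ℝ) * I) * p a))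

/-- the positions for the relative equilibrium -/
noncomputable def pm (m : Fin 3 → ℝ) (x : ℝ) : Fin 3 → ℝ :=
  ![(m 0 + m 1 + m 2)⁻¹ * (m 2 * 2 - m 0 * x) + x, (m 0 + m 1 + m 2)⁻¹ * (m 2 * 2 - m 0 * x),
    (m 0 + m 1 + m 2)⁻¹ * (m 2 * 2 - m 0 * x) - 2]

lemma rigid_eq (m : Fin 3 → ℝ) (x w t : ℝ) :
    rigid w (pm m x) t = emb m (0 + t • (0 : ℂ)) 0 (rw' w t • yr x w) := by
  have hsg : ∀ z : ℂ, sg • (rw' w t * (sg⁻¹ • z)) = rw' w t * z := fun z => by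
    rw [mul_smul_comm, smul_smul, mul_inv_cancel₀ sg_pos.ne', one_smul]
  have p1 : (rw' w t • yr x w).1 = rw' w t * x := rfl
  have p2 : (rw' w t • yr x w).2.1 = rw' w t * 2 := rfl
  have p3 : sg • (rw' w t • yr x w).2.2.1 = rw' w t * (I * w * x) := hsg _
  have p4 : sg • (rw' w t • yr x w).2.2.2 = rw' w t * (2 * (I * w)) := hsg _
  rw [emb, p1, p2, p3, p4, rigid]
  have e : Complex.exp ((w * t : ℝ) * I) = rw' w t := rfl
  rw [e]
  simp only [smul_zero, add_zero, zero_add, cm, Complex.real_smul]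
  refine Prod.ext ?_ ?_
  · funext i
    fin_cases i
    · show rw' w t * ((pm m x 0 : ℝ) : ℂ) = _
      have : pm m x 0 = (m 0 + m 1 + m 2)⁻¹ * (m 2 * 2 - m 0 * x) + x := rfl
      rw [this]
      simp only [Matrix.cons_val_zero, Fin.zero_eta]
      push_cast; ring
    · show rw' w t * ((pm m x 1 : ℝ) : ℂ) = _
      have : pm m x 1 = (m 0 + m 1 + m 2)⁻¹ * (m 2 * 2 - m 0 * x) := rfl
      rw [this]
      simp only [Matrix.cons_val_one, Matrix.cons_val_zero, Fin.mk_one]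
      push_cast; ring
    · show rw' w t * ((pm m x 2 : ℝ) : ℂ) = _
      have : pm m x 2 = (m 0 + m 1 + m 2)⁻¹ * (m 2 * 2 - m 0 * x) - 2 := rfl
      rw [this]
      show _ = ((m 0 + m 1 + m 2)⁻¹ : ℝ) * (((m 2 : ℝ) : ℂ) * (rw' w t * 2) -
        ((m 0 : ℝ) : ℂ) * (rw' w t * x)) - rw' w t * 2
      push_cast; ring
  · funext i
    fin_cases i
    · show I * w * (rw' w t * ((pm m x 0 : ℝ) : ℂ)) = _
      have : pm m x 0 = (m 0 + m 1 + m 2)⁻¹ * (m 2 * 2 - m 0 * x) + x := rfl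
      rw [this]
      simp only [Matrix.cons_val_zero, Fin.zero_eta]
      push_cast; ring
    · show I * w * (rw' w t * ((pm m x 1 : ℝ) : ℂ)) = _
      have : pm m x 1 = (m 0 + m 1 + m 2)⁻¹ * (m 2 * 2 - m 0 * x) := rfl
      rw [this]
      simp only [Matrix.cons_val_one, Matrix.cons_val_zero, Fin.mk_one]
      push_cast; ring
    · show I * w * (rw' w t * ((pm m x 2 : ℝ) : ℂ)) = _
      have : pm m x 2 = (m 0 + m 1 + m 2)⁻¹ * (m 2 * 2 - m 0 * x) - 2 := rfl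
      rw [this]
      show _ = ((m 0 + m 1 + m 2)⁻¹ : ℝ) * (((m 2 : ℝ) : ℂ) * (rw' w t * (2 * (I * w))) -
        ((m 0 : ℝ) : ℂ) * (rw' w t * (I * w * x))) - rw' w t * (2 * (I * w))
      push_cast; ring

lemma rel_emb (m : Fin 3 → ℝ) (c d : ℂ) (x : E) : rel (emb m c d x) = x := by
  have hsg : ∀ w : ℂ, sg⁻¹ • (sg • w) = w := fun w => by
    rw [smul_smul, inv_mul_cancel₀ sg_pos.ne', one_smul]
  refine Prod.ext ?_ (Prod.ext ?_ (Prod.ext ?_ ?_))
  · show (c + cm m x.1 x.2.1 + x.1) - (c + cm m x.1 x.2.1) = x.1; ring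
  · show (c + cm m x.1 x.2.1) - (c + cm m x.1 x.2.1 - x.2.1) = x.2.1; ring
  · show sg⁻¹ • ((d + cm m (sg • x.2.2.1) (sg • x.2.2.2) + sg • x.2.2.1) -
      (d + cm m (sg • x.2.2.1) (sg • x.2.2.2))) = x.2.2.1
    rw [add_sub_cancel_left]; exact hsg _
  · show sg⁻¹ • ((d + cm m (sg • x.2.2.1) (sg • x.2.2.2)) -
      (d + cm m (sg • x.2.2.1) (sg • x.2.2.2) - sg • x.2.2.2)) = x.2.2.2
    rw [sub_sub_cancel]; exact hsg _

/-- the positions of the explicit relative equilibrium -/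
noncomputable def posR : Fin 3 → ℝ := ![104 / 41, 63 / 41, -(19 / 41)]

lemma pm_mh : pm mh 1 = posR := by
  funext i
  fin_cases i
  · show (mh 0 + mh 1 + mh 2)⁻¹ * (mh 2 * 2 - mh 0 * 1) + 1 = 104 / 41
    rw [mh0, mh1, mh2]; norm_num
  · show (mh 0 + mh 1 + mh 2)⁻¹ * (mh 2 * 2 - mh 0 * 1) = 63 / 41
    rw [mh0, mh1, mh2]; norm_num
  · show (mh 0 + mh 1 + mh 2)⁻¹ * (mh 2 * 2 - mh 0 * 1) - 2 = -(19 / 41)
    rw [mh0, mh1, mh2]; norm_num

lemma gAB_mh : gA mh 1 = -(om ^ 2 * 1) ∧ gB mh 1 = -(om ^ 2 * 2) := by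
  have h : om ^ 2 = 4 / 11 := by rw [sq]; exact om_sq
  constructor
  · rw [gA, mh0, mh1, mh2, h]; norm_num
  · rw [gB, mh0, mh1, mh2, h]; norm_num

lemma rel_rigid (m : Fin 3 → ℝ) (x w : ℝ) : rel (rigid w (pm m x) 0) = yr x w := by
  rw [rigid_eq, rel_emb]
  have : rw' w 0 = 1 := by simp [rw']
  rw [this, one_smul]

lemma yr_one : yr 1 om = xre := by
  rw [yr, xre]
  simp

lemma rigid_sol {m : Fin 3 → ℝ} (hM : m 0 + m 1 + m 2 ≠ 0) {x0 w : ℝ} (hx20 : |x0 - 1| ≤ 1 / 20)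
    (hA : gA m x0 = -(w ^ 2 * x0)) (hB : gB m x0 = -(w ^ 2 * 2)) :
    IsSol m univ (rigid w (pm m x0)) := by
  intro t _
  have hfun : rigid w (pm m x0) = fun t => emb m (0 + t • (0 : ℂ)) 0 (rw' w t • yr x0 w) := by
    funext t; exact rigid_eq m x0 w t
  have hfar : Far 0 (rw' w t • yr x0 w) := by
    have hc : ‖conj (rw' w t)‖ = 1 := by rw [Complex.norm_conj, norm_rw]
    apply Far.rot hc
    have e : conj (rw' w t) • (rw' w t • yr x0 w) = yr x0 w := by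
      rw [smul_smul, mul_comm, Complex.mul_conj, Complex.normSq_eq_norm_sq, norm_rw]
      norm_num
    rw [e]
    exact far_yr hx20
  have h3 := newton_at hM (y := fun t => rw' w t • yr x0 w) (t := t) (rel_sol hx20 hA hB t) hfar 0 0
  rw [hfun]
  exact ⟨h3.1, h3.2.hasDerivWithinAt⟩

/-- closeness of the relative equilibria -/
lemma near_rigid (m : Fin 3 → ℝ) {x0 w ε : ℝ} (h1 : |x0 - 1| ≤ ε / 5) (hx20 : |x0 - 1| ≤ 1 / 20)
    (h2 : |w - om| ≤ ε / 5) : Near ε (rigid om posR 0) (rigid w (pm m x0) 0) := by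
  have hε : 0 ≤ ε := by have := (abs_nonneg _).trans h1; linarith
  have ho := om_pos
  have ho1 := om_lt
  have e0 : Complex.exp ((w * (0 : ℝ) : ℝ) * I) = 1 := by simp
  have e1 : Complex.exp ((om * (0 : ℝ) : ℝ) * I) = 1 := by simp
  have hsub : ∀ a b, (pm m x0 a - pm m x0 b) - (posR a - posR b) = (x0 - 1) * ((if a = 0 then 1 else 0) -
      (if b = 0 then 1 else 0)) := by
    intro a b
    have q0 : pm m x0 0 = pm m x0 1 + x0 := rfl
    have q2 : pm m x0 2 = pm m x0 1 - 2 := rfl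
    have r0 : posR 0 = 104 / 41 := rfl
    have r1 : posR 1 = 63 / 41 := rfl
    have r2 : posR 2 = -(19 / 41) := rfl
    fin_cases a <;> fin_cases b <;>
      simp [q0, q2, r0, r1, r2] <;> ring
  have hif : ∀ a b : Fin 3, |((if a = 0 then 1 else 0) - (if b = 0 then 1 else 0) : ℝ)| ≤ 1 := by
    intro a b
    split_ifs <;> norm_num
  have hpos : ∀ a b, |(pm m x0 a - pm m x0 b) - (posR a - posR b)| ≤ |x0 - 1| := by
    intro a b
    rw [hsub, abs_mul]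
    exact mul_le_of_le_one_right (abs_nonneg _) (hif a b)
  have hposR : ∀ a b, |posR a - posR b| ≤ 3 := by
    intro a b
    have r0 : posR 0 = 104 / 41 := rfl
    have r1 : posR 1 = 63 / 41 := rfl
    have r2 : posR 2 = -(19 / 41) := rfl
    rw [abs_le]
    fin_cases a <;> fin_cases b <;> simp only [Fin.zero_eta, Fin.mk_one, Fin.reduceFinMk, r0, r1, r2] <;>
      norm_num
  refine ⟨1, norm_one, fun a b => ⟨?_, ?_⟩⟩
  · have e : ((rigid w (pm m x0) 0).1 a - (rigid w (pm m x0) 0).1 b) -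
        1 * ((rigid om posR 0).1 a - (rigid om posR 0).1 b) =
        (((pm m x0 a - pm m x0 b) - (posR a - posR b) : ℝ) : ℂ) := by
      simp only [rigid, e0, e1]; push_cast; ring
    rw [e, Complex.norm_real, Real.norm_eq_abs]
    exact (hpos a b).trans (by linarith)
  · have e : ((rigid w (pm m x0) 0).2 a - (rigid w (pm m x0) 0).2 b) -
        1 * ((rigid om posR 0).2 a - (rigid om posR 0).2 b) =
        I * ((w * ((pm m x0 a - pm m x0 b) - (posR a - posR b)) + (w - om) * (posR a - posR b) : ℝ) : ℂ) := by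
      simp only [rigid, e0, e1]; push_cast; ring
    rw [e, norm_mul, Complex.norm_I, one_mul, Complex.norm_real, Real.norm_eq_abs]
    refine (abs_add_le _ _).trans ?_
    rw [abs_mul, abs_mul]
    obtain ⟨w1', w2'⟩ := abs_le.1 h2
    have k1 : |w| ≤ 1 + ε / 5 := by rw [abs_le]; constructor <;> linarith
    have k2 := hpos a b
    have k3 := hposR a b
    have k4 : |w| * |pm m x0 a - pm m x0 b - (posR a - posR b)| ≤ (1 + ε / 5) * |x0 - 1| := by
      gcongr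
    have k5 : |w - om| * |posR a - posR b| ≤ ε / 5 * 3 := by gcongr
    have k6 : (1 + ε / 5) * |x0 - 1| ≤ |x0 - 1| + ε / 5 * (1 / 20) := by nlinarith [abs_nonneg (x0 - 1)]
    linarith

/-- solutions near the Euler relative equilibrium are limits of unbounded solutions, for an open set of
masses -/
theorem main : ∃ ε : ℝ, 0 < ε ∧ ∃ δ : ℝ, 0 < δ ∧ ∀ m : Fin 3 → ℝ, NearM δ m →
    (∃ (w : ℝ) (p : Fin 3 → ℝ), 0 < w ∧ IsSol m univ (rigid w p) ∧
      Near ε (rigid om posR 0) (rigid w p 0)) ∧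
      ∀ x : ℝ → Ph, IsSol m (Ici 0) x → (∀ t, 0 ≤ t → Near ε (rigid om posR 0) (x t)) →
        ∀ U ∈ 𝓝 (x 0), ∃ z ∈ U, Unb m z := by
  obtain ⟨κ, hκ0, hκ1, hmain⟩ := unbE_dense
  obtain ⟨δ, hδ0, hδ⟩ := exists_root (κ := κ / 5) (by positivity)
  refine ⟨κ, hκ0, min κ δ, lt_min hκ0 hδ0, fun m hm => ?_⟩
  have hmκ : NearM κ m := hm.mono (min_le_left _ _)
  obtain ⟨⟨b0, -⟩, ⟨b1, -⟩, ⟨b2, -⟩⟩ := (hmκ.mono (hκ1.trans (by norm_num))).bounds
  have hM : m 0 + m 1 + m 2 ≠ 0 := by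
    norm_num at b0 b1 b2
    apply ne_of_gt
    linarith
  refine ⟨?_, ?_⟩
  · obtain ⟨x0, w, h1, hw0, h2, hA, hB⟩ := hδ m (hm.mono (min_le_right _ _))
    have hx20 : |x0 - 1| ≤ 1 / 20 := h1.trans (by
      have : κ ≤ 1 / 10 := hκ1.trans (by norm_num)
      linarith)
    exact ⟨w, pm m x0, hw0, rigid_sol hM hx20 hA hB, near_rigid m h1 hx20 h2⟩
  · intro x hx hnear
    have hr0 : rel (rigid om posR 0) = xre := by
      rw [← pm_mh, rel_rigid, yr_one]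
    have hclose : ∀ t, 0 ≤ t → ∃ u : ℂ, ‖u‖ = 1 ∧ ‖rel (x t) - u • xre‖ ≤ κ := by
      intro t ht
      obtain ⟨u, hu, hd⟩ := near_rel (hnear t ht)
      rw [hr0] at hd
      exact ⟨u, hu, hd⟩
    have hfar : ∀ t, 0 ≤ t → Far 0 (rel (x t)) := by
      intro t ht
      obtain ⟨u, hu, hd⟩ := hclose t ht
      have hc : ‖conj u‖ = 1 := by rw [Complex.norm_conj, hu]
      apply Far.rot hc
      have e : conj u * u = 1 := by
        rw [mul_comm, Complex.mul_conj, Complex.normSq_eq_norm_sq, hu]; norm_num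
      have hd2 : dist (conj u • rel (x t)) xre ≤ 1 / 100 := by
        rw [dist_eq_norm]
        have e2 : conj u • rel (x t) - xre = conj u • (rel (x t) - u • xre) := by
          rw [smul_sub, smul_smul, e, one_smul]
        rw [e2, norm_smul, hc, one_mul]
        exact hd.trans (hκ1.trans (by norm_num))
      exact (far_xre.of_dist hd2).mono (by norm_num)
    obtain ⟨z, hz1, hz2⟩ := extend (y := fun t => rel (x t)) (y' := fun t => fld m (rel (x t)))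
      (fun t ht => by
        have h3 := (hx t ht).2
        have h4 := relC.hasFDerivAt.comp_hasDerivWithinAt t h3
        rw [fld_rel m (hfar t ht)]
        exact h4)
    have hdense := hmain m hmκ z (fun t ht => by rw [hz1 t ht]; exact hz2 t ht)
      (fun t ht => by rw [hz1 t ht]; exact hclose t ht)
    rw [hz1 0 le_rfl] at hdense
    exact unb_of_unbE hM hdense

lemma eul_rigid : IsSol mh univ (rigid om posR) := by
  rw [← pm_mh]
  refine rigid_sol (by rw [mh0, mh1, mh2]; norm_num) (by norm_num) gAB_mh.1 gAB_mh.2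

end Pool.Agent.T9h50.TB
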