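import Pool.Agent.T9h50.TB.Dat

/-!
# The kernel computation
-/

set_option autoImplicit false
set_option exponentiation.threshold 2000

namespace Pool.Agent.T9h50.TB

/-- the final state of the numerical integration -/
def s84 : St := ⟨-1197032868400209304693649913944, 2127309881890962138927997253,
  -249166514932770213255109003716, 5942097616768886178798730360, -92789386407168219004352744634,
  -18587401668178968225384509046, 116613362636620600832831612077, -16572538684239639692795213324,
  5133844267367164820374436792, 4841143480865011674318149626, 42121041271702825452660829551⟩

theorem run84 : run DG0 DR0 23 84 st0 = some s84 := by decide +kernel

end Pool.Agent.T9h50.TB
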