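import Pool.Agent.T9h50.TB.Esc3
import Pool.Agent.T9h50.TB.K84

/-!
# The numerical integration: the light body escapes
-/

set_option autoImplicit false
set_option exponentiation.threshold 2000

open scoped NNReal ComplexConjugate Topology
open Complex Set Filter

namespace Pool.Agent.T9h50.TB

lemma DG0_le : (DG0 : ℝ) ≤ 2 ^ 384 / 10 ^ 26 := by
  have h : DG0 * 10 ^ 26 ≤ 2 ^ 384 := Nat.div_mul_le_self _ _
  rw [le_div_iff₀ (by positivity)]
  exact_mod_cast h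

lemma DR0_le : (DR0 : ℝ) ≤ 14432 * 2 ^ 384 / 10 ^ 24 := by
  have h : DR0 * 10 ^ 24 ≤ 14432 * 2 ^ 384 := by
    have h1 : (2 ^ 384 / 10 ^ 24) * 10 ^ 24 ≤ 2 ^ 384 := Nat.div_mul_le_self _ _
    have h2 : DR0 = 14432 * (2 ^ 384 / 10 ^ 24) := rfl
    rw [h2, mul_assoc]
    exact Nat.mul_le_mul_left _ h1
  rw [le_div_iff₀ (by positivity)]
  exact_mod_cast h

/-- the states near the final state lead to escape -/
theorem escC_of_near {m : Fin 3 → ℝ} (hm : NearM (1 / 10 ^ 6) m) {y : E}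
    (hy : dist y (stE s84) ≤ 16 / 10 ^ 6) : EscC m y := by
  obtain ⟨⟨m0, m0'⟩, ⟨m1, m1'⟩, ⟨m2, m2'⟩⟩ := hm.bounds
  norm_num at m0 m0' m1 m1' m2 m2'
  rw [dist_eq_norm] at hy
  have n1 : ‖y.1 - (stE s84).1‖ ≤ 16 / 10 ^ 6 := (norm_fst_le (y - stE s84)).trans hy
  have n2 : ‖y.2.1 - (stE s84).2.1‖ ≤ 16 / 10 ^ 6 :=
    ((norm_fst_le (y - stE s84).2).trans (norm_snd_le (y - stE s84))).trans hy
  have n3 : ‖y.2.2.1 - (stE s84).2.2.1‖ ≤ 16 / 10 ^ 6 :=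
    (norm_fst_le (y - stE s84).2.2).trans
      ((norm_snd_le (y - stE s84).2).trans ((norm_snd_le (y - stE s84)).trans hy))
  have n4 : ‖y.2.2.2 - (stE s84).2.2.2‖ ≤ 16 / 10 ^ 6 :=
    (norm_snd_le (y - stE s84).2.2).trans
      ((norm_snd_le (y - stE s84).2).trans ((norm_snd_le (y - stE s84)).trans hy))
  have c1 := (abs_le.1 ((Complex.abs_re_le_norm _).trans n1))
  have c2 := (abs_le.1 ((Complex.abs_im_le_norm _).trans n1))
  have c3 := (abs_le.1 ((Complex.abs_re_le_norm _).trans n2))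
  have c4 := (abs_le.1 ((Complex.abs_im_le_norm _).trans n2))
  have c5 := (abs_le.1 ((Complex.abs_re_le_norm _).trans n3))
  have c6 := (abs_le.1 ((Complex.abs_im_le_norm _).trans n3))
  have c7 := (abs_le.1 ((Complex.abs_re_le_norm _).trans n4))
  have c8 := (abs_le.1 ((Complex.abs_im_le_norm _).trans n4))
  have e1 : (stE s84).1 = ⟨s84.ax0 / SR, s84.ay0 / SR⟩ := rfl
  have e2 : (stE s84).2.1 = ⟨s84.bx0 / SR, s84.bt0 / SR⟩ := rfl
  have e3 : (stE s84).2.2.1 = (4 / sg : ℝ) • (⟨s84.ax1 / SR, s84.ay1 / SR⟩ : ℂ) := rfl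
  have e4 : (stE s84).2.2.2 = (4 / sg : ℝ) • (⟨s84.bx1 / SR, s84.bt1 / SR⟩ : ℂ) := rfl
  rw [Complex.sub_re, e1] at c1
  rw [Complex.sub_im, e1] at c2
  rw [Complex.sub_re, e2] at c3
  rw [Complex.sub_im, e2] at c4
  rw [Complex.sub_re, e3, Complex.smul_re] at c5
  rw [Complex.sub_im, e3, Complex.smul_im] at c6
  rw [Complex.sub_re, e4, Complex.smul_re] at c7
  rw [Complex.sub_im, e4, Complex.smul_im] at c8
  have f1 : (s84.ax0 : ℝ) = -1197032868400209304693649913944 := by norm_num [s84]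
  have f2 : (s84.ax1 : ℝ) = 2127309881890962138927997253 := by norm_num [s84]
  have f3 : (s84.ay0 : ℝ) = -249166514932770213255109003716 := by norm_num [s84]
  have f4 : (s84.ay1 : ℝ) = 5942097616768886178798730360 := by norm_num [s84]
  have f5 : (s84.bx0 : ℝ) = -92789386407168219004352744634 := by norm_num [s84]
  have f6 : (s84.bx1 : ℝ) = -18587401668178968225384509046 := by norm_num [s84]
  have f7 : (s84.bt0 : ℝ) = 116613362636620600832831612077 := by norm_num [s84]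
  have f8 : (s84.bt1 : ℝ) = -16572538684239639692795213324 := by norm_num [s84]
  simp only [f1, f2, f3, f4, f5, f6, f7, f8, smul_eq_mul, SR, sg] at c1 c2 c3 c4 c5 c6 c7 c8
  set a := y.1 with ha
  set b := y.2.1 with hb
  set p := sg • y.2.2.1 with hp
  set q := sg • y.2.2.2 with hq
  have g1 : p.re = 37 / 20 * y.2.2.1.re := by rw [hp, Complex.smul_re, smul_eq_mul, sg]
  have g2 : p.im = 37 / 20 * y.2.2.1.im := by rw [hp, Complex.smul_im, smul_eq_mul, sg]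
  have g3 : q.re = 37 / 20 * y.2.2.2.re := by rw [hq, Complex.smul_re, smul_eq_mul, sg]
  have g4 : q.im = 37 / 20 * y.2.2.2.im := by rw [hq, Complex.smul_im, smul_eq_mul, sg]
  have k1 : a.re ≤ -(1510865 / 10 ^ 5) ∧ -(1510871 / 10 ^ 5) ≤ a.re := by
    norm_num at c1 ⊢; constructor <;> linarith [c1.1, c1.2]
  have k2 : a.im ≤ -(314490 / 10 ^ 5) ∧ -(314495 / 10 ^ 5) ≤ a.im := by
    norm_num at c2 ⊢; constructor <;> linarith [c2.1, c2.2]
  have k3 : b.re ≤ -(1171150 / 10 ^ 6) ∧ -(1171183 / 10 ^ 6) ≤ b.re := by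
    norm_num at c3 ⊢; constructor <;> linarith [c3.1, c3.2]
  have k4 : b.im ≤ 1471884 / 10 ^ 6 ∧ 1471851 / 10 ^ 6 ≤ b.im := by
    norm_num at c4 ⊢; constructor <;> linarith [c4.1, c4.2]
  have k5 : p.re ≤ 10744 / 10 ^ 5 ∧ 10736 / 10 ^ 5 ≤ p.re := by
    rw [g1]; norm_num at c5 ⊢; constructor <;> linarith [c5.1, c5.2]
  have k6 : p.im ≤ 30004 / 10 ^ 5 ∧ 29996 / 10 ^ 5 ≤ p.im := by
    rw [g2]; norm_num at c6 ⊢; constructor <;> linarith [c6.1, c6.2]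
  have k7 : q.re ≤ -(938394 / 10 ^ 6) ∧ -(938454 / 10 ^ 6) ≤ q.re := by
    rw [g3]; norm_num at c7 ⊢; constructor <;> linarith [c7.1, c7.2]
  have k8 : q.im ≤ -(836669 / 10 ^ 6) ∧ -(836729 / 10 ^ 6) ≤ q.im := by
    rw [g4]; norm_num at c8 ⊢; constructor <;> linarith [c8.1, c8.2]
  clear c1 c2 c3 c4 c5 c6 c7 c8
  have hM : 0 < m 1 + m 2 := by linarith
  have μ1 : 78951 / 10 ^ 5 ≤ m 2 / (m 1 + m 2) := by
    rw [le_div_iff₀ hM]; norm_num; linarith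
  have hq2 : ‖q‖ ^ 2 = q.re * q.re + q.im * q.im := by rw [← ip_self, ip]
  have hb2 : ‖b‖ ^ 2 = b.re * b.re + b.im * b.im := by rw [← ip_self, ip]
  have sq1 : q.re * q.re ≤ (938454 / 10 ^ 6) ^ 2 := by
    have : (-q.re) * (-q.re) ≤ (938454 / 10 ^ 6) * (938454 / 10 ^ 6) :=
      mul_le_mul (by linarith [k7.2]) (by linarith [k7.2]) (by norm_num at k7 ⊢; linarith [k7.1]) (by norm_num)
    linarith
  have sq2 : q.im * q.im ≤ (836729 / 10 ^ 6) ^ 2 := by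
    have : (-q.im) * (-q.im) ≤ (836729 / 10 ^ 6) * (836729 / 10 ^ 6) :=
      mul_le_mul (by linarith [k8.2]) (by linarith [k8.2]) (by norm_num at k8 ⊢; linarith [k8.1]) (by norm_num)
    linarith
  have sb1 : b.re * b.re ≤ (1171183 / 10 ^ 6) ^ 2 := by
    have : (-b.re) * (-b.re) ≤ (1171183 / 10 ^ 6) * (1171183 / 10 ^ 6) :=
      mul_le_mul (by linarith [k3.2]) (by linarith [k3.2]) (by norm_num at k3 ⊢; linarith [k3.1]) (by norm_num)
    linarith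
  have sb2 : b.im * b.im ≤ (1471884 / 10 ^ 6) ^ 2 := by
    have : b.im * b.im ≤ (1471884 / 10 ^ 6) * (1471884 / 10 ^ 6) :=
      mul_le_mul k4.1 k4.1 (by norm_num at k4 ⊢; linarith [k4.2]) (by norm_num)
    linarith
  have sb3 : (1171150 / 10 ^ 6) ^ 2 ≤ b.re * b.re := by
    have : (1171150 / 10 ^ 6) * (1171150 / 10 ^ 6) ≤ (-b.re) * (-b.re) :=
      mul_le_mul (by linarith [k3.1]) (by linarith [k3.1]) (by norm_num) (by norm_num at k3 ⊢; linarith [k3.1])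
    linarith
  have sb4 : (1471851 / 10 ^ 6) ^ 2 ≤ b.im * b.im := by
    have : (1471851 / 10 ^ 6) * (1471851 / 10 ^ 6) ≤ b.im * b.im :=
      mul_le_mul k4.2 k4.2 (by norm_num) (by norm_num at k4 ⊢; linarith [k4.2])
    linarith
  have nb1 : ‖b‖ ≤ 1880988 / 10 ^ 6 := by
    have : ‖b‖ ^ 2 ≤ (1880988 / 10 ^ 6) ^ 2 := by
      rw [hb2]; norm_num at sb1 sb2 ⊢; linarith
    exact le_of_sq_le_sq this (by norm_num)
  have nb2 : 18 / 10 ≤ ‖b‖ := by
    have : (18 / 10) ^ 2 ≤ ‖b‖ ^ 2 := by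
      rw [hb2]; norm_num at sb3 sb4 ⊢; linarith
    exact le_of_sq_le_sq this (norm_nonneg _)
  have nb0 : 0 < ‖b‖ := by linarith
  refine ⟨?_, ?_, ?_, ?_, ?_, ?_, ?_⟩
  · change 1552 / 100 ≤ cmp (RR m a b)
    rw [RR, cmp_add, cmp_smul]
    have h1 : 5034 / 10 ^ 4 ≤ cmp b := by
      rw [cmp]; norm_num at k3 k4 ⊢; linarith [k3.1, k4.1]
    have h2 : 78951 / 10 ^ 5 * (5034 / 10 ^ 4) ≤ m 2 / (m 1 + m 2) * cmp b :=
      mul_le_mul μ1 h1 (by norm_num) (by norm_num at μ1 ⊢; linarith)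
    have h3 : cmp a = -(92 / 100) * a.re + -(39 / 100) * a.im := rfl
    rw [h3]
    norm_num at h2 k1 k2 ⊢
    linarith [k1.1, k2.1]
  · change 723 / 1000 ≤ cmp (RR m p q)
    rw [RR, cmp_add, cmp_smul (m 2 / (m 1 + m 2)) q]
    have h1 : 11896 / 10 ^ 4 ≤ cmp q := by
      rw [cmp]; norm_num at k7 k8 ⊢; linarith [k7.1, k8.1]
    have h2 : 78951 / 10 ^ 5 * (11896 / 10 ^ 4) ≤ m 2 / (m 1 + m 2) * cmp q :=
      mul_le_mul μ1 h1 (by norm_num) (by norm_num at μ1 ⊢; linarith)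
    have h3 : cmp p = -(92 / 100) * p.re + -(39 / 100) * p.im := rfl
    rw [h3]
    norm_num at h2 k5 k6 ⊢
    linarith [k5.1, k6.1]
  · change Hb m b q ≤ -(8540 / 10 ^ 4)
    rw [Hb, hq2]
    have h1 : 10 ^ 6 / 1880988 ≤ 1 / ‖b‖ := by
      rw [div_le_div_iff₀ (by norm_num) nb0]; linarith
    have h2 : 3093116 / 10 ^ 6 * (10 ^ 6 / 1880988) ≤ (m 1 + m 2) * (1 / ‖b‖) :=
      mul_le_mul (by linarith) h1 (by norm_num) (by linarith)
    norm_num at h2 sq1 sq2 ⊢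
    linarith
  · change 23610 / 10 ^ 4 ≤ dtm b q
    rw [dtm]
    have h1 : 1171150 / 10 ^ 6 * (836669 / 10 ^ 6) ≤ (-b.re) * (-q.im) :=
      mul_le_mul (by linarith [k3.1]) (by linarith [k8.1]) (by norm_num)
        (by norm_num at k3 ⊢; linarith [k3.1])
    have h2 : 1471851 / 10 ^ 6 * (938394 / 10 ^ 6) ≤ b.im * (-q.re) :=
      mul_le_mul k4.2 (by linarith [k7.1]) (by norm_num) (by norm_num at k4 ⊢; linarith [k4.2])
    norm_num at h1 h2 ⊢
    linarith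
  · change 156 / 100 < ‖b‖
    norm_num at nb2 ⊢; linarith
  · change ‖b‖ < 21 / 10
    norm_num at nb1 ⊢; linarith
  · change ‖q‖ < 151 / 100
    have : ‖q‖ ^ 2 < (151 / 100) ^ 2 := by
      rw [hq2]; norm_num at sq1 sq2 ⊢; linarith
    exact lt_of_pow_lt_pow_left₀ 2 (by norm_num) this

/-- every solution which starts near the initial state escapes -/
theorem escape_st0 {m : Fin 3 → ℝ} (hm : NearM (1 / 10 ^ 24) m) {y : ℝ → E} {t0 : ℝ}
    (hy : ∀ t, t0 ≤ t → HasDerivAt y (fld m (y t)) t) (h0 : dist (y t0) (stE st0) ≤ 12 / 10 ^ 23) :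
    (∀ t, t0 ≤ t → Far 0 (y t)) ∧ ∀ t, t0 + 21 ≤ t → 12 + 24 / 100 * (t - (t0 + 21)) ≤ ‖(y t).1‖ := by
  have hpow : (1.59 : ℝ) ^ 84 * (12 / 10 ^ 23 + cE) ≤ 16 / 10 ^ 6 := by
    unfold cE; norm_num
  have h := run_sound DG0_le DR0_le hm 84 st0 s84 run84 y t0 (12 / 10 ^ 23) (by norm_num) hy
    (hpow.trans (by norm_num)) h0
  have e : ((84 : ℕ) : ℝ) / 4 = 21 := by norm_num
  rw [e] at h
  obtain ⟨h1, h2⟩ := h
  have hE := escC_of_near (hm.mono (by norm_num)) (h2.trans hpow)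
  have h3 := fun (t : ℝ) (ht : t0 + 21 ≤ t) => escape (hm.mono (by norm_num)) (T0 := t0 + 21)
    (fun s hs => hy s (by linarith)) hE ht
  refine ⟨fun t ht => ?_, fun t ht => (h3 t ht).1⟩
  rcases lt_or_ge t (t0 + 21) with h4 | h4
  · exact h1 t ht h4
  · exact (h3 t h4).2

end Pool.Agent.T9h50.TB
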