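import Mathlib

/-!
# The softened Newtonian kernel

`kd d z = z / max ‖z‖ d ^ 3` is globally Lipschitz, and equal to `z / ‖z‖ ^ 3` for `‖z‖ ≥ d`.
-/

set_option autoImplicit false

open scoped NNReal ComplexConjugate
open Complex Set

namespace Pool.Agent.T9h50.TB

/-- the softened Newtonian kernel -/
noncomputable def kd (d : ℝ) (z : ℂ) : ℂ := ((max ‖z‖ d ^ 3)⁻¹ : ℝ) • z

lemma kd_eq {d : ℝ} {z : ℂ} (h : d ≤ ‖z‖) : kd d z = ((‖z‖ ^ 3)⁻¹ : ℝ) • z := by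
  rw [kd, max_eq_left h]

/-- the radial profile -/
lemma phi_lip {d x y : ℝ} (hd : 0 < d) (hx : 0 ≤ x) (hxy : x ≤ y) :
    |(max x d ^ 3)⁻¹ * x - (max y d ^ 3)⁻¹ * y| ≤ 2 / d ^ 3 * (y - x) := by
  have hd3 : 0 < d ^ 3 := by positivity
  rcases le_total y d with h1 | h1
  · rw [max_eq_right (hxy.trans h1), max_eq_right h1, ← mul_sub, abs_mul, abs_of_pos (inv_pos.2 hd3),
      abs_sub_comm, abs_of_nonneg (sub_nonneg.2 hxy), div_eq_mul_inv]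
    have : 0 ≤ (d ^ 3)⁻¹ * (y - x) := mul_nonneg (inv_pos.2 hd3).le (sub_nonneg.2 hxy)
    nlinarith
  · have hy : 0 < y := hd.trans_le h1
    have key : ∀ u : ℝ, d ≤ u → u ≤ y → |(u ^ 3)⁻¹ * u - (y ^ 3)⁻¹ * y| ≤ 2 / d ^ 3 * (y - u) := by
      intro u hu huy
      have hu0 : 0 < u := hd.trans_le hu
      have e1 : (u ^ 3)⁻¹ * u - (y ^ 3)⁻¹ * y = (y - u) * ((u * y ^ 2)⁻¹ + (u ^ 2 * y)⁻¹) := by
        field_simp
        ring
      rw [e1, abs_of_nonneg (by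
        apply mul_nonneg (sub_nonneg.2 huy); positivity), mul_comm]
      have e2 : (u * y ^ 2)⁻¹ ≤ (d ^ 3)⁻¹ := by
        apply inv_anti₀ hd3
        calc d ^ 3 = d * d ^ 2 := by ring
          _ ≤ u * y ^ 2 := by gcongr
      have e3 : (u ^ 2 * y)⁻¹ ≤ (d ^ 3)⁻¹ := by
        apply inv_anti₀ hd3
        calc d ^ 3 = d ^ 2 * d := by ring
          _ ≤ u ^ 2 * y := by gcongr
      have e4 : (u * y ^ 2)⁻¹ + (u ^ 2 * y)⁻¹ ≤ 2 / d ^ 3 := by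
        rw [div_eq_mul_inv]; linarith
      exact mul_le_mul_of_nonneg_right e4 (sub_nonneg.2 huy)
    rcases le_total d x with h2 | h2
    · rw [max_eq_left h2, max_eq_left h1]
      exact key x h2 hxy
    · rw [max_eq_right h2, max_eq_left h1]
      have h3 := key d le_rfl h1
      have e5 : (d ^ 3)⁻¹ * x - (y ^ 3)⁻¹ * y =
          ((d ^ 3)⁻¹ * d - (y ^ 3)⁻¹ * y) - (d ^ 3)⁻¹ * (d - x) := by ring
      have h4 : 0 ≤ (d ^ 3)⁻¹ * (d - x) := mul_nonneg (inv_pos.2 hd3).le (sub_nonneg.2 h2)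
      rw [abs_le] at h3 ⊢
      have h5 : (2 : ℝ) / d ^ 3 = 2 * (d ^ 3)⁻¹ := by ring
      have h6 : 0 ≤ (d ^ 3)⁻¹ * d - (y ^ 3)⁻¹ * y := by
        have : (d ^ 3)⁻¹ * d - (y ^ 3)⁻¹ * y = (y - d) * ((d * y ^ 2)⁻¹ + (d ^ 2 * y)⁻¹) := by
          field_simp
          ring
        rw [this]
        apply mul_nonneg (sub_nonneg.2 h1); positivity
      have h7 : 2 / d ^ 3 * (y - x) = 2 / d ^ 3 * (y - d) + 2 * ((d ^ 3)⁻¹ * (d - x)) := by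
        rw [h5]; ring
      rw [e5, h7]
      constructor
      · have h8 : 0 ≤ 2 / d ^ 3 * (y - d) := by
          apply mul_nonneg (by positivity) (sub_nonneg.2 h1)
        linarith
      · linarith [h3.2]

lemma norm_smul_sub_sq (α β : ℝ) (z w : ℂ) :
    ‖α • z - β • w‖ ^ 2 = α ^ 2 * ‖z‖ ^ 2 + β ^ 2 * ‖w‖ ^ 2 - 2 * (α * β) * (z * conj w).re := by
  rw [← Complex.normSq_eq_norm_sq, ← Complex.normSq_eq_norm_sq, ← Complex.normSq_eq_norm_sq]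
  simp only [Complex.normSq_apply, Complex.sub_re, Complex.sub_im, Complex.smul_re,
    Complex.smul_im, smul_eq_mul, Complex.mul_re, Complex.conj_re, Complex.conj_im]
  ring

lemma re_mul_conj_le (z w : ℂ) : (z * conj w).re ≤ ‖z‖ * ‖w‖ := by
  calc (z * conj w).re ≤ ‖z * conj w‖ := Complex.re_le_norm _
    _ = ‖z‖ * ‖w‖ := by rw [norm_mul, Complex.norm_conj]

/-- the kernel is Lipschitz with the constant `2 / d ^ 3` -/
theorem kd_lip {d : ℝ} (hd : 0 < d) (z w : ℂ) : ‖kd d z - kd d w‖ ≤ 2 / d ^ 3 * ‖z - w‖ := by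
  have hd3 : 0 < d ^ 3 := by positivity
  set α := (max ‖z‖ d ^ 3)⁻¹ with hα
  set β := (max ‖w‖ d ^ 3)⁻¹ with hβ
  have hα0 : 0 < α := by rw [hα]; positivity
  have hβ0 : 0 < β := by rw [hβ]; positivity
  have hα1 : α ≤ (d ^ 3)⁻¹ := inv_anti₀ hd3 (by gcongr; exact le_max_right _ _)
  have hβ1 : β ≤ (d ^ 3)⁻¹ := inv_anti₀ hd3 (by gcongr; exact le_max_right _ _)
  have hab : α * β ≤ (2 / d ^ 3) ^ 2 := by
    calc α * β ≤ (d ^ 3)⁻¹ * (d ^ 3)⁻¹ := by gcongr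
      _ ≤ (2 / d ^ 3) ^ 2 := by
        rw [div_pow, div_eq_mul_inv, ← mul_inv, ← sq]
        have : 0 < ((d ^ 3) ^ 2)⁻¹ := by positivity
        nlinarith
  have hphi : |α * ‖z‖ - β * ‖w‖| ≤ 2 / d ^ 3 * |‖z‖ - ‖w‖| := by
    rcases le_total ‖z‖ ‖w‖ with h | h
    · have := phi_lip hd (norm_nonneg z) h
      rw [abs_sub_comm ‖z‖ ‖w‖, abs_of_nonneg (sub_nonneg.2 h)]
      exact this
    · have := phi_lip hd (norm_nonneg w) h
      rw [abs_sub_comm (α * ‖z‖), abs_of_nonneg (sub_nonneg.2 h)]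
      exact this
  have hsq : (α * ‖z‖ - β * ‖w‖) ^ 2 ≤ (2 / d ^ 3) ^ 2 * (‖z‖ - ‖w‖) ^ 2 := by
    rw [← sq_abs (α * ‖z‖ - β * ‖w‖), ← sq_abs (‖z‖ - ‖w‖), ← mul_pow]
    gcongr
  have e1 : ‖kd d z - kd d w‖ ^ 2 ≤ (2 / d ^ 3 * ‖z - w‖) ^ 2 := by
    rw [kd, kd, ← hα, ← hβ, norm_smul_sub_sq, mul_pow]
    have e2 : ‖z - w‖ ^ 2 = ‖z‖ ^ 2 + ‖w‖ ^ 2 - 2 * (z * conj w).re := by
      have := norm_smul_sub_sq 1 1 z w
      simpa using this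
    rw [e2]
    have hc := re_mul_conj_le z w
    nlinarith [mul_nonneg (sub_nonneg.2 hab) (sub_nonneg.2 hc)]
  exact le_of_sq_le_sq e1 (by positivity)
where
  le_of_sq_le_sq {a b : ℝ} (h : a ^ 2 ≤ b ^ 2) (hb : 0 ≤ b) : a ≤ b := abs_le_of_sq_le_sq' h hb |>.2

lemma norm_kd_le {d : ℝ} (hd : 0 < d) (z : ℂ) : ‖kd d z‖ ≤ 1 / d ^ 2 := by
  rw [kd, norm_smul, Real.norm_eq_abs, abs_of_pos (by positivity)]
  have h1 : ‖z‖ ≤ max ‖z‖ d := le_max_left _ _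
  have h2 : d ≤ max ‖z‖ d := le_max_right _ _
  have h0 : 0 < max ‖z‖ d := hd.trans_le h2
  calc (max ‖z‖ d ^ 3)⁻¹ * ‖z‖ ≤ (max ‖z‖ d ^ 3)⁻¹ * max ‖z‖ d := by gcongr
    _ = 1 / max ‖z‖ d ^ 2 := by field_simp
    _ ≤ 1 / d ^ 2 := by gcongr

lemma kd_rot (d : ℝ) {u : ℂ} (hu : ‖u‖ = 1) (z : ℂ) : kd d (u * z) = u * kd d z := by
  rw [kd, kd, norm_mul, hu, one_mul, Complex.real_smul, Complex.real_smul]
  ring

end Pool.Agent.T9h50.TB
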