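import Pool.Agent.T9h50.TB.Eul
import Pool.Agent.T9h50.TB.Cone

/-!
# The linearisation at the relative equilibrium
-/

set_option autoImplicit false

open scoped NNReal ComplexConjugate Topology
open Complex Set Filter

namespace Pool.Agent.T9h50.TB

/-- the quadratic error of the linearisation -/
lemma quad_est {X Y : Type*} [NormedAddCommGroup X] [NormedSpace ℝ X] [NormedAddCommGroup Y]
    [NormedSpace ℝ Y] {f : X → Y} {x0 : X} (hf : ContDiffAt ℝ 2 f x0) :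
    ∃ K ρ0 : ℝ, 0 < K ∧ 0 < ρ0 ∧ ∀ ρ, ρ ≤ ρ0 → ∀ x y, ‖x - x0‖ ≤ ρ → ‖y - x0‖ ≤ ρ →
      ‖f x - f y - fderiv ℝ f x0 (x - y)‖ ≤ K * ρ * ‖x - y‖ := by
  have h1 : ContDiffAt ℝ 1 (fderiv ℝ f) x0 := hf.fderiv_right (by norm_num)
  obtain ⟨K, t, ht, hK⟩ := h1.exists_lipschitzOnWith
  have h2 : ∀ᶠ y in 𝓝 x0, DifferentiableAt ℝ f y := by
    have := hf.eventually (by simp)
    filter_upwards [this] with y hy
    exact hy.differentiableAt (by norm_num)
  obtain ⟨ρ0, hρ0, hball⟩ := Metric.nhds_basis_closedBall.mem_iff.1 (inter_mem ht h2)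
  refine ⟨K + 1, ρ0, by positivity, hρ0, fun ρ hρ x y hx hy => ?_⟩
  have hsub : Metric.closedBall x0 ρ ⊆ Metric.closedBall x0 ρ0 := Metric.closedBall_subset_closedBall hρ
  have hxm : x ∈ Metric.closedBall x0 ρ := by rw [mem_closedBall_iff_norm]; exact hx
  have hym : y ∈ Metric.closedBall x0 ρ := by rw [mem_closedBall_iff_norm]; exact hy
  have hρ' : 0 ≤ ρ := (norm_nonneg _).trans hx
  refine (convex_closedBall x0 ρ).norm_image_sub_le_of_norm_hasFDerivWithin_le'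
    (f' := fderiv ℝ f) (C := (K + 1) * ρ) ?_ ?_ hym hxm
  · intro z hz
    exact (hball (hsub hz)).2.hasFDerivAt.hasFDerivWithinAt
  · intro z hz
    have h3 := hK.norm_sub_le (hball (hsub hz)).1
      (hball (Metric.mem_closedBall_self hρ0.le)).1
    refine h3.trans ?_
    have h4 : ‖z - x0‖ ≤ ρ := by rwa [mem_closedBall_iff_norm] at hz
    have h5 : (0 : ℝ) ≤ K := K.2
    nlinarith

lemma contDiffAt_kd {d : ℝ} {z : ℂ} (hd : 0 < d) (hz : d < ‖z‖) : ContDiffAt ℝ 2 (kd d) z := by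
  have hz0 : z ≠ 0 := norm_pos_iff.1 (hd.trans hz)
  have h1 : ContDiffAt ℝ 2 (fun w : ℂ => ((‖w‖ ^ 3)⁻¹ : ℝ) • w) z := by
    have h2 : ContDiffAt ℝ 2 (fun w : ℂ => ‖w‖) z := contDiffAt_norm ℝ hz0
    have h3 : ContDiffAt ℝ 2 (fun w : ℂ => (‖w‖ ^ 3)⁻¹) z :=
      (h2.pow 3).inv (pow_ne_zero 3 (norm_pos_iff.2 hz0).ne')
    exact h3.smul contDiffAt_id
  apply h1.congr_of_eventuallyEq
  have h4 : ∀ᶠ w in 𝓝 z, d < ‖w‖ := continuous_norm.continuousAt.eventually_const_lt hz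
  filter_upwards [h4] with w hw
  exact kd_eq hw.le

/-- the derivative of the kernel at a positive real number -/
noncomputable def lk (r : ℝ) (h : ℂ) : ℂ := ⟨-2 * h.re / r ^ 3, h.im / r ^ 3⟩

lemma hasDerivAt_kd {d r : ℝ} (hd : 0 < d) (hr : d < r) (h : ℂ) :
    HasDerivAt (fun s : ℝ => kd d ((r : ℂ) + s • h)) (lk r h) 0 := by
  have hr0 : 0 < r := hd.trans hr
  have hz : HasDerivAt (fun s : ℝ => (r : ℂ) + s • h) h 0 := by
    have := ((hasDerivAt_id (0 : ℝ)).smul_const h).const_add (r : ℂ)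
    simpa using this
  have hn : ‖(r : ℂ)‖ = r := by rw [Complex.norm_real, Real.norm_of_nonneg hr0.le]
  have hz0 : (r : ℂ) + (0 : ℝ) • h ≠ 0 := by
    rw [zero_smul, add_zero]; exact_mod_cast hr0.ne'
  have h1 := hasDerivAt_inv_norm hz hz0
  have h2 := (h1.pow 3).smul hz
  rw [zero_smul, add_zero, hn] at h2
  have hev : (fun s : ℝ => kd d ((r : ℂ) + s • h)) =ᶠ[𝓝 0]
      ((fun s : ℝ => 1 / ‖(r : ℂ) + s • h‖) ^ 3) • (fun s : ℝ => (r : ℂ) + s • h) := by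
    have hc : ContinuousAt (fun s : ℝ => ‖(r : ℂ) + s • h‖) 0 := hz.continuousAt.norm
    have h4 : ∀ᶠ s : ℝ in 𝓝 0, d < ‖(r : ℂ) + s • h‖ := by
      apply hc.eventually_const_lt
      simp only [zero_smul, add_zero, hn]; exact hr
    filter_upwards [h4] with s hs
    rw [kd_eq hs.le]
    simp only [Pi.smul_apply', Pi.pow_apply, one_div, inv_pow]
  refine (h2.congr_of_eventuallyEq hev).congr_deriv ?_
  simp only [Pi.pow_apply, zero_smul, add_zero, hn]
  apply Complex.ext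
  · simp only [lk, ip, Complex.add_re, Complex.smul_re, smul_eq_mul, Complex.ofReal_re,
      Complex.ofReal_im, Nat.add_one_sub_one]
    push_cast
    field_simp
    ring
  · simp only [lk, ip, Complex.add_im, Complex.smul_im, smul_eq_mul, Complex.ofReal_re,
      Complex.ofReal_im]
    field_simp
    push_cast
    ring

/-- the linearised accelerations -/
noncomputable def LA (a b : ℂ) : ℂ :=
  -((mh 0 + mh 1 : ℝ) • lk 1 a) - (mh 2 : ℝ) • lk 3 (a + b) + (mh 2 : ℝ) • lk 2 b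
noncomputable def LB (a b : ℂ) : ℂ :=
  (mh 0 : ℝ) • lk 1 a - (mh 0 : ℝ) • lk 3 (a + b) - (mh 1 + mh 2 : ℝ) • lk 2 b

lemma norm_xre : ‖xre.1‖ = 1 ∧ ‖xre.2.1‖ = 2 ∧ ‖xre.1 + xre.2.1‖ = 3 := by
  refine ⟨by simp [xre], by simp [xre], ?_⟩
  show ‖(1 + 2 : ℂ)‖ = 3
  norm_num

lemma contDiffAt_fld : ContDiffAt ℝ 2 (fld mh) xre := by
  obtain ⟨n1, n2, n3⟩ := norm_xre
  have p1 : ContDiffAt ℝ 2 (fun x : E => x.1) xre := contDiffAt_fst
  have p2 : ContDiffAt ℝ 2 (fun x : E => x.2.1) xre := contDiffAt_snd.fst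
  have p3 : ContDiffAt ℝ 2 (fun x : E => x.2.2.1) xre := contDiffAt_snd.snd.fst
  have p4 : ContDiffAt ℝ 2 (fun x : E => x.2.2.2) xre := contDiffAt_snd.snd.snd
  have k1 : ContDiffAt ℝ 2 (fun x : E => kd dA x.1) xre :=
    (contDiffAt_kd dA_pos (by rw [n1]; unfold dA; norm_num)).comp xre p1
  have k2 : ContDiffAt ℝ 2 (fun x : E => kd dB x.2.1) xre :=
    (contDiffAt_kd dB_pos (by rw [n2]; unfold dB; norm_num)).comp xre p2
  have k3 : ContDiffAt ℝ 2 (fun x : E => kd dC (x.1 + x.2.1)) xre := by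
    have := p1.add p2
    exact ContDiffAt.comp (g := kd dC) (f := fun x : E => x.1 + x.2.1) xre
      (contDiffAt_kd dC_pos (by rw [n3]; unfold dC; norm_num)) this
  have q1 : ContDiffAt ℝ 2 (fun x : E => FA mh x.1 x.2.1) xre :=
    (((k1.const_smul (mh 0 + mh 1)).neg).sub (k3.const_smul (mh 2))).add (k2.const_smul (mh 2))
  have q2 : ContDiffAt ℝ 2 (fun x : E => FB mh x.1 x.2.1) xre :=
    ((k1.const_smul (mh 0)).sub (k3.const_smul (mh 0))).sub (k2.const_smul (mh 1 + mh 2))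
  exact (p3.const_smul sg).prodMk ((p4.const_smul sg).prodMk
    ((q1.const_smul sg⁻¹).prodMk (q2.const_smul sg⁻¹)))

lemma fderiv_fld (h : E) : fderiv ℝ (fld mh) xre h =
    (sg • h.2.2.1, sg • h.2.2.2, sg⁻¹ • LA h.1 h.2.1, sg⁻¹ • LB h.1 h.2.1) := by
  have hdiff : DifferentiableAt ℝ (fld mh) xre := contDiffAt_fld.differentiableAt (by norm_num)
  have hline : HasDerivAt (fun s : ℝ => xre + s • h) h 0 := by
    have := ((hasDerivAt_id (0 : ℝ)).smul_const h).const_add xre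
    simpa using this
  have h1 : HasDerivAt (fun s : ℝ => fld mh (xre + s • h)) (fderiv ℝ (fld mh) xre h) 0 := by
    have hx : xre = xre + (0 : ℝ) • h := by simp
    have hf : HasFDerivAt (fld mh) (fderiv ℝ (fld mh) xre) (xre + (0 : ℝ) • h) := by
      rw [← hx]; exact hdiff.hasFDerivAt
    exact hf.comp_hasDerivAt 0 hline
  have kA : HasDerivAt (fun s : ℝ => kd dA ((1 : ℝ) + s • h.1)) (lk 1 h.1) 0 :=
    hasDerivAt_kd dA_pos (by unfold dA; norm_num) _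
  have kB : HasDerivAt (fun s : ℝ => kd dB ((2 : ℝ) + s • h.2.1)) (lk 2 h.2.1) 0 :=
    hasDerivAt_kd dB_pos (by unfold dB; norm_num) _
  have kC : HasDerivAt (fun s : ℝ => kd dC ((3 : ℝ) + s • (h.1 + h.2.1))) (lk 3 (h.1 + h.2.1)) 0 :=
    hasDerivAt_kd dC_pos (by unfold dC; norm_num) _
  have e1 : ∀ s : ℝ, (xre + s • h).1 = ((1 : ℝ) : ℂ) + s • h.1 := fun s => by
    simp [xre]
  have e2 : ∀ s : ℝ, (xre + s • h).2.1 = ((2 : ℝ) : ℂ) + s • h.2.1 := fun s => by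
    simp [xre]
  have e3 : ∀ s : ℝ, (xre + s • h).1 + (xre + s • h).2.1 = ((3 : ℝ) : ℂ) + s • (h.1 + h.2.1) := fun s => by
    rw [e1, e2, smul_add]; push_cast; ring
  have qA : HasDerivAt (fun s : ℝ => FA mh (xre + s • h).1 (xre + s • h).2.1) (LA h.1 h.2.1) 0 := by
    simp only [FA, e3]
    simp only [e1, e2]
    exact (((kA.const_smul (mh 0 + mh 1)).fun_neg).fun_sub (kC.const_smul (mh 2))).fun_add
      (kB.const_smul (mh 2))
  have qB : HasDerivAt (fun s : ℝ => FB mh (xre + s • h).1 (xre + s • h).2.1) (LB h.1 h.2.1) 0 := by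
    simp only [FB, e3]
    simp only [e1, e2]
    exact ((kA.const_smul (mh 0)).fun_sub (kC.const_smul (mh 0))).fun_sub
      (kB.const_smul (mh 1 + mh 2))
  have q3 : HasDerivAt (fun s : ℝ => sg • (xre + s • h).2.2.1) (sg • h.2.2.1) 0 := by
    have h5 : HasDerivAt (fun s : ℝ => (xre + s • h).2.2.1) h.2.2.1 0 := hline.snd.snd.fst
    exact h5.const_smul sg
  have q4 : HasDerivAt (fun s : ℝ => sg • (xre + s • h).2.2.2) (sg • h.2.2.2) 0 := by
    have h5 : HasDerivAt (fun s : ℝ => (xre + s • h).2.2.2) h.2.2.2 0 := hline.snd.snd.snd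
    exact h5.const_smul sg
  have h2 : HasDerivAt (fun s : ℝ => fld mh (xre + s • h))
      (sg • h.2.2.1, sg • h.2.2.2, sg⁻¹ • LA h.1 h.2.1, sg⁻¹ • LB h.1 h.2.1) 0 :=
    q3.prodMk (q4.prodMk ((qA.const_smul sg⁻¹).prodMk (qB.const_smul sg⁻¹)))
  exact h1.unique h2

end Pool.Agent.T9h50.TB
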