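import Mathlib

/-!
# Integer arithmetic for the numerical integration

Polynomials with integer coefficients are packed into one integer: the value at `X = 2 ^ 512`.
-/

set_option autoImplicit false

namespace Pool.Agent.T9h50.TB

/-- evaluate a natural number before it is used -/
def fN {α : Type} (n : Nat) (f : Nat → α) : α :=
  Nat.casesOn (motive := fun _ => α) n (f 0) (fun k => f (Nat.succ k))

/-- evaluate an integer before it is used -/
def fI {α : Type} (x : Int) (f : Int → α) : α :=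
  Int.casesOn (motive := fun _ => α) x (fun n => fN n (fun n => f (Int.ofNat n)))
    (fun n => fN n (fun n => f (Int.negSucc n)))

theorem fN_eq {α : Type} (n : Nat) (f : Nat → α) : fN n f = f n := by
  cases n <;> rfl

theorem fI_eq {α : Type} (x : Int) (f : Int → α) : fI x f = f x := by
  cases x <;> simp [fI, fN_eq]

/-- the base of the packing, `2 ^ 512` -/
@[irreducible] def XN : Nat := Nat.pow 2 512

/-- the scale of the coefficients, `2 ^ 96` -/
def S1 : Int := 79228162514264337593543950336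

/-- `2 ^ 288` -/
def S3 : Int := Int.ofNat (Nat.pow 2 288)

/-- `2 ^ 384` -/
def S4 : Int := Int.ofNat (Nat.pow 2 384)

/-- all the digits of this number are `2 ^ 511` (104 digits) -/
def HH : Int := Int.ofNat (Nat.mul (Nat.pow 2 511)
  (Nat.div (Nat.sub (Nat.pow 2 53248) 1) (Nat.sub (Nat.pow 2 512) 1)))

/-- the signed digit number `k` of a packed polynomial -/
def dg (k : Nat) (V : Int) : Int :=
  Int.subNatNat (Nat.mod (Nat.shiftRight (Int.toNat (Int.add V HH)) (Nat.mul 512 k)) XN)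
    (Nat.pow 2 511)

/-- rounded division by a positive integer -/
def rdiv (a b : Int) : Int := Int.ediv (Int.add (Int.mul 2 a) b) (Int.mul 2 b)

/-- the value of a polynomial at `X` -/
def pk : List Int → Int
  | [] => 0
  | a :: p => Int.add a (Int.mul (Int.ofNat XN) (pk p))

/-- the data of a step: Taylor polynomials of the coordinates of `a`, `b` and of the inverses of
`|a|`, `|a + b|`, `|b|` -/
structure Ls where
  ax : List Int
  ay : List Int
  bx : List Int
  bt : List Int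
  ga : List Int
  gc : List Int
  gb : List Int

/-- the state at the beginning of a step: the first two coefficients of the coordinates, and
approximations of the inverses of the distances -/
structure St where
  ax0 : Int
  ax1 : Int
  ay0 : Int
  ay1 : Int
  bx0 : Int
  bx1 : Int
  bt0 : Int
  bt1 : Int
  ga0 : Int
  gc0 : Int
  gb0 : Int
  deriving DecidableEq

/-- Newton step for the inverse square root -/
def nwt (g n : Int) : Int :=
  Int.add g (rdiv (Int.mul g (Int.sub S4 (Int.mul (Int.mul g g) n))) (Int.mul 2 S4))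

/-- the loop which generates the Taylor polynomials; the lists are reversed -/
def loop (ga0 gc0 gb0 : Int) (fuel : Nat) : Nat → List Int → List Int → List Int → List Int →
    List Int → List Int → List Int → Int → Int → Int → Int → Int → Int → Int → Ls :=
  Nat.rec (motive := fun _ => Nat → List Int → List Int → List Int → List Int → List Int →
    List Int → List Int → Int → Int → Int → Int → Int → Int → Int → Ls)
    (fun _ lax lay lbx lbt lga lgc lgb _ _ _ _ _ _ _ =>
      ⟨lax.reverse, lay.reverse, lbx.reverse, lbt.reverse, lga.reverse, lgc.reverse, lgb.reverse⟩)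
    (fun _ ih k lax lay lbx lbt lga lgc lgb Ax Ay Bx By Ga Gc Gb =>
      fI (Int.add Ax Bx) fun Cx => fI (Int.add Ay By) fun Cy =>
      fI (Int.mul Ga Ga) fun Ga2 => fI (Int.mul Gc Gc) fun Gc2 => fI (Int.mul Gb Gb) fun Gb2 =>
      fI (Int.mul Ga2 Ga) fun Ga3 => fI (Int.mul Gc2 Gc) fun Gc3 => fI (Int.mul Gb2 Gb) fun Gb3 =>
      fI (Int.mul Ax Ga3) fun kax => fI (Int.mul Ay Ga3) fun kay =>
      fI (Int.mul Cx Gc3) fun kcx => fI (Int.mul Cy Gc3) fun kcy =>
      fI (Int.mul Bx Gb3) fun kbx => fI (Int.mul By Gb3) fun kby =>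
      fI (Int.mul (Int.mul (16 * 14432) (Int.ofNat (Nat.mul (k+1) (k+2)))) S3) fun den =>
      fI (rdiv (dg k (Int.sub (Int.mul 35244 (Int.sub kbx kcx)) (Int.mul 10143 kax))) den) fun ax =>
      fI (rdiv (dg k (Int.sub (Int.mul 35244 (Int.sub kby kcy)) (Int.mul 10143 kay))) den) fun ay =>
      fI (rdiv (dg k (Int.sub (Int.mul 747 (Int.sub kax kcx)) (Int.mul 44640 kbx))) den) fun bx =>
      fI (rdiv (dg k (Int.sub (Int.mul 747 (Int.sub kay kcy)) (Int.mul 44640 kby))) den) fun bt =>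
      fI (rdiv (Int.mul (Int.neg ga0) (dg (k+1) (Int.mul Ga2 (Int.add (Int.mul Ax Ax) (Int.mul Ay Ay)))))
        (Int.mul 2 S4)) fun ea =>
      fI (rdiv (Int.mul (Int.neg gc0) (dg (k+1) (Int.mul Gc2 (Int.add (Int.mul Cx Cx) (Int.mul Cy Cy)))))
        (Int.mul 2 S4)) fun ec =>
      fI (rdiv (Int.mul (Int.neg gb0) (dg (k+1) (Int.mul Gb2 (Int.add (Int.mul Bx Bx) (Int.mul By By)))))
        (Int.mul 2 S4)) fun eb =>
      fI (Int.ofNat (Nat.pow XN (k+1))) fun X1 => fI (Int.ofNat (Nat.pow XN (k+2))) fun X2 =>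
      fI (Int.add Ga (Int.mul ea X1)) fun Ga' =>
      fI (Int.add Gc (Int.mul ec X1)) fun Gc' =>
      fI (Int.add Gb (Int.mul eb X1)) fun Gb' =>
      fI (Int.add Ax (Int.mul ax X2)) fun Ax' =>
      fI (Int.add Ay (Int.mul ay X2)) fun Ay' =>
      fI (Int.add Bx (Int.mul bx X2)) fun Bx' =>
      fI (Int.add By (Int.mul bt X2)) fun By' =>
      fN (k+1) fun k1 =>
      ih k1 (ax :: lax) (ay :: lay) (bx :: lbx) (bt :: lbt) (ea :: lga) (ec :: lgc) (eb :: lgb)
        Ax' Ay' Bx' By' Ga' Gc' Gb') fuel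

/-- the Taylor polynomials for a state -/
def gen (fuel : Nat) (s : St) : Ls :=
  fI (nwt s.ga0 (Int.add (Int.mul s.ax0 s.ax0) (Int.mul s.ay0 s.ay0))) fun ga =>
  fI (nwt s.gc0 (Int.add (Int.mul (Int.add s.ax0 s.bx0) (Int.add s.ax0 s.bx0))
    (Int.mul (Int.add s.ay0 s.bt0) (Int.add s.ay0 s.bt0)))) fun gc =>
  fI (nwt s.gb0 (Int.add (Int.mul s.bx0 s.bx0) (Int.mul s.bt0 s.bt0))) fun gb =>
  loop ga gc gb fuel 0 [s.ax1, s.ax0] [s.ay1, s.ay0] [s.bx1, s.bx0] [s.bt1, s.bt0] [ga] [gc] [gb]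
    (Int.add s.ax0 (Int.mul s.ax1 (Int.ofNat XN))) (Int.add s.ay0 (Int.mul s.ay1 (Int.ofNat XN)))
    (Int.add s.bx0 (Int.mul s.bx1 (Int.ofNat XN))) (Int.add s.bt0 (Int.mul s.bt1 (Int.ofNat XN)))
    ga gc gb

/-- the coefficients of the second derivative, from the coefficient number `k + 2` on -/
def der2 : Nat → List Int → List Int
  | _, [] => []
  | k, a :: p => Int.mul (Int.ofNat (Nat.mul (k + 1) (k + 2))) a :: der2 (k + 1) p

/-- sum of the coefficients -/
def sm : List Int → Int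
  | [] => 0
  | a :: p => Int.add a (sm p)

/-- sum of the coefficients of the derivative -/
def dsm : Nat → List Int → Int
  | _, [] => 0
  | k, a :: p => Int.add (Int.mul (Int.ofNat k) a) (dsm (k + 1) p)

/-- sum of the absolute values of the coefficients -/
def nrm : List Int → Nat
  | [] => 0
  | a :: p => Nat.add (Int.natAbs a) (nrm p)

/-- the digits of `V` (in base `X`) are at most `2 D`, and there are at most `fuel` of them -/
def chkN (D2 : Nat) : Nat → Nat → Bool
  | 0, V => Nat.beq V 0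
  | n + 1, V => (Nat.ble (Nat.mod V XN) D2).and (chkN D2 n (Nat.div V XN))

/-- the polynomial packed in `V` has at most `104` coefficients, all with absolute value at most `D` -/
def chk (D : Nat) (V : Int) : Bool :=
  Int.casesOn (motive := fun _ => Bool) (Int.add V (Int.ofNat (Nat.mul D
    (Nat.div (Nat.sub (Nat.pow 2 53248) 1) (Nat.sub (Nat.pow 2 512) 1)))))
    (fun n => chkN (Nat.mul 2 D) 104 n) (fun _ => false)

/-- the list begins with the two given integers -/
def hd2 (l : List Int) (x y : Int) : Bool :=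
  match l with
  | a :: b :: _ => (a == x) && (b == y)
  | _ => false

/-- the residual of the equation for one coordinate is small: `c1 k1 + c2 k2 + c3 k3` is the packed
acceleration -/
def chkR (D : Nat) (l : List Int) (F : Int) : Bool :=
  (Nat.ble (nrm (der2 0 (l.drop 2))) (Nat.pow 2 112)).and
    (chk D (Int.sub (Int.mul (Int.mul 230912 S3) (pk (der2 0 (l.drop 2)))) F))

/-- bounds for the coefficients -/
def chkB (L : Ls) : Bool :=
  (Nat.ble (nrm L.ax) (Nat.pow 2 102)).and <| (Nat.ble (nrm L.ay) (Nat.pow 2 102)).and <|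
  (Nat.ble (nrm L.bx) (Nat.pow 2 102)).and <| (Nat.ble (nrm L.bt) (Nat.pow 2 102)).and <|
  (Nat.ble (Nat.mul (nrm L.ga) 941) (Nat.mul 1000 (Nat.pow 2 96))).and <|
  (Nat.ble (Nat.mul (nrm L.gc) 2901) (Nat.mul 1000 (Nat.pow 2 96))).and <|
  (Nat.ble (Nat.mul (nrm L.gb) 1551) (Nat.mul 1000 (Nat.pow 2 96))).and <|
  (Nat.blt (nrm L.ga) (Int.toNat (Int.mul 2 (L.ga.headD 0)))).and <|
  (Nat.blt (nrm L.gc) (Int.toNat (Int.mul 2 (L.gc.headD 0)))).and <|
  (Nat.blt (nrm L.gb) (Int.toNat (Int.mul 2 (L.gb.headD 0))))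

/-- all the conditions for the Taylor polynomials -/
def chkL (DG DR : Nat) (L : Ls) : Bool :=
  (chkB L).and <|
  fI (pk L.ax) fun Ax => fI (pk L.ay) fun Ay => fI (pk L.bx) fun Bx => fI (pk L.bt) fun By =>
  fI (pk L.ga) fun Ga => fI (pk L.gc) fun Gc => fI (pk L.gb) fun Gb =>
  fI (Int.add Ax Bx) fun Cx => fI (Int.add Ay By) fun Cy =>
  fI (Int.mul Ga Ga) fun Ga2 => fI (Int.mul Gc Gc) fun Gc2 => fI (Int.mul Gb Gb) fun Gb2 =>
  (chk DG (Int.sub (Int.mul Ga2 (Int.add (Int.mul Ax Ax) (Int.mul Ay Ay))) S4)).and <|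
  (chk DG (Int.sub (Int.mul Gc2 (Int.add (Int.mul Cx Cx) (Int.mul Cy Cy))) S4)).and <|
  (chk DG (Int.sub (Int.mul Gb2 (Int.add (Int.mul Bx Bx) (Int.mul By By))) S4)).and <|
  fI (Int.mul Ga2 Ga) fun Ga3 => fI (Int.mul Gc2 Gc) fun Gc3 => fI (Int.mul Gb2 Gb) fun Gb3 =>
  fI (Int.mul Ax Ga3) fun kax => fI (Int.mul Ay Ga3) fun kay =>
  fI (Int.mul Cx Gc3) fun kcx => fI (Int.mul Cy Gc3) fun kcy =>
  fI (Int.mul Bx Gb3) fun kbx => fI (Int.mul By Gb3) fun kby =>
  (chkR DR L.ax (Int.sub (Int.mul 35244 (Int.sub kbx kcx)) (Int.mul 10143 kax))).and <|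
  (chkR DR L.ay (Int.sub (Int.mul 35244 (Int.sub kby kcy)) (Int.mul 10143 kay))).and <|
  (chkR DR L.bx (Int.sub (Int.mul 747 (Int.sub kax kcx)) (Int.mul 44640 kbx))).and <|
  (chkR DR L.bt (Int.sub (Int.mul 747 (Int.sub kay kcy)) (Int.mul 44640 kby)))

/-- the state at the end of a step -/
def nxt (L : Ls) : St :=
  ⟨sm L.ax, dsm 0 L.ax, sm L.ay, dsm 0 L.ay, sm L.bx, dsm 0 L.bx, sm L.bt, dsm 0 L.bt,
    sm L.ga, sm L.gc, sm L.gb⟩

/-- the coordinates of the state are the first coefficients -/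
def chkS (L : Ls) (s : St) : Bool :=
  (hd2 L.ax s.ax0 s.ax1).and <| (hd2 L.ay s.ay0 s.ay1).and <| (hd2 L.bx s.bx0 s.bx1).and <|
  (hd2 L.bt s.bt0 s.bt1)

/-- evaluate a state -/
def fSt {α : Type} (s : St) (f : St → α) : α :=
  fI s.ax0 fun a0 => fI s.ax1 fun a1 => fI s.ay0 fun a2 => fI s.ay1 fun a3 =>
  fI s.bx0 fun a4 => fI s.bx1 fun a5 => fI s.bt0 fun a6 => fI s.bt1 fun a7 =>
  fI s.ga0 fun a8 => fI s.gc0 fun a9 => fI s.gb0 fun a10 => f ⟨a0, a1, a2, a3, a4, a5, a6, a7, a8, a9, a10⟩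

/-- evaluate a structure of lists -/
def fLs {α : Type} (L : Ls) (f : Ls → α) : α :=
  Ls.casesOn (motive := fun _ => α) L (fun a b c d e g h => f ⟨a, b, c, d, e, g, h⟩)

/-- `n` steps -/
def run (DG DR deg : Nat) (n : Nat) : St → Option St :=
  Nat.rec (motive := fun _ => St → Option St) (fun s => some s)
    (fun _ ih s => fLs (gen deg s) fun L =>
      Bool.casesOn (motive := fun _ => Option St) ((chkS L s).and (chkL DG DR L)) none
        (fSt (nxt L) ih)) n

end Pool.Agent.T9h50.TB
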