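import Pool.Agent.T9h50.TB.Wu3

/-!
# From relative coordinates to solutions of Newton's equations
-/

set_option autoImplicit false

open scoped NNReal ComplexConjugate Topology
open Complex Set Filter

namespace Pool.Agent.T9h50.TB

/-- phase points: positions and velocities of the three bodies in the plane -/
abbrev Ph : Type := (Fin 3 → ℂ) × (Fin 3 → ℂ)

/-- the Newtonian acceleration of body `a` -/
noncomputable def acc (m : Fin 3 → ℝ) (q : Fin 3 → ℂ) (a : Fin 3) : ℂ :=
  ∑ b ∈ Finset.univ.erase a, ((m b / ‖q b - q a‖ ^ 3 : ℝ) : ℂ) * (q b - q a)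

/-- `x` is a solution of Newton's equations on the set `J` of times -/
def IsSol (m : Fin 3 → ℝ) (J : Set ℝ) (x : ℝ → Ph) : Prop :=
  ∀ t ∈ J, (∀ a b, a ≠ b → (x t).1 a ≠ (x t).1 b) ∧
    HasDerivWithinAt x ((x t).2, acc m (x t).1) J t

/-- the solution with the initial condition `z` is unbounded -/
def Unb (m : Fin 3 → ℝ) (z : Ph) : Prop :=
  ∃ x : ℝ → Ph, x 0 = z ∧ IsSol m (Ici 0) x ∧
    ∃ a b, ∀ R : ℝ, ∃ t : ℝ, 0 ≤ t ∧ R < ‖(x t).1 a - (x t).1 b‖

/-- relative coordinates -/
noncomputable def rel (z : Ph) : E :=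
  (z.1 0 - z.1 1, z.1 1 - z.1 2, sg⁻¹ • (z.2 0 - z.2 1), sg⁻¹ • (z.2 1 - z.2 2))

/-- the position of the second body relative to the centre of mass -/
noncomputable def cm (m : Fin 3 → ℝ) (a b : ℂ) : ℂ := ((m 0 + m 1 + m 2)⁻¹ : ℝ) • ((m 2 : ℝ) • b - (m 0 : ℝ) • a)

/-- the phase point with given centre of mass and relative coordinates -/
noncomputable def emb (m : Fin 3 → ℝ) (c d : ℂ) (x : E) : Ph :=
  (![c + cm m x.1 x.2.1 + x.1, c + cm m x.1 x.2.1, c + cm m x.1 x.2.1 - x.2.1],
    ![d + cm m (sg • x.2.2.1) (sg • x.2.2.2) + sg • x.2.2.1, d + cm m (sg • x.2.2.1) (sg • x.2.2.2),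
      d + cm m (sg • x.2.2.1) (sg • x.2.2.2) - sg • x.2.2.2])

lemma continuous_emb (m : Fin 3 → ℝ) (c d : ℂ) : Continuous (emb m c d) := by
  unfold emb cm
  refine Continuous.prodMk (continuous_pi fun i => ?_) (continuous_pi fun i => ?_)
  · fin_cases i <;> simp <;> fun_prop
  · fin_cases i <;> simp <;> fun_prop

lemma emb_rel (m : Fin 3 → ℝ) (z : Ph) :
    emb m (z.1 1 - cm m (z.1 0 - z.1 1) (z.1 1 - z.1 2))
      (z.2 1 - cm m (z.2 0 - z.2 1) (z.2 1 - z.2 2)) (rel z) = z := by
  have hs : ∀ w : ℂ, sg • (sg⁻¹ • w) = w := fun w => by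
    rw [smul_smul, mul_inv_cancel₀ sg_pos.ne', one_smul]
  obtain ⟨q, v⟩ := z
  simp only [emb, rel, hs]
  refine Prod.ext ?_ ?_
  · funext i
    fin_cases i <;> simp
  · funext i
    fin_cases i <;> simp

/-- solutions of the softened equations which are far from collisions give solutions of Newton's
equations -/
theorem newton_at {m : Fin 3 → ℝ} (hM : m 0 + m 1 + m 2 ≠ 0) {y : ℝ → E} {t : ℝ}
    (hyt : HasDerivAt y (fld m (y t)) t) (hft : Far 0 (y t)) (c d : ℂ) :
    (∀ a b, a ≠ b → (emb m (c + t • d) d (y t)).1 a ≠ (emb m (c + t • d) d (y t)).1 b) ∧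
      HasDerivAt (fun t => emb m (c + t • d) d (y t))
        ((emb m (c + t • d) d (y t)).2, acc m (emb m (c + t • d) d (y t)).1) t := by
  obtain ⟨f1, f2, f3⟩ := hft
  rw [add_zero] at f1 f2 f3
  set a := (y t).1 with ha
  set b := (y t).2.1 with hb
  have ha0 : 0 < ‖a‖ := dA_pos.trans_le f1
  have hc0 : 0 < ‖a + b‖ := dC_pos.trans_le f2
  have hb0 : 0 < ‖b‖ := dB_pos.trans_le f3
  have na : a ≠ 0 := norm_pos_iff.1 ha0
  have nb : b ≠ 0 := norm_pos_iff.1 hb0
  have nc : a + b ≠ 0 := norm_pos_iff.1 hc0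
  set k := c + t • d + cm m a b with hk
  have q0 : (emb m (c + t • d) d (y t)).1 0 = k + a := rfl
  have q1 : (emb m (c + t • d) d (y t)).1 1 = k := rfl
  have q2 : (emb m (c + t • d) d (y t)).1 2 = k - b := rfl
  refine ⟨?_, ?_⟩
  · intro i j hij
    fin_cases i <;> fin_cases j <;>
      simp only [Fin.zero_eta, Fin.mk_one, Fin.reduceFinMk, q0, q1, q2, ne_eq] at hij ⊢
    · exact absurd trivial hij
    · intro h; apply na; linear_combination h
    · intro h; apply nc; linear_combination h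
    · intro h; apply na; linear_combination -h
    · exact absurd trivial hij
    · intro h; apply nb; linear_combination h
    · intro h; apply nc; linear_combination -h
    · intro h; apply nb; linear_combination -h
    · exact absurd trivial hij
  · have hsg : ∀ w : ℂ, sg • (sg⁻¹ • w) = w := fun w => by
      rw [smul_smul, mul_inv_cancel₀ sg_pos.ne', one_smul]
    have d1 : HasDerivAt (fun s => (y s).1) (sg • (y t).2.2.1) t := hyt.fst
    have d2 : HasDerivAt (fun s => (y s).2.1) (sg • (y t).2.2.2) t := hyt.snd.fst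
    have d3 : HasDerivAt (fun s => sg • (y s).2.2.1) (FA m a b) t := by
      have h : HasDerivAt (fun s => (y s).2.2.1) (sg⁻¹ • FA m a b) t := hyt.snd.snd.fst
      exact (h.const_smul sg).congr_deriv (hsg _)
    have d4 : HasDerivAt (fun s => sg • (y s).2.2.2) (FB m a b) t := by
      have h : HasDerivAt (fun s => (y s).2.2.2) (sg⁻¹ • FB m a b) t := hyt.snd.snd.snd
      exact (h.const_smul sg).congr_deriv (hsg _)
    have dc : ∀ {f g : ℝ → ℂ} {f' g' : ℂ}, HasDerivAt f f' t → HasDerivAt g g' t →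
        HasDerivAt (fun s => cm m (f s) (g s)) (cm m f' g') t := by
      intro f g f' g' hf hg
      have h1 : HasDerivAt (fun s => (m 2 : ℝ) • g s - (m 0 : ℝ) • f s)
          ((m 2 : ℝ) • g' - (m 0 : ℝ) • f') t := (hg.const_smul (m 2)).fun_sub (hf.const_smul (m 0))
      exact h1.const_smul (m 0 + m 1 + m 2)⁻¹
    have dd : HasDerivAt (fun s : ℝ => c + s • d) d t := by
      have := ((hasDerivAt_id t).smul_const d).const_add c
      simpa using this
    have dk := dd.fun_add (dc d1 d2)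
    have dv : HasDerivAt (fun s => d + cm m (sg • (y s).2.2.1) (sg • (y s).2.2.2))
        (cm m (FA m a b) (FB m a b)) t := (dc d3 d4).const_add d
    have n1 : ∀ z w : ℂ, ‖z - w‖ = ‖w - z‖ := norm_sub_rev
    -- accelerations
    have hA : kd dA a = ((‖a‖ ^ 3)⁻¹ : ℝ) • a := kd_eq f1
    have hB : kd dB b = ((‖b‖ ^ 3)⁻¹ : ℝ) • b := kd_eq f3
    have hC : kd dC (a + b) = ((‖a + b‖ ^ 3)⁻¹ : ℝ) • (a + b) := kd_eq f2
    have a1 : acc m (emb m (c + t • d) d (y t)).1 1 = cm m (FA m a b) (FB m a b) := by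
      have e : (Finset.univ.erase (1 : Fin 3)) = {0, 2} := by decide
      rw [acc, e, Finset.sum_pair (by decide), q0, q1, q2]
      have e1 : k + a - k = a := by ring
      have e2 : k - b - k = -b := by ring
      rw [e1, e2, norm_neg, cm, FA, FB, hA, hB, hC]
      simp only [Complex.real_smul]
      have hM' : ((m 0 + m 1 + m 2 : ℝ) : ℂ) ≠ 0 := by exact_mod_cast hM
      push_cast at hM' ⊢
      field_simp
      ring
    have a0 : acc m (emb m (c + t • d) d (y t)).1 0 = cm m (FA m a b) (FB m a b) + FA m a b := by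
      rw [← a1]
      have e : (Finset.univ.erase (0 : Fin 3)) = {1, 2} := by decide
      have e' : (Finset.univ.erase (1 : Fin 3)) = {0, 2} := by decide
      rw [acc, acc, e, e', Finset.sum_pair (by decide), Finset.sum_pair (by decide), q0, q1, q2]
      have e1 : k + a - k = a := by ring
      have e2 : k - b - k = -b := by ring
      have e3 : k - (k + a) = -a := by ring
      have e4 : k - b - (k + a) = -(a + b) := by ring
      rw [e1, e2, e3, e4, norm_neg, norm_neg, norm_neg, FA, hA, hB, hC]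
      simp only [Complex.real_smul]
      push_cast
      ring
    have a2 : acc m (emb m (c + t • d) d (y t)).1 2 = cm m (FA m a b) (FB m a b) - FB m a b := by
      rw [← a1]
      have e : (Finset.univ.erase (2 : Fin 3)) = {0, 1} := by decide
      have e' : (Finset.univ.erase (1 : Fin 3)) = {0, 2} := by decide
      rw [acc, acc, e, e', Finset.sum_pair (by decide), Finset.sum_pair (by decide), q0, q1, q2]
      have e1 : k + a - k = a := by ring
      have e2 : k - b - k = -b := by ring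
      have e3 : k - (k - b) = b := by ring
      have e4 : k + a - (k - b) = a + b := by ring
      rw [e1, e2, e3, e4, norm_neg, FB, hA, hB, hC]
      simp only [Complex.real_smul]
      push_cast
      ring
    refine HasDerivAt.prodMk ?_ ?_
    · rw [hasDerivAt_pi]
      intro i
      fin_cases i
      · exact dk.fun_add d1
      · exact dk
      · exact dk.fun_sub d2
    · rw [hasDerivAt_pi]
      intro i
      fin_cases i
      · exact (dv.fun_add d3).congr_deriv a0.symm
      · exact dv.congr_deriv a1.symm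
      · exact (dv.fun_sub d4).congr_deriv a2.symm

/-- solutions of the softened equations which stay far from collisions give solutions of Newton's
equations -/
theorem newton {m : Fin 3 → ℝ} (hM : m 0 + m 1 + m 2 ≠ 0) {y : ℝ → E}
    (hy : ∀ t, 0 ≤ t → HasDerivAt y (fld m (y t)) t) (hf : ∀ t, 0 ≤ t → Far 0 (y t)) (c d : ℂ) :
    IsSol m (Ici 0) (fun t => emb m (c + t • d) d (y t)) := by
  intro t ht
  obtain ⟨h1, h2⟩ := newton_at hM (hy t ht) (hf t ht) c d
  exact ⟨h1, h2.hasDerivWithinAt⟩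

/-- the softened solution starting at `x` stays far from collisions and is unbounded -/
def UnbE (m : Fin 3 → ℝ) (x : E) : Prop :=
  ∃ y : ℝ → E, y 0 = x ∧ (∀ t, 0 ≤ t → HasDerivAt y (fld m (y t)) t) ∧ (∀ t, 0 ≤ t → Far 0 (y t)) ∧
    ∀ R : ℝ, ∃ t : ℝ, 0 ≤ t ∧ R < ‖(y t).1‖

theorem UnbE.unb {m : Fin 3 → ℝ} (hM : m 0 + m 1 + m 2 ≠ 0) {x : E} (h : UnbE m x) (c d : ℂ) :
    Unb m (emb m c d x) := by
  obtain ⟨y, h0, h1, h2, h3⟩ := h
  refine ⟨fun t => emb m (c + t • d) d (y t), by simp [h0], newton hM h1 h2 c d, 0, 1, fun R => ?_⟩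
  obtain ⟨t, ht, hR⟩ := h3 R
  refine ⟨t, ht, ?_⟩
  have e : (emb m (c + t • d) d (y t)).1 0 - (emb m (c + t • d) d (y t)).1 1 = (y t).1 := by
    show c + t • d + cm m (y t).1 (y t).2.1 + (y t).1 - (c + t • d + cm m (y t).1 (y t).2.1) = _
    ring
  rw [e]
  exact hR

/-- a dense set of unbounded solutions in relative coordinates gives a dense set in phase space -/
theorem unb_of_unbE {m : Fin 3 → ℝ} (hM : m 0 + m 1 + m 2 ≠ 0) {z : Ph}
    (h : ∀ V ∈ 𝓝 (rel z), ∃ x ∈ V, UnbE m x) : ∀ U ∈ 𝓝 z, ∃ w ∈ U, Unb m w := by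
  intro U hU
  set c := z.1 1 - cm m (z.1 0 - z.1 1) (z.1 1 - z.1 2) with hc
  set d := z.2 1 - cm m (z.2 0 - z.2 1) (z.2 1 - z.2 2) with hd
  have he : emb m c d (rel z) = z := emb_rel m z
  have hV : emb m c d ⁻¹' U ∈ 𝓝 (rel z) := by
    apply (continuous_emb m c d).continuousAt
    rw [he]; exact hU
  obtain ⟨x, hx, hx2⟩ := h _ hV
  exact ⟨_, hx, hx2.unb hM c d⟩

/-- the softened solution on `[t1, ∞)` -/
theorem unbE_of_near {ε c t1 : ℝ} {m : Fin 3 → ℝ} (hm : NearM ε m) (hε : ε ≤ 1 / 10 ^ 24)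
    (ht1 : t1 ≤ 0) {x : E} (hc : dist x (wu t1) ≤ c)
    (hce : (c + 60 * ε) * Real.exp (-(19 / 10 * t1)) ≤ 5 / 10 ^ 24) : UnbE m x := by
  have hL := fld_lip (hm.mono (hε.trans (by norm_num)))
  obtain ⟨y, hy0, hy⟩ := exists_forward (fld m) _ hL x
  have hys : ∀ t, t1 ≤ t → HasDerivAt (fun s => y (s - t1)) (fld m (y (t - t1))) t := by
    intro t ht
    have := hy (t - t1) (by linarith)
    exact this.comp_sub_const t t1
  have h := escape_wu hm hε ht1 hys (by simpa [hy0] using hc) hce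
  refine ⟨y, hy0, hy, fun t ht => ?_, fun R => ?_⟩
  · have := h.1 (t + t1) (by linarith)
    simpa using this
  · have h2 := h.2 (21 + |R| / (24 / 100)) (by
      have : 0 ≤ |R| / (24 / 100) := by positivity
      linarith)
    refine ⟨21 + |R| / (24 / 100) - t1, ?_, ?_⟩
    · have : 0 ≤ |R| / (24 / 100) := by positivity
      linarith
    · have e : (24 : ℝ) / 100 * (21 + |R| / (24 / 100) - 21) = |R| := by field_simp; ring
      rw [e] at h2
      have := le_abs_self R
      linarith

end Pool.Agent.T9h50.TB
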