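import Pool.Agent.T9h50.TB.Spc

/-!
# The rotating frame of a solution
-/

set_option autoImplicit false
set_option exponentiation.threshold 2000

open scoped NNReal ComplexConjugate Topology
open Complex Set Filter

namespace Pool.Agent.T9h50.TB

lemma evR_two (l : List Int) {s : ℝ} (h0 : 0 ≤ s) (h1 : s ≤ 1) :
    |evR l s - evR l 0 - s * dR l 0| ≤ nrm l * s ^ 2 := by
  match l with
  | [] => simp [evR, dR, nrm]
  | [a] => simp [evR, dR]; positivity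
  | a :: b :: p =>
    have e : evR (a :: b :: p) s - evR (a :: b :: p) 0 - s * dR (a :: b :: p) 0 = s ^ 2 * evR p s := by
      simp only [evR, dR]; ring
    rw [e, abs_mul, abs_of_nonneg (sq_nonneg s), mul_comm]
    have h2 := abs_evR_le p h0 h1
    have h3 : (nrm p : ℝ) ≤ nrm (a :: b :: p) := by
      rw [nrm_cons, nrm_cons]; push_cast
      have := Nat.cast_nonneg (α := ℝ) a.natAbs
      have := Nat.cast_nonneg (α := ℝ) b.natAbs
      linarith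
    have := sq_nonneg s
    nlinarith

lemma dR_lin (l : List Int) : dR (lin 0 l) 0 = dR l 0 := by
  cases l with
  | nil => rfl
  | cons a p =>
    have e : dR (lin 0 (a :: p)) 0 = evR (lin 1 p) 0 + 0 * dR (lin 1 p) 0 := rfl
    rw [e, evR_lin, dR]; push_cast; ring

lemma small_q {l : List Int} (h : nrm l ≤ 2 ^ 102) {s a b : ℝ} (h0 : 0 ≤ s) (h1 : s ≤ 1)
    (ha : evR l 0 = a * SQR) (hb : dR l 0 = b * SQR) : |evR l s / SQR - a - s * b| ≤ 64 * s ^ 2 := by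
  have hS := SQR_pos
  have e : evR l s / SQR - a - s * b = (evR l s - evR l 0 - s * dR l 0) / SQR := by
    rw [ha, hb]; field_simp
  rw [e, abs_div, abs_of_pos hS, div_le_iff₀ hS]
  refine (evR_two l h0 h1).trans ?_
  have h2 : (nrm l : ℝ) ≤ 2 ^ 102 := by exact_mod_cast h
  have h3 : (2 : ℝ) ^ 102 ≤ 64 * SQR := by rw [SQR]; norm_num
  have h4 : (nrm l : ℝ) ≤ 64 * SQR := h2.trans h3
  calc (nrm l : ℝ) * s ^ 2 ≤ 64 * SQR * s ^ 2 := by gcongr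
    _ = 64 * s ^ 2 * SQR := by ring

lemma cq_two {x y : List Int} (nx : nrm x ≤ 2 ^ 102) (ny : nrm y ≤ 2 ^ 102) {s a b c : ℝ}
    (h0 : 0 ≤ s) (h1 : s ≤ 1) (xa : evR x 0 = a * SQR) (xb : dR x 0 = b * SQR)
    (ya : evR y 0 = 0) (yb : dR y 0 = c * SQR) :
    ‖cq x y s - (a : ℂ) - s • (⟨b, om * c⟩ : ℂ)‖ ≤ 256 * s ^ 2 := by
  have k1 := small_q nx h0 h1 xa xb
  have k2 := small_q ny (a := 0) (b := c) h0 h1 (by rw [ya]; ring) yb
  have ho := om_pos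
  have ho1 := om_lt
  have e : cq x y s - (a : ℂ) - s • (⟨b, om * c⟩ : ℂ) =
      ⟨evR x s / SQR - a - s * b, om * (evR y s / SQR - 0 - s * c)⟩ := by
    apply Complex.ext
    · simp only [cq, Complex.sub_re, Complex.smul_re, smul_eq_mul, Complex.ofReal_re]
    · simp only [cq, Complex.sub_im, Complex.smul_im, smul_eq_mul, Complex.ofReal_im]; ring
  rw [e]
  have h2 : 0 ≤ s ^ 2 := sq_nonneg s
  refine (norm_mk_le (c := 64 * s ^ 2) k1 ?_).trans (by linarith)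
  rw [abs_mul, abs_of_pos ho]
  nlinarith [abs_nonneg (evR y s / SQR - 0 - s * c)]

lemma cq1_two {x y : List Int} (nx : nrm x ≤ 2 ^ 102) (ny : nrm y ≤ 2 ^ 102)
    (nlx : nrm (lin 0 x) ≤ 2 ^ 102) (nly : nrm (lin 0 y) ≤ 2 ^ 102) {s a b c : ℝ}
    (h0 : 0 ≤ s) (h1 : s ≤ 1) (xa : evR x 0 = a * SQR) (xb : dR x 0 = b * SQR)
    (ya : evR y 0 = 0) (yb : dR y 0 = c * SQR) :
    ‖cq1 x y s - a * (I * om) - s • (⟨b - 4 / 11 * c, om * (c + b)⟩ : ℂ)‖ ≤ 256 * s ^ 2 := by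
  have k1 := small_q nx h0 h1 xa xb
  have k2 := small_q ny (a := 0) (b := c) h0 h1 (by rw [ya]; ring) yb
  have k3 := small_q nlx (a := 0) (b := b) h0 h1 (by rw [evR_lin]; push_cast; ring) (by rw [dR_lin, xb])
  have k4 := small_q nly (a := 0) (b := c) h0 h1 (by rw [evR_lin]; push_cast; ring) (by rw [dR_lin, yb])
  have ho := om_pos
  have ho1 := om_lt
  have h2 : 0 ≤ s ^ 2 := sq_nonneg s
  have e : cq1 x y s - a * (I * om) - s • (⟨b - 4 / 11 * c, om * (c + b)⟩ : ℂ) =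
      ⟨(evR (lin 0 x) s / SQR - 0 - s * b) - 4 / 11 * (evR y s / SQR - 0 - s * c),
        om * ((evR (lin 0 y) s / SQR - 0 - s * c) + (evR x s / SQR - a - s * b))⟩ := by
    apply Complex.ext
    · simp only [cq1, Complex.sub_re, Complex.smul_re, smul_eq_mul, Complex.mul_re, Complex.mul_im,
        Complex.I_re, Complex.I_im, Complex.ofReal_re, Complex.ofReal_im]; ring
    · simp only [cq1, Complex.sub_im, Complex.smul_im, smul_eq_mul, Complex.mul_re, Complex.mul_im,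
        Complex.I_re, Complex.I_im, Complex.ofReal_re, Complex.ofReal_im]; ring
  rw [e]
  refine (norm_mk_le (c := 128 * s ^ 2) ?_ ?_).trans (by linarith)
  · obtain ⟨a1, a2⟩ := abs_le.1 k3
    obtain ⟨b1, b2⟩ := abs_le.1 k2
    rw [abs_le]; constructor <;> linarith
  · rw [abs_mul, abs_of_pos ho]
    have : |(evR (lin 0 y) s / SQR - 0 - s * c) + (evR x s / SQR - a - s * b)| ≤ 128 * s ^ 2 :=
      (abs_add_le _ _).trans (by linarith)
    nlinarith [abs_nonneg ((evR (lin 0 y) s / SQR - 0 - s * c) + (evR x s / SQR - a - s * b))]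

lemma nrm_bounds : (nrm QxA ≤ 2 ^ 102 ∧ nrm QyA ≤ 2 ^ 102 ∧ nrm QxB ≤ 2 ^ 102 ∧ nrm QyB ≤ 2 ^ 102) ∧
    (nrm (lin 0 QxA) ≤ 2 ^ 102 ∧ nrm (lin 0 QyA) ≤ 2 ^ 102 ∧ nrm (lin 0 QxB) ≤ 2 ^ 102 ∧
      nrm (lin 0 QyB) ≤ 2 ^ 102) := by
  have hn := q_n
  simp only [nQ, Bool.and_eq_true] at hn
  obtain ⟨nxa, nya, nxb, nyb, sxa, sya, sxb, syb, lxa, lya, lxb, lyb, -⟩ := hn
  have p1 : (2 : ℕ) ^ 97 ≤ 2 ^ 102 := Nat.pow_le_pow_right (by norm_num) (by norm_num)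
  have p2 : (2 : ℕ) ^ 98 ≤ 2 ^ 102 := Nat.pow_le_pow_right (by norm_num) (by norm_num)
  exact ⟨⟨(Nat.le_of_ble_eq_true nxa).trans p1, (Nat.le_of_ble_eq_true nya).trans p1,
    (Nat.le_of_ble_eq_true nxb).trans p2, (Nat.le_of_ble_eq_true nyb).trans p2⟩,
    Nat.le_of_ble_eq_true lxa, Nat.le_of_ble_eq_true lya, Nat.le_of_ble_eq_true lxb,
    Nat.le_of_ble_eq_true lyb⟩

lemma wz_two {s : ℝ} (h0 : 0 ≤ s) (h1 : s ≤ 1) : ‖wz s - xre - s • w1‖ ≤ 256 * s ^ 2 := by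
  obtain ⟨⟨n1, n2, n3, n4⟩, n5, n6, n7, n8⟩ := nrm_bounds
  have h2 : 0 ≤ s ^ 2 := sq_nonneg s
  have e : ∀ (a : ℤ) (p : List Int), evR (a :: p) 0 = a := fun a p => by simp [evR]
  have ed : ∀ (a b : ℤ) (p : List Int), dR (a :: b :: p) 0 = b := fun a b p => by simp [evR, dR]
  have a1 : evR QxA 0 = 1 * SQR := by rw [QxA, e, SQR]; norm_num
  have a2 : evR QyA 0 = 0 := by rw [QyA, e]; norm_num
  have a3 : evR QxB 0 = 2 * SQR := by rw [QxB, e, SQR]; norm_num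
  have a4 : evR QyB 0 = 0 := by rw [QyB, e]; norm_num
  have b1 : dR QxA 0 = 1 / 20 * SQR := by rw [QxA, ed, SQR]; norm_num
  have b2 : dR QyA 0 = -(11 / 160) * SQR := by rw [QyA, ed, SQR]; norm_num
  have b3 : dR QxB 0 = -(1079 / 186010) * SQR := by rw [QxB, ed, SQR]; norm_num
  have b4 : dR QyB 0 = 1079 / 135280 * SQR := by rw [QyB, ed, SQR]; norm_num
  have p1 := cq_two n1 n2 h0 h1 a1 b1 a2 b2
  have p2 := cq_two n3 n4 h0 h1 a3 b3 a4 b4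
  have p3 := cq1_two n1 n2 n5 n6 h0 h1 a1 b1 a2 b2
  have p4 := cq1_two n3 n4 n7 n8 h0 h1 a3 b3 a4 b4
  have hs' : ∀ z : ℂ, ‖z‖ ≤ 256 * s ^ 2 → ‖sg⁻¹ • z‖ ≤ 256 * s ^ 2 := fun z hz => by
    rw [norm_smul, Real.norm_of_nonneg (inv_pos.2 sg_pos).le, sg]
    norm_num at hz h2 ⊢
    linarith
  rw [Prod.norm_def, Prod.norm_def, Prod.norm_def]
  refine max_le ?_ (max_le ?_ (max_le ?_ ?_))
  · refine le_trans (le_of_eq ?_) p1
    congr 1
  · refine le_trans (le_of_eq ?_) p2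
    congr 1
  · refine le_trans (le_of_eq ?_) (hs' _ p3)
    congr 1
    show sg⁻¹ • cq1 QxA QyA s - sg⁻¹ • (I * om) - s • (sg⁻¹ • _) = _
    rw [smul_comm s, ← smul_sub, ← smul_sub, Complex.ofReal_one, one_mul]
  · refine le_trans (le_of_eq ?_) (hs' _ p4)
    congr 1
    show sg⁻¹ • cq1 QxB QyB s - sg⁻¹ • (2 * (I * om)) - s • (sg⁻¹ • _) = _
    rw [smul_comm s, ← smul_sub, ← smul_sub]
    rfl

/-- the dependence on the masses -/
lemma fld_mass {κ : ℝ} {m : Fin 3 → ℝ} (hm : NearM κ m) (x y : E) :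
    ‖(fld m x - fld m y) - (fld mh x - fld mh y)‖ ≤ 6 * κ * ‖x - y‖ := by
  have h0 := hm 0
  have h1 := hm 1
  have h2 := hm 2
  have hκ : 0 ≤ κ := (abs_nonneg _).trans h0
  set r := ‖x - y‖ with hr
  have hr0 : 0 ≤ r := norm_nonneg _
  have n1 : ‖x.1 - y.1‖ ≤ r := norm_fst_le (x - y)
  have n2 : ‖x.2.1 - y.2.1‖ ≤ r := (norm_fst_le (x - y).2).trans (norm_snd_le (x - y))
  have hab : ‖x.1 + x.2.1 - (y.1 + y.2.1)‖ ≤ 2 * r := by
    have : x.1 + x.2.1 - (y.1 + y.2.1) = (x.1 - y.1) + (x.2.1 - y.2.1) := by ring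
    rw [this]
    exact (norm_add_le _ _).trans (by linarith)
  have hA : ‖kd dA x.1 - kd dA y.1‖ ≤ 2.41 * r := by
    refine (kd_lip dA_pos _ _).trans ?_
    calc 2 / dA ^ 3 * ‖x.1 - y.1‖ ≤ 2 / dA ^ 3 * r := by
          have := dA_pos; gcongr
      _ ≤ 2.41 * r := by
          apply mul_le_mul_of_nonneg_right _ hr0
          unfold dA; norm_num
  have hB : ‖kd dB x.2.1 - kd dB y.2.1‖ ≤ 0.54 * r := by
    refine (kd_lip dB_pos _ _).trans ?_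
    calc 2 / dB ^ 3 * ‖x.2.1 - y.2.1‖ ≤ 2 / dB ^ 3 * r := by
          have := dB_pos; gcongr
      _ ≤ 0.54 * r := by
          apply mul_le_mul_of_nonneg_right _ hr0
          unfold dB; norm_num
  have hC : ‖kd dC (x.1 + x.2.1) - kd dC (y.1 + y.2.1)‖ ≤ 0.17 * r := by
    refine (kd_lip dC_pos _ _).trans ?_
    calc 2 / dC ^ 3 * ‖x.1 + x.2.1 - (y.1 + y.2.1)‖ ≤ 2 / dC ^ 3 * (2 * r) := by
          have := dC_pos; gcongr
      _ = (4 / dC ^ 3) * r := by ring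
      _ ≤ 0.17 * r := by
          apply mul_le_mul_of_nonneg_right _ hr0
          unfold dC; norm_num
  have h01 : |(m 0 - mh 0) + (m 1 - mh 1)| ≤ 2 * κ := (abs_add_le _ _).trans (by linarith)
  have h12 : |(m 1 - mh 1) + (m 2 - mh 2)| ≤ 2 * κ := (abs_add_le _ _).trans (by linarith)
  have tA : ‖(FA m x.1 x.2.1 - FA m y.1 y.2.1) - (FA mh x.1 x.2.1 - FA mh y.1 y.2.1)‖ ≤ 6 * κ * r := by
    have e : (FA m x.1 x.2.1 - FA m y.1 y.2.1) - (FA mh x.1 x.2.1 - FA mh y.1 y.2.1) =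
        -(((m 0 - mh 0) + (m 1 - mh 1) : ℝ) • (kd dA x.1 - kd dA y.1)) -
        ((m 2 - mh 2 : ℝ) • (kd dC (x.1 + x.2.1) - kd dC (y.1 + y.2.1))) +
        (m 2 - mh 2 : ℝ) • (kd dB x.2.1 - kd dB y.2.1) := by
      simp only [FA, sub_smul, add_smul, smul_sub]; abel
    rw [e]
    calc _ ≤ ‖((m 0 - mh 0) + (m 1 - mh 1) : ℝ) • (kd dA x.1 - kd dA y.1)‖ +
        ‖(m 2 - mh 2 : ℝ) • (kd dC (x.1 + x.2.1) - kd dC (y.1 + y.2.1))‖ +
        ‖(m 2 - mh 2 : ℝ) • (kd dB x.2.1 - kd dB y.2.1)‖ := by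
          refine (norm_add_le _ _).trans ?_
          gcongr
          refine (norm_sub_le _ _).trans ?_
          rw [norm_neg]
      _ ≤ 2 * κ * (2.41 * r) + κ * (0.17 * r) + κ * (0.54 * r) := by
          rw [norm_smul, norm_smul, norm_smul, Real.norm_eq_abs, Real.norm_eq_abs]
          gcongr
      _ ≤ 6 * κ * r := by
          have : 0 ≤ κ * r := mul_nonneg hκ hr0
          norm_num at this ⊢
          linarith
  have tB : ‖(FB m x.1 x.2.1 - FB m y.1 y.2.1) - (FB mh x.1 x.2.1 - FB mh y.1 y.2.1)‖ ≤ 6 * κ * r := by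
    have e : (FB m x.1 x.2.1 - FB m y.1 y.2.1) - (FB mh x.1 x.2.1 - FB mh y.1 y.2.1) =
        ((m 0 - mh 0 : ℝ) • (kd dA x.1 - kd dA y.1)) -
        ((m 0 - mh 0 : ℝ) • (kd dC (x.1 + x.2.1) - kd dC (y.1 + y.2.1))) -
        ((m 1 - mh 1) + (m 2 - mh 2) : ℝ) • (kd dB x.2.1 - kd dB y.2.1) := by
      simp only [FB, sub_smul, add_smul, smul_sub]; abel
    rw [e]
    calc _ ≤ ‖(m 0 - mh 0 : ℝ) • (kd dA x.1 - kd dA y.1)‖ +
        ‖(m 0 - mh 0 : ℝ) • (kd dC (x.1 + x.2.1) - kd dC (y.1 + y.2.1))‖ +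
        ‖((m 1 - mh 1) + (m 2 - mh 2) : ℝ) • (kd dB x.2.1 - kd dB y.2.1)‖ := by
          refine (norm_sub_le _ _).trans ?_
          gcongr
          exact norm_sub_le _ _
      _ ≤ κ * (2.41 * r) + κ * (0.17 * r) + 2 * κ * (0.54 * r) := by
          rw [norm_smul, norm_smul, norm_smul, Real.norm_eq_abs, Real.norm_eq_abs]
          gcongr
      _ ≤ 6 * κ * r := by
          have : 0 ≤ κ * r := mul_nonneg hκ hr0
          norm_num at this ⊢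
          linarith
  have hs' : ∀ z : ℂ, ‖z‖ ≤ 6 * κ * r → ‖sg⁻¹ • z‖ ≤ 6 * κ * r := fun z hz => by
    rw [norm_smul, Real.norm_of_nonneg (inv_pos.2 sg_pos).le, sg]
    have : 0 ≤ κ * r := mul_nonneg hκ hr0
    norm_num at hz ⊢
    linarith
  have hpos : 0 ≤ 6 * κ * r := by positivity
  rw [Prod.norm_def, Prod.norm_def, Prod.norm_def]
  refine max_le ?_ (max_le ?_ (max_le ?_ ?_))
  · show ‖(sg • x.2.2.1 - sg • y.2.2.1) - (sg • x.2.2.1 - sg • y.2.2.1)‖ ≤ _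
    rw [sub_self, norm_zero]; exact hpos
  · show ‖(sg • x.2.2.2 - sg • y.2.2.2) - (sg • x.2.2.2 - sg • y.2.2.2)‖ ≤ _
    rw [sub_self, norm_zero]; exact hpos
  · show ‖(sg⁻¹ • FA m x.1 x.2.1 - sg⁻¹ • FA m y.1 y.2.1) - (sg⁻¹ • FA mh x.1 x.2.1 - sg⁻¹ • FA mh y.1 y.2.1)‖ ≤ _
    rw [← smul_sub, ← smul_sub, ← smul_sub]
    exact hs' _ tA
  · show ‖(sg⁻¹ • FB m x.1 x.2.1 - sg⁻¹ • FB m y.1 y.2.1) - (sg⁻¹ • FB mh x.1 x.2.1 - sg⁻¹ • FB mh y.1 y.2.1)‖ ≤ _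
    rw [← smul_sub, ← smul_sub, ← smul_sub]
    exact hs' _ tB

lemma fld_rot (m : Fin 3 → ℝ) {u : ℂ} (hu : ‖u‖ = 1) (x : E) : fld m (u • x) = u • fld m x := by
  have c : ∀ (r : ℝ) (z : ℂ), r • (u * z) = u * (r • z) := fun r z => by
    simp only [Complex.real_smul]; ring
  refine Prod.ext ?_ (Prod.ext ?_ (Prod.ext ?_ ?_))
  · exact c _ _
  · exact c _ _
  · show sg⁻¹ • FA m (u * x.1) (u * x.2.1) = u * (sg⁻¹ • FA m x.1 x.2.1)
    rw [FA_rot m hu, c]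
  · show sg⁻¹ • FB m (u * x.1) (u * x.2.1) = u * (sg⁻¹ • FB m x.1 x.2.1)
    rw [FB_rot m hu, c]

lemma norm_rotE {u : ℂ} (hu : ‖u‖ = 1) (x : E) : ‖u • x‖ = ‖x‖ := by
  rw [norm_smul, hu, one_mul]

lemma Far.rot {δ : ℝ} {x : E} {u : ℂ} (hu : ‖u‖ = 1) (h : Far δ (u • x)) : Far δ x := by
  obtain ⟨h1, h2, h3⟩ := h
  have e1 : ‖(u • x).1‖ = ‖x.1‖ := by
    show ‖u * x.1‖ = _
    rw [norm_mul, hu, one_mul]
  have e2 : ‖(u • x).2.1‖ = ‖x.2.1‖ := by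
    show ‖u * x.2.1‖ = _
    rw [norm_mul, hu, one_mul]
  have e3 : ‖(u • x).1 + (u • x).2.1‖ = ‖x.1 + x.2.1‖ := by
    show ‖u * x.1 + u * x.2.1‖ = _
    rw [← mul_add, norm_mul, hu, one_mul]
  rw [e1] at h1
  rw [e3] at h2
  rw [e2] at h3
  exact ⟨h1, h2, h3⟩

/-- the unit vector in the direction of the conjugate -/
noncomputable def uv (b : ℂ) : ℂ := ((1 / ‖b‖ : ℝ) : ℂ) * conj b

lemma norm_uv {b : ℂ} (hb : b ≠ 0) : ‖uv b‖ = 1 := by
  have h : 0 < ‖b‖ := norm_pos_iff.2 hb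
  rw [uv, norm_mul, Complex.norm_real, Real.norm_of_nonneg (by positivity), Complex.norm_conj]
  field_simp

lemma hasDerivAt_uv {b : ℝ → ℂ} {b' : ℂ} {t : ℝ} (hb : HasDerivAt b b' t) (h0 : b t ≠ 0) :
    HasDerivAt (fun s => uv (b s)) (-(I * (dtm (b t) b' / ‖b t‖ ^ 2 : ℝ)) * uv (b t)) t := by
  have hr : 0 < ‖b t‖ := norm_pos_iff.2 h0
  have h1 := (hasDerivAt_inv_norm hb h0).ofReal_comp
  have h2 : HasDerivAt (fun s => conj (b s)) (conj b') t :=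
    (Complex.conjCLE.toContinuousLinearMap.hasFDerivAt (x := b t)).comp_hasDerivAt t hb
  refine (h1.fun_mul h2).congr_deriv ?_
  have hr2 : ‖b t‖ ^ 2 = (b t).re * (b t).re + (b t).im * (b t).im := by rw [← ip_self, ip]
  set r := ‖b t‖ with hrr
  have e1 : ((-ip (b t) b' / r ^ 3 : ℝ) : ℂ) * conj (b t) + ((1 / r : ℝ) : ℂ) * conj b' =
      ((1 / r ^ 3 : ℝ) : ℂ) * (-(ip (b t) b' : ℂ) * conj (b t) + ((r ^ 2 : ℝ) : ℂ) * conj b') := by
    have : (r : ℂ) ≠ 0 := by exact_mod_cast hr.ne'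
    push_cast
    field_simp
  have e2 : -(I * (dtm (b t) b' / r ^ 2 : ℝ)) * uv (b t) =
      ((1 / r ^ 3 : ℝ) : ℂ) * (-(I * dtm (b t) b') * conj (b t)) := by
    have : (r : ℂ) ≠ 0 := by exact_mod_cast hr.ne'
    rw [uv, ← hrr]
    push_cast
    field_simp
  rw [e1, e2, hr2]
  congr 1
  apply Complex.ext
  · simp only [ip, dtm, Complex.add_re, Complex.mul_re, Complex.mul_im, Complex.neg_re, Complex.neg_im,
      Complex.conj_re, Complex.conj_im, Complex.ofReal_re, Complex.ofReal_im, Complex.I_re, Complex.I_im]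
    ring
  · simp only [ip, dtm, Complex.add_im, Complex.mul_re, Complex.mul_im, Complex.neg_re, Complex.neg_im,
      Complex.conj_re, Complex.conj_im, Complex.ofReal_re, Complex.ofReal_im, Complex.I_re, Complex.I_im]
    ring

end Pool.Agent.T9h50.TB
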