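import Pool.Agent.T9h50.TB.Rep

/-!
# Soundness of the checks for one step
-/

set_option autoImplicit false
set_option exponentiation.threshold 2000

namespace Pool.Agent.T9h50.TB

/-- what the checks prove about the polynomials of a step -/
structure Good (DG DR : Nat) (L : Ls) : Prop where
  ga0 : ∀ x : ℝ, 0 ≤ x → x ≤ 1 → 0 < evR L.ga x
  gc0 : ∀ x : ℝ, 0 ≤ x → x ≤ 1 → 0 < evR L.gc x
  gb0 : ∀ x : ℝ, 0 ≤ x → x ≤ 1 → 0 < evR L.gb x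
  ga1 : ∀ x : ℝ, 0 ≤ x → x ≤ 1 → evR L.ga x * 941 ≤ 1000 * 2 ^ 96
  gc1 : ∀ x : ℝ, 0 ≤ x → x ≤ 1 → evR L.gc x * 2901 ≤ 1000 * 2 ^ 96
  gb1 : ∀ x : ℝ, 0 ≤ x → x ≤ 1 → evR L.gb x * 1551 ≤ 1000 * 2 ^ 96
  ea : ∀ x : ℝ, 0 ≤ x → x ≤ 1 →
    |evR L.ga x * evR L.ga x * (evR L.ax x * evR L.ax x + evR L.ay x * evR L.ay x) - 2 ^ 384| ≤ 104 * (DG : ℝ)
  ec : ∀ x : ℝ, 0 ≤ x → x ≤ 1 →
    |evR L.gc x * evR L.gc x * ((evR L.ax x + evR L.bx x) * (evR L.ax x + evR L.bx x) +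
      (evR L.ay x + evR L.bt x) * (evR L.ay x + evR L.bt x)) - 2 ^ 384| ≤ 104 * (DG : ℝ)
  eb : ∀ x : ℝ, 0 ≤ x → x ≤ 1 →
    |evR L.gb x * evR L.gb x * (evR L.bx x * evR L.bx x + evR L.bt x * evR L.bt x) - 2 ^ 384| ≤ 104 * (DG : ℝ)
  rax : ∀ x : ℝ, 0 ≤ x → x ≤ 1 →
    |230912 * 2 ^ 288 * ddR L.ax x - (35244 * (evR L.bx x * (evR L.gb x * evR L.gb x * evR L.gb x) -
      (evR L.ax x + evR L.bx x) * (evR L.gc x * evR L.gc x * evR L.gc x)) -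
      10143 * (evR L.ax x * (evR L.ga x * evR L.ga x * evR L.ga x)))| ≤ 104 * (DR : ℝ)
  ray : ∀ x : ℝ, 0 ≤ x → x ≤ 1 →
    |230912 * 2 ^ 288 * ddR L.ay x - (35244 * (evR L.bt x * (evR L.gb x * evR L.gb x * evR L.gb x) -
      (evR L.ay x + evR L.bt x) * (evR L.gc x * evR L.gc x * evR L.gc x)) -
      10143 * (evR L.ay x * (evR L.ga x * evR L.ga x * evR L.ga x)))| ≤ 104 * (DR : ℝ)
  rbx : ∀ x : ℝ, 0 ≤ x → x ≤ 1 →
    |230912 * 2 ^ 288 * ddR L.bx x - (747 * (evR L.ax x * (evR L.ga x * evR L.ga x * evR L.ga x) -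
      (evR L.ax x + evR L.bx x) * (evR L.gc x * evR L.gc x * evR L.gc x)) -
      44640 * (evR L.bx x * (evR L.gb x * evR L.gb x * evR L.gb x)))| ≤ 104 * (DR : ℝ)
  rby : ∀ x : ℝ, 0 ≤ x → x ≤ 1 →
    |230912 * 2 ^ 288 * ddR L.bt x - (747 * (evR L.ay x * (evR L.ga x * evR L.ga x * evR L.ga x) -
      (evR L.ay x + evR L.bt x) * (evR L.gc x * evR L.gc x * evR L.gc x)) -
      44640 * (evR L.bt x * (evR L.gb x * evR L.gb x * evR L.gb x)))| ≤ 104 * (DR : ℝ)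

lemma g_pos {l : List Int} (h : Nat.blt (nrm l) (Int.toNat (Int.mul 2 (l.headD 0))) = true) (x : ℝ)
    (h0 : 0 ≤ x) (h1 : x ≤ 1) : 0 < evR l x := by
  have h' : nrm l < (2 * (l.headD 0)).toNat := by
    have := Nat.le_of_ble_eq_true h
    exact this
  cases l with
  | nil => simp [nrm] at h'
  | cons a p =>
    rw [nrm_cons, List.headD_cons] at h'
    have ha : (nrm p : ℤ) < a := by omega
    have hp := abs_evR_le p h0 h1
    rw [evR]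
    have h2 : -(nrm p : ℝ) ≤ x * evR p x := by
      have := (abs_le.1 hp).1
      have h3 := (abs_le.1 hp).2
      nlinarith
    have h4 : (nrm p : ℝ) < a := by exact_mod_cast ha
    linarith

lemma g_le {l : List Int} {c : ℕ}
    (h : Nat.ble (Nat.mul (nrm l) c) (Nat.mul 1000 (Nat.pow 2 96)) = true) (x : ℝ)
    (h0 : 0 ≤ x) (h1 : x ≤ 1) : evR l x * c ≤ 1000 * 2 ^ 96 := by
  have h' : nrm l * c ≤ 1000 * 2 ^ 96 := Nat.le_of_ble_eq_true h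
  have h2 : evR l x ≤ nrm l := (le_abs_self _).trans (abs_evR_le l h0 h1)
  have h3 : (nrm l : ℝ) * c ≤ 1000 * 2 ^ 96 := by exact_mod_cast h'
  have : (0 : ℝ) ≤ c := Nat.cast_nonneg _
  nlinarith

lemma two_pow_lt_XN : 2 ^ 430 * 2 < XN := by
  rw [XN_eq, ← pow_succ]
  exact Nat.pow_lt_pow_right (by norm_num) (by norm_num)

lemma S3_cast : S3 = 2 ^ 288 := rfl
lemma S4_cast : S4 = 2 ^ 384 := rfl

/-- soundness of the residual check -/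
lemma chkR_sound {D : ℕ} {l : List Int} {F : ℤ} {B : ℕ} {f : ℝ → ℝ} (hF : Rep F B f) (hB : B ≤ 2 ^ 420)
    (hD : 2 * D < XN) (h : chkR D l F = true) (x : ℝ) (h0 : 0 ≤ x) (h1 : x ≤ 1) :
    |230912 * 2 ^ 288 * ddR l x - f x| ≤ 104 * (D : ℝ) := by
  rw [chkR, Bool.and_eq_true] at h
  obtain ⟨h2, h3⟩ := h
  have h2' : nrm (der2 0 (l.drop 2)) ≤ 2 ^ 112 := Nat.le_of_ble_eq_true h2
  have r1 := Rep.list (der2 0 (l.drop 2)) h2'
  have r2 := r1.smul (230912 * S3)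
  have r3 := r2.sub hF
  have hb := r3.bound (B := _) (D := D) ?_ hD h3 h0 h1
  · rw [ddR_eq]
    have e : ((230912 * S3 : ℤ) : ℝ) = 230912 * 2 ^ 288 := by rw [S3_cast]; push_cast; ring
    rw [e] at hb
    exact hb
  · have h4 : (230912 * S3).natAbs = 230912 * 2 ^ 288 := by
      rw [S3_cast]
      norm_num [Int.natAbs_mul]
    rw [h4]
    have h5 : 230912 * 2 ^ 288 * 2 ^ 112 + B ≤ 2 ^ 430 := by
      have : 230912 * 2 ^ 288 * 2 ^ 112 + 2 ^ 420 ≤ (2 : ℕ) ^ 430 := by norm_num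
      omega
    have := two_pow_lt_XN
    omega

/-- soundness of the check of the inverse distances -/
lemma chkG_sound {D : ℕ} {G U V : ℤ} {g u v : ℝ → ℝ} (hG : Rep G (2 ^ 98) g) (hU : Rep U (2 ^ 103) u)
    (hV : Rep V (2 ^ 103) v) (hD : 2 * D < XN)
    (h : chk D (Int.sub (Int.mul (Int.mul G G) (Int.add (Int.mul U U) (Int.mul V V))) S4) = true)
    (x : ℝ) (h0 : 0 ≤ x) (h1 : x ≤ 1) :
    |g x * g x * (u x * u x + v x * v x) - 2 ^ 384| ≤ 104 * (D : ℝ) := by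
  have r1 := (hG.mul hG).mul ((hU.mul hU).add (hV.mul hV))
  have r2 := r1.sub (Rep.const S4)
  have hb := r2.bound (B := _) (D := D) ?_ hD h h0 h1
  · have e : ((S4 : ℤ) : ℝ) = 2 ^ 384 := by rw [S4_cast]; push_cast; ring
    rw [e] at hb
    exact hb
  · have h4 : S4.natAbs = 2 ^ 384 := by rw [S4_cast]; rfl
    rw [h4]
    have h5 : 2 ^ 98 * 2 ^ 98 * (2 ^ 103 * 2 ^ 103 + 2 ^ 103 * 2 ^ 103) + 2 ^ 384 ≤ (2 : ℕ) ^ 430 := by
      norm_num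
    have := two_pow_lt_XN
    omega

theorem chkL_sound {DG DR : ℕ} (hDG : 2 * DG < XN) (hDR : 2 * DR < XN) {L : Ls}
    (h : chkL DG DR L = true) : Good DG DR L := by
  simp only [chkL, fI_eq, Bool.and_eq_true, chkB] at h
  obtain ⟨⟨nax, nay, nbx, nby, nga, ngc, ngb, pga, pgc, pgb⟩, ea, ec, eb, rax, ray, rbx, rby⟩ := h
  have nax' : nrm L.ax ≤ 2 ^ 102 := Nat.le_of_ble_eq_true nax
  have nay' : nrm L.ay ≤ 2 ^ 102 := Nat.le_of_ble_eq_true nay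
  have nbx' : nrm L.bx ≤ 2 ^ 102 := Nat.le_of_ble_eq_true nbx
  have nby' : nrm L.bt ≤ 2 ^ 102 := Nat.le_of_ble_eq_true nby
  have nga' : nrm L.ga ≤ 2 ^ 98 := by
    have : nrm L.ga * 941 ≤ 1000 * 2 ^ 96 := Nat.le_of_ble_eq_true nga
    have e : (2 : ℕ) ^ 98 = 4 * 2 ^ 96 := by norm_num
    omega
  have ngc' : nrm L.gc ≤ 2 ^ 98 := by
    have : nrm L.gc * 2901 ≤ 1000 * 2 ^ 96 := Nat.le_of_ble_eq_true ngc
    have e : (2 : ℕ) ^ 98 = 4 * 2 ^ 96 := by norm_num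
    omega
  have ngb' : nrm L.gb ≤ 2 ^ 98 := by
    have : nrm L.gb * 1551 ≤ 1000 * 2 ^ 96 := Nat.le_of_ble_eq_true ngb
    have e : (2 : ℕ) ^ 98 = 4 * 2 ^ 96 := by norm_num
    omega
  have Rax := Rep.list L.ax nax'
  have Ray := Rep.list L.ay nay'
  have Rbx := Rep.list L.bx nbx'
  have Rby := Rep.list L.bt nby'
  have Rga := Rep.list L.ga nga'
  have Rgc := Rep.list L.gc ngc'
  have Rgb := Rep.list L.gb ngb'
  have e103 : (2 : ℕ) ^ 102 ≤ 2 ^ 103 := by norm_num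
  have e103' : (2 : ℕ) ^ 102 + 2 ^ 102 ≤ 2 ^ 103 := by norm_num
  have Rcx := (Rax.add Rbx).mono e103'
  have Rcy := (Ray.add Rby).mono e103'
  have Rga3 := (Rga.mul Rga).mul Rga
  have Rgc3 := (Rgc.mul Rgc).mul Rgc
  have Rgb3 := (Rgb.mul Rgb).mul Rgb
  have kax := Rax.mul Rga3
  have kay := Ray.mul Rga3
  have kcx := Rcx.mul Rgc3
  have kcy := Rcy.mul Rgc3
  have kbx := Rbx.mul Rgb3
  have kby := Rby.mul Rgb3
  refine ⟨g_pos pga, g_pos pgc, g_pos pgb, g_le nga, g_le ngc, g_le ngb,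
    chkG_sound Rga (Rax.mono e103) (Ray.mono e103) hDG ea, chkG_sound Rgc Rcx Rcy hDG ec,
    chkG_sound Rgb (Rbx.mono e103) (Rby.mono e103) hDG eb, ?_, ?_, ?_, ?_⟩
  · exact chkR_sound (((kbx.sub kcx).smul 35244).sub (kax.smul 10143)) (by norm_num) hDR rax
  · exact chkR_sound (((kby.sub kcy).smul 35244).sub (kay.smul 10143)) (by norm_num) hDR ray
  · exact chkR_sound (((kax.sub kcx).smul 747).sub (kbx.smul 44640)) (by norm_num) hDR rbx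
  · exact chkR_sound (((kay.sub kcy).smul 747).sub (kby.smul 44640)) (by norm_num) hDR rby

end Pool.Agent.T9h50.TB
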