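import Pool.Agent.T9h50.TB.Lin

/-!
# The spectral decomposition at the relative equilibrium
-/

set_option autoImplicit false
set_option exponentiation.threshold 2000

open scoped NNReal ComplexConjugate Topology
open Complex Set Filter

namespace Pool.Agent.T9h50.TB

/-- the linearised vector field in the rotating frame -/
noncomputable def Gm (h : E) : E := fderiv ℝ (fld mh) xre h - (I * om) • h

noncomputable def e1 (h : E) : ℝ := 2 * h.1.re - h.2.1.re
noncomputable def e2 (h : E) : ℝ := om * (2 * h.1.im - h.2.1.im)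
noncomputable def e3 (h : E) : ℝ := sg * (2 * h.2.2.1.re - h.2.2.2.re)
noncomputable def e4 (h : E) : ℝ := om * (sg * (2 * h.2.2.1.im - h.2.2.2.im))
noncomputable def x1 (h : E) : ℝ := 2158 * h.1.re + 18601 * h.2.1.re
noncomputable def x2 (h : E) : ℝ := om * (2158 * h.1.im + 18601 * h.2.1.im)
noncomputable def x3 (h : E) : ℝ := sg * (2158 * h.2.2.1.re + 18601 * h.2.2.2.re)
noncomputable def x4 (h : E) : ℝ := om * (sg * (2158 * h.2.2.1.im + 18601 * h.2.2.2.im))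

lemma Gm_1 (h : E) : (Gm h).1 = sg • h.2.2.1 - I * om * h.1 := by
  rw [Gm, fderiv_fld]; rfl
lemma Gm_2 (h : E) : (Gm h).2.1 = sg • h.2.2.2 - I * om * h.2.1 := by
  rw [Gm, fderiv_fld]; rfl
lemma Gm_3 (h : E) : (Gm h).2.2.1 = sg⁻¹ • LA h.1 h.2.1 - I * om * h.2.2.1 := by
  rw [Gm, fderiv_fld]; rfl
lemma Gm_4 (h : E) : (Gm h).2.2.2 = sg⁻¹ • LB h.1 h.2.1 - I * om * h.2.2.2 := by
  rw [Gm, fderiv_fld]; rfl

lemma reI (z : ℂ) : (I * om * z).re = -(om * z.im) := by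
  simp [Complex.mul_re, Complex.mul_im]
lemma imI (z : ℂ) : (I * om * z).im = om * z.re := by
  simp [Complex.mul_re, Complex.mul_im]

lemma LA_re (a b : ℂ) : (LA a b).re = 2 * (34345 / 43296 * a.re - 1691 / 7872 * b.re) := by
  simp only [LA, lk, mh0, mh1, mh2, Complex.add_re, Complex.sub_re, Complex.neg_re, Complex.smul_re,
    smul_eq_mul]
  ring
lemma LA_im (a b : ℂ) : (LA a b).im = -(34345 / 43296 * a.im - 1691 / 7872 * b.im) := by
  simp only [LA, lk, mh0, mh1, mh2, Complex.add_im, Complex.sub_im, Complex.neg_im, Complex.smul_im,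
    smul_eq_mul]
  ring
lemma LB_re (a b : ℂ) : (LB a b).re = 2 * (-(1079 / 21648) * a.re + 16823 / 43296 * b.re) := by
  simp only [LB, lk, mh0, mh1, mh2, Complex.add_re, Complex.sub_re, Complex.smul_re,
    smul_eq_mul]
  ring
lemma LB_im (a b : ℂ) : (LB a b).im = -(-(1079 / 21648) * a.im + 16823 / 43296 * b.im) := by
  simp only [LB, lk, mh0, mh1, mh2, Complex.add_im, Complex.sub_im, Complex.smul_im,
    smul_eq_mul]
  ring

lemma sg_mul (z : ℝ) : sg * (sg⁻¹ * z) = z := by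
  rw [← mul_assoc, mul_inv_cancel₀ sg_pos.ne', one_mul]

lemma e1_G (h : E) : e1 (Gm h) = e3 h + e2 h := by
  simp only [e1, e2, e3, Gm_1, Gm_2, Complex.sub_re, reI, Complex.smul_re, smul_eq_mul]; ring
lemma x1_G (h : E) : x1 (Gm h) = x3 h + x2 h := by
  simp only [x1, x2, x3, Gm_1, Gm_2, Complex.sub_re, reI, Complex.smul_re, smul_eq_mul]; ring
lemma e2_G (h : E) : e2 (Gm h) = e4 h - 4 / 11 * e1 h := by
  simp only [e1, e2, e4, Gm_1, Gm_2, Complex.sub_im, imI, Complex.smul_im, smul_eq_mul]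
  linear_combination -(2 * h.1.re - h.2.1.re) * om_sq
lemma x2_G (h : E) : x2 (Gm h) = x4 h - 4 / 11 * x1 h := by
  simp only [x1, x2, x4, Gm_1, Gm_2, Complex.sub_im, imI, Complex.smul_im, smul_eq_mul]
  linear_combination -(2158 * h.1.re + 18601 * h.2.1.re) * om_sq
lemma e3_G (h : E) : e3 (Gm h) = 18 / 11 * e1 h + e4 h := by
  simp only [e1, e3, e4, Gm_3, Gm_4, Complex.sub_re, reI, Complex.smul_re, smul_eq_mul, LA_re, LB_re]
  have h1 := sg_mul (2 * (34345 / 43296 * h.1.re - 1691 / 7872 * h.2.1.re))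
  have h2 := sg_mul (2 * (-(1079 / 21648) * h.1.re + 16823 / 43296 * h.2.1.re))
  linear_combination 2 * h1 - h2
lemma x3_G (h : E) : x3 (Gm h) = 8 / 11 * x1 h + x4 h := by
  simp only [x1, x3, x4, Gm_3, Gm_4, Complex.sub_re, reI, Complex.smul_re, smul_eq_mul, LA_re, LB_re]
  have h1 := sg_mul (2 * (34345 / 43296 * h.1.re - 1691 / 7872 * h.2.1.re))
  have h2 := sg_mul (2 * (-(1079 / 21648) * h.1.re + 16823 / 43296 * h.2.1.re))
  linear_combination 2158 * h1 + 18601 * h2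
lemma e4_G (h : E) : e4 (Gm h) = -(9 / 11) * e2 h - 4 / 11 * e3 h := by
  simp only [e2, e3, e4, Gm_3, Gm_4, Complex.sub_im, imI, Complex.smul_im, smul_eq_mul, LA_im, LB_im]
  have h1 := sg_mul (-(34345 / 43296 * h.1.im - 1691 / 7872 * h.2.1.im))
  have h2 := sg_mul (-(-(1079 / 21648) * h.1.im + 16823 / 43296 * h.2.1.im))
  linear_combination 2 * om * h1 - om * h2 - sg * (2 * h.2.2.1.re - h.2.2.2.re) * om_sq
lemma x4_G (h : E) : x4 (Gm h) = -(4 / 11) * x2 h - 4 / 11 * x3 h := by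
  simp only [x2, x3, x4, Gm_3, Gm_4, Complex.sub_im, imI, Complex.smul_im, smul_eq_mul, LA_im, LB_im]
  have h1 := sg_mul (-(34345 / 43296 * h.1.im - 1691 / 7872 * h.2.1.im))
  have h2 := sg_mul (-(-(1079 / 21648) * h.1.im + 16823 / 43296 * h.2.1.im))
  linear_combination 2158 * om * h1 + 18601 * om * h2 -
    sg * (2158 * h.2.2.1.re + 18601 * h.2.2.2.re) * om_sq

lemma lin_add : (∀ g h : E, e1 (g + h) = e1 g + e1 h) ∧ (∀ g h : E, e2 (g + h) = e2 g + e2 h) ∧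
    (∀ g h : E, e3 (g + h) = e3 g + e3 h) ∧ (∀ g h : E, e4 (g + h) = e4 g + e4 h) ∧
    (∀ g h : E, x1 (g + h) = x1 g + x1 h) ∧ (∀ g h : E, x2 (g + h) = x2 g + x2 h) ∧
    (∀ g h : E, x3 (g + h) = x3 g + x3 h) ∧ (∀ g h : E, x4 (g + h) = x4 g + x4 h) := by
  refine ⟨?_, ?_, ?_, ?_, ?_, ?_, ?_, ?_⟩ <;> intro g h <;>
    simp only [e1, e2, e3, e4, x1, x2, x3, x4, Prod.fst_add, Prod.snd_add, Complex.add_re,
      Complex.add_im] <;> ring

lemma lin_smul : (∀ (c : ℝ) (h : E), e1 (c • h) = c * e1 h) ∧ (∀ (c : ℝ) (h : E), e2 (c • h) = c * e2 h) ∧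
    (∀ (c : ℝ) (h : E), e3 (c • h) = c * e3 h) ∧ (∀ (c : ℝ) (h : E), e4 (c • h) = c * e4 h) ∧
    (∀ (c : ℝ) (h : E), x1 (c • h) = c * x1 h) ∧ (∀ (c : ℝ) (h : E), x2 (c • h) = c * x2 h) ∧
    (∀ (c : ℝ) (h : E), x3 (c • h) = c * x3 h) ∧ (∀ (c : ℝ) (h : E), x4 (c • h) = c * x4 h) := by
  refine ⟨?_, ?_, ?_, ?_, ?_, ?_, ?_, ?_⟩ <;> intro g h <;>
    simp only [e1, e2, e3, e4, x1, x2, x3, x4, Prod.smul_fst, Prod.smul_snd, Complex.smul_re,
      Complex.smul_im, smul_eq_mul] <;> ring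

/-- the unstable coordinate -/
noncomputable def alF (h : E) : ℝ := 12 * e1 h + 3 * e2 h + 8 * e3 h + 11 * e4 h

/-- the other coordinates -/
noncomputable def beF (h : E) : Fin 7 → ℝ :=
  ![-12 * e1 h + 3 * e2 h + 8 * e3 h - 11 * e4 h, -3 * e1 h - 22 * e4 h,
    21 / 20 * (15 * e2 h + 5 * e3 h), 6 * (4 * x1 h + 11 * x4 h), 11 * x2 h + 22 * x3 h,
    -2 * x1 h - 11 * x4 h, 3 / 2 * (2 * (x2 h + x3 h))]

noncomputable def alL : E →ₗ[ℝ] ℝ where
  toFun := alF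
  map_add' g h := by
    obtain ⟨h1, h2, h3, h4, h5, h6, h7, h8⟩ := lin_add
    simp only [alF, h1, h2, h3, h4]; ring
  map_smul' c h := by
    obtain ⟨h1, h2, h3, h4, h5, h6, h7, h8⟩ := lin_smul
    simp only [alF, h1, h2, h3, h4, RingHom.id_apply, smul_eq_mul]; ring

noncomputable def beL : E →ₗ[ℝ] (Fin 7 → ℝ) where
  toFun := beF
  map_add' g h := by
    obtain ⟨h1, h2, h3, h4, h5, h6, h7, h8⟩ := lin_add
    funext i
    fin_cases i <;> simp [beF, h1, h2, h3, h4, h5, h6, h7, h8] <;> ring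
  map_smul' c h := by
    obtain ⟨h1, h2, h3, h4, h5, h6, h7, h8⟩ := lin_smul
    funext i
    fin_cases i <;> simp [beF, h1, h2, h3, h4, h5, h6, h7, h8] <;> ring

noncomputable def al : E →L[ℝ] ℝ := LinearMap.toContinuousLinearMap alL
noncomputable def be : E →L[ℝ] (Fin 7 → ℝ) := LinearMap.toContinuousLinearMap beL

lemma al_apply (h : E) : al h = alF h := rfl
lemma be_apply (h : E) : be h = beF h := rfl

lemma al_G (h : E) : al (Gm h) = al h := by
  rw [al_apply, al_apply, alF, alF, e1_G, e2_G, e3_G, e4_G]; ring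

lemma be_G (h : E) : ‖(1 / 2 : ℝ) • be h + be (Gm h)‖ ≤ 146 / 100 * ‖be h‖ := by
  have hN := norm_nonneg (be h)
  have b : ∀ i, |be h i| ≤ ‖be h‖ := fun i => norm_le_pi_norm (be h) i
  have b0 := abs_le.1 (b 0)
  have b1 := abs_le.1 (b 1)
  have b2 := abs_le.1 (b 2)
  have b3 := abs_le.1 (b 3)
  have b4 := abs_le.1 (b 4)
  have b5 := abs_le.1 (b 5)
  have b6 := abs_le.1 (b 6)
  have c0 : be h 0 = -12 * e1 h + 3 * e2 h + 8 * e3 h - 11 * e4 h := rfl
  have c1 : be h 1 = -3 * e1 h - 22 * e4 h := rfl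
  have c2 : be h 2 = 21 / 20 * (15 * e2 h + 5 * e3 h) := rfl
  have c3 : be h 3 = 6 * (4 * x1 h + 11 * x4 h) := rfl
  have c4 : be h 4 = 11 * x2 h + 22 * x3 h := rfl
  have c5 : be h 5 = -2 * x1 h - 11 * x4 h := rfl
  have c6 : be h 6 = 3 / 2 * (2 * (x2 h + x3 h)) := rfl
  have g0 : be (Gm h) 0 = -12 * e1 (Gm h) + 3 * e2 (Gm h) + 8 * e3 (Gm h) - 11 * e4 (Gm h) := rfl
  have g1 : be (Gm h) 1 = -3 * e1 (Gm h) - 22 * e4 (Gm h) := rfl
  have g2 : be (Gm h) 2 = 21 / 20 * (15 * e2 (Gm h) + 5 * e3 (Gm h)) := rfl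
  have g3 : be (Gm h) 3 = 6 * (4 * x1 (Gm h) + 11 * x4 (Gm h)) := rfl
  have g4 : be (Gm h) 4 = 11 * x2 (Gm h) + 22 * x3 (Gm h) := rfl
  have g5 : be (Gm h) 5 = -2 * x1 (Gm h) - 11 * x4 (Gm h) := rfl
  have g6 : be (Gm h) 6 = 3 / 2 * (2 * (x2 (Gm h) + x3 (Gm h))) := rfl
  rw [e1_G, e2_G, e3_G, e4_G] at g0
  rw [e1_G, e4_G] at g1
  rw [e2_G, e3_G] at g2
  rw [x1_G, x4_G] at g3
  rw [x2_G, x3_G] at g4
  rw [x1_G, x4_G] at g5
  rw [x2_G, x3_G] at g6
  have hh : ∀ i, ((1 / 2 : ℝ) • be h + be (Gm h)) i = 1 / 2 * be h i + be (Gm h) i := fun i => rfl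
  rw [pi_norm_le_iff_of_nonneg (by positivity)]
  intro i
  rw [Real.norm_eq_abs, abs_le, hh]
  fin_cases i
  · simp only [Fin.zero_eta]; constructor <;> linarith [b0.1, b0.2]
  · simp only [Fin.mk_one]; constructor <;> linarith [b1.1, b1.2, b2.1, b2.2]
  · simp only [Fin.reduceFinMk]; constructor <;> linarith [b1.1, b1.2, b2.1, b2.2]
  · simp only [Fin.reduceFinMk]; constructor <;> linarith [b3.1, b3.2, b4.1, b4.2]
  · simp only [Fin.reduceFinMk]; constructor <;> linarith [b3.1, b3.2, b4.1, b4.2]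
  · simp only [Fin.reduceFinMk]; constructor <;> linarith [b5.1, b5.2, b6.1, b6.2]
  · simp only [Fin.reduceFinMk]; constructor <;> linarith [b5.1, b5.2, b6.1, b6.2]

lemma albe_inj (h : E) (h1 : al h = 0) (h2 : be h = 0) : h = 0 := by
  have c0 : -12 * e1 h + 3 * e2 h + 8 * e3 h - 11 * e4 h = 0 := congrFun h2 0
  have c1 : -3 * e1 h - 22 * e4 h = 0 := congrFun h2 1
  have c2 : 21 / 20 * (15 * e2 h + 5 * e3 h) = 0 := congrFun h2 2
  have c3 : 6 * (4 * x1 h + 11 * x4 h) = 0 := congrFun h2 3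
  have c4 : 11 * x2 h + 22 * x3 h = 0 := congrFun h2 4
  have c5 : -2 * x1 h - 11 * x4 h = 0 := congrFun h2 5
  have c6 : 3 / 2 * (2 * (x2 h + x3 h)) = 0 := congrFun h2 6
  have c7 : 12 * e1 h + 3 * e2 h + 8 * e3 h + 11 * e4 h = 0 := h1
  have d1 : e1 h = 0 := by linarith
  have d2 : e2 h = 0 := by linarith
  have d3 : e3 h = 0 := by linarith
  have d4 : e4 h = 0 := by linarith
  have d5 : x1 h = 0 := by linarith
  have d6 : x2 h = 0 := by linarith
  have d7 : x3 h = 0 := by linarith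
  have d8 : x4 h = 0 := by linarith
  have ho := om_pos.ne'
  have hs := sg_pos.ne'
  rw [e1] at d1
  rw [e2, mul_eq_zero, or_iff_right ho] at d2
  rw [e3, mul_eq_zero, or_iff_right hs] at d3
  rw [e4, mul_eq_zero, or_iff_right ho, mul_eq_zero, or_iff_right hs] at d4
  rw [x1] at d5
  rw [x2, mul_eq_zero, or_iff_right ho] at d6
  rw [x3, mul_eq_zero, or_iff_right hs] at d7
  rw [x4, mul_eq_zero, or_iff_right ho, mul_eq_zero, or_iff_right hs] at d8
  refine Prod.ext ?_ (Prod.ext ?_ (Prod.ext ?_ ?_))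
  · apply Complex.ext
    · show h.1.re = 0; linarith
    · show h.1.im = 0; linarith
  · apply Complex.ext
    · show h.2.1.re = 0; linarith
    · show h.2.1.im = 0; linarith
  · apply Complex.ext
    · show h.2.2.1.re = 0; linarith
    · show h.2.2.1.im = 0; linarith
  · apply Complex.ext
    · show h.2.2.2.re = 0; linarith
    · show h.2.2.2.im = 0; linarith

theorem exists_sad : ∃ C1 C2 : ℝ, Sad al be Gm C1 C2 := by
  have hker : LinearMap.ker ((al.prod be : E →L[ℝ] ℝ × (Fin 7 → ℝ)) : E →ₗ[ℝ] ℝ × (Fin 7 → ℝ)) = ⊥ := by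
    rw [LinearMap.ker_eq_bot']
    intro h hh
    have h1 : (al h, be h) = 0 := hh
    exact albe_inj h (congrArg Prod.fst h1) (congrArg Prod.snd h1)
  obtain ⟨K, hK0, hK⟩ := LinearMap.exists_antilipschitzWith _ hker
  refine ⟨max 1 (max ‖al‖ ‖be‖), max 1 K, ?_, ?_, ?_, ?_, ?_, al_G, be_G⟩
  · exact le_max_left _ _
  · exact le_max_left _ _
  · intro x
    refine (al.le_opNorm x).trans ?_
    gcongr
    exact (le_max_left _ _).trans (le_max_right _ _)
  · intro x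
    refine (be.le_opNorm x).trans ?_
    gcongr
    exact (le_max_right _ _).trans (le_max_right _ _)
  · intro x
    have h1 := hK.le_mul_dist x 0
    rw [dist_zero_right, map_zero, dist_zero_right] at h1
    have h2 : ‖((al.prod be : E →L[ℝ] ℝ × (Fin 7 → ℝ)) : E →ₗ[ℝ] ℝ × (Fin 7 → ℝ)) x‖ ≤ |al x| + ‖be x‖ := by
      show ‖(al x, be x)‖ ≤ _
      rw [Prod.norm_def]
      have := norm_nonneg (be x)
      have := abs_nonneg (al x)
      apply max_le
      · rw [Real.norm_eq_abs]; linarith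
      · linarith
    refine h1.trans ?_
    have h3 : (K : ℝ) ≤ max 1 K := le_max_right _ _
    have h4 : (0 : ℝ) ≤ K := K.2
    exact mul_le_mul h3 h2 (norm_nonneg _) (h4.trans h3)

/-- the tangent vector of the unstable manifold -/
noncomputable def w1 : E :=
  (⟨1 / 20, om * (-(11 / 160))⟩, ⟨-(1079 / 186010), om * (1079 / 135280)⟩,
    sg⁻¹ • ⟨1 / 20 - 4 / 11 * (-(11 / 160)), om * (-(11 / 160) + 1 / 20)⟩,
    sg⁻¹ • ⟨-(1079 / 186010) - 4 / 11 * (1079 / 135280), om * (1079 / 135280 + -(1079 / 186010))⟩)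

lemma w1_val : e1 w1 = 1968 / 18601 ∧ e2 w1 = -(984 / 18601) ∧ e3 w1 = 2952 / 18601 ∧
    e4 w1 = -(2952 / 204611) ∧ x1 w1 = 0 ∧ x2 w1 = 0 ∧ x3 w1 = 0 ∧ x4 w1 = 0 := by
  have hs := sg_pos.ne'
  have h := om_sq
  refine ⟨?_, ?_, ?_, ?_, ?_, ?_, ?_, ?_⟩
  · simp only [e1, w1]; norm_num
  · simp only [e2, w1]
    linear_combination (2 * (-(11 / 160)) - 1079 / 135280) * h
  · simp only [e3, w1, Complex.smul_re, smul_eq_mul]; field_simp; norm_num
  · simp only [e4, w1, Complex.smul_im, smul_eq_mul]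
    have h2 := sg_mul (om * (-(11 / 160) + 1 / 20))
    have h3 := sg_mul (om * (1079 / 135280 + -(1079 / 186010)))
    linear_combination 2 * om * h2 - om * h3 +
      (2 * (-(11 / 160) + 1 / 20) - (1079 / 135280 + -(1079 / 186010))) * h
  · simp only [x1, w1]; norm_num
  · simp only [x2, w1]; ring
  · simp only [x3, w1, Complex.smul_re, smul_eq_mul]; field_simp; norm_num
  · simp only [x4, w1, Complex.smul_im, smul_eq_mul]; field_simp; norm_num

/-- the unstable coordinate of the tangent vector -/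
noncomputable def a1 : ℝ := al w1

lemma a1_pos : 0 < a1 := by
  obtain ⟨h1, h2, h3, h4, -⟩ := w1_val
  rw [a1, al_apply, alF, h1, h2, h3, h4]
  norm_num

lemma be_w1 : be w1 = 0 := by
  obtain ⟨h1, h2, h3, h4, h5, h6, h7, h8⟩ := w1_val
  rw [be_apply]
  funext i
  fin_cases i <;> simp [beF, h1, h2, h3, h4, h5, h6, h7, h8] <;> norm_num

end Pool.Agent.T9h50.TB
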