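import Pool.Agent.T9h50.TB.Snd
import Pool.Agent.T9h50.TB.Field

/-!
# One step of the numerical integration
-/

set_option autoImplicit false
set_option exponentiation.threshold 2000

open scoped NNReal ComplexConjugate
open Complex Set

namespace Pool.Agent.T9h50.TB

/-- the scale -/
noncomputable def SR : ℝ := 2 ^ 96

lemma SR_pos : 0 < SR := by unfold SR; positivity

/-- the complex polynomial -/
noncomputable def cz (l k : List Int) (x : ℝ) : ℂ := ⟨evR l x / SR, evR k x / SR⟩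
noncomputable def cz1 (l k : List Int) (x : ℝ) : ℂ := ⟨dR l x / SR, dR k x / SR⟩
noncomputable def cz2 (l k : List Int) (x : ℝ) : ℂ := ⟨ddR l x / SR, ddR k x / SR⟩

lemma hasDerivAt_mk {f g : ℝ → ℝ} {f' g' x : ℝ} (hf : HasDerivAt f f' x) (hg : HasDerivAt g g' x) :
    HasDerivAt (fun x => (⟨f x, g x⟩ : ℂ)) ⟨f', g'⟩ x := by
  have h1 : HasDerivAt (fun x => ((f x : ℝ) : ℂ)) ((f' : ℝ) : ℂ) x := hf.ofReal_comp
  have h2 : HasDerivAt (fun x => ((g x : ℝ) : ℂ)) ((g' : ℝ) : ℂ) x := hg.ofReal_comp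
  have h3 := h1.fun_add (h2.mul_const I)
  have e : ∀ a b : ℝ, (⟨a, b⟩ : ℂ) = (a : ℂ) + (b : ℂ) * I := fun a b => by
    apply Complex.ext <;> simp
  simp only [e]
  exact h3

lemma hasDerivAt_cz (l k : List Int) (x : ℝ) : HasDerivAt (cz l k) (cz1 l k x) x :=
  hasDerivAt_mk ((hasDerivAt_evR l x).div_const SR) ((hasDerivAt_evR k x).div_const SR)

lemma hasDerivAt_cz1 (l k : List Int) (x : ℝ) : HasDerivAt (cz1 l k) (cz2 l k x) x :=
  hasDerivAt_mk ((hasDerivAt_dR l x).div_const SR) ((hasDerivAt_dR k x).div_const SR)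

/-- comparison with the kernel -/
lemma kern_cmp {u v g D d c : ℝ} (hd : 0 < d) (hg : 0 < g) (hD0 : 0 ≤ D)
    (h : |g * g * (u * u + v * v) - 2 ^ 384| ≤ D) (hD : D ≤ 2 ^ 384 / 10 ^ 4)
    (hgc : g * c ≤ 1000 * 2 ^ 96) (hc0 : 0 < c)
    (hc : 1000 * d ≤ (1 - 1 / 10 ^ 4) * c) :
    (1 - 1 / 10 ^ 4) * c / 1000 ≤ ‖(⟨u / SR, v / SR⟩ : ℂ)‖ ∧
    ‖((g / SR * (g / SR) * (g / SR) : ℝ) : ℂ) * (⟨u / SR, v / SR⟩ : ℂ) - kd d ⟨u / SR, v / SR⟩‖ ≤
      4 * (D / 2 ^ 384) / d ^ 2 := by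
  set z : ℂ := ⟨u / SR, v / SR⟩ with hz
  set r := ‖z‖ with hr
  set γ := g / SR with hγ
  have hS := SR_pos
  have hγ0 : 0 < γ := div_pos hg hS
  have hr0 : 0 ≤ r := norm_nonneg _
  have hS4 : SR ^ 4 = 2 ^ 384 := by unfold SR; norm_num
  have hr2 : r ^ 2 = (u * u + v * v) / SR ^ 2 := by
    rw [hr, ← Complex.normSq_eq_norm_sq, hz, Complex.normSq_mk]
    field_simp
  set ε := D / 2 ^ 384 with hε
  have hε0 : 0 ≤ ε := by positivity
  have hε1 : ε ≤ 1 / 10 ^ 4 := by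
    rw [hε, div_le_iff₀ (by positivity)]
    linarith
  have hy2 : |(γ * r) ^ 2 - 1| ≤ ε := by
    have : (γ * r) ^ 2 - 1 = (g * g * (u * u + v * v) - 2 ^ 384) / 2 ^ 384 := by
      rw [mul_pow, hr2, hγ, ← hS4]
      field_simp
    rw [this, abs_div, abs_of_pos (by positivity : (0:ℝ) < 2 ^ 384)]
    exact div_le_div_of_nonneg_right h (by positivity)
  set y := γ * r with hy
  have hy0 : 0 ≤ y := mul_nonneg hγ0.le hr0
  obtain ⟨hy3, hy4⟩ := abs_le.1 hy2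
  have hy1 : 1 - ε ≤ y := by nlinarith
  have hy5 : y ≤ 1 + ε := by nlinarith
  have hrlow : (1 - 1 / 10 ^ 4) * c / 1000 ≤ r := by
    have h1 : γ * c ≤ 1000 := by
      rw [hγ, div_mul_eq_mul_div, div_le_iff₀ hS]
      unfold SR
      linarith
    have h2 : (1 - 1 / 10 ^ 4) ≤ γ * r := by linarith
    have h3 : (1 - 1 / 10 ^ 4) * c ≤ 1000 * r := by
      calc (1 - 1 / 10 ^ 4) * c ≤ (γ * r) * c := by gcongr
        _ = (γ * c) * r := by ring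
        _ ≤ 1000 * r := by gcongr
    linarith
  have hrd : d ≤ r := by
    have : d ≤ (1 - 1 / 10 ^ 4) * c / 1000 := by linarith
    linarith
  have hrpos : 0 < r := hd.trans_le hrd
  refine ⟨hrlow, ?_⟩
  rw [kd_eq hrd]
  have e1 : ((γ * γ * γ : ℝ) : ℂ) * z - (((‖z‖ ^ 3)⁻¹ : ℝ) • z) =
      ((((y ^ 3 - 1) / r ^ 3 : ℝ)) : ℂ) * z := by
    rw [Complex.real_smul, ← hr, ← sub_mul, ← Complex.ofReal_sub]
    congr 2
    rw [hy]
    field_simp
  rw [e1, norm_mul, Complex.norm_real, Real.norm_eq_abs, ← hr, abs_div, abs_of_pos (by positivity : 0 < r ^ 3)]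
  have e2 : |y ^ 3 - 1| ≤ 4 * ε := by
    have e3 : y ^ 3 - 1 = (y - 1) * (y ^ 2 + y + 1) := by ring
    have e4 : |y - 1| * (y + 1) ≤ ε := by
      have : (y - 1) * (y + 1) = y ^ 2 - 1 := by ring
      rw [← abs_of_pos (by linarith : 0 < y + 1), ← abs_mul, this]
      exact hy2
    rw [e3, abs_mul, abs_of_pos (by nlinarith : 0 < y ^ 2 + y + 1)]
    have e5 : y ^ 2 + y + 1 ≤ 4 * (y + 1) := by nlinarith
    calc |y - 1| * (y ^ 2 + y + 1) ≤ |y - 1| * (4 * (y + 1)) := by gcongr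
      _ = 4 * (|y - 1| * (y + 1)) := by ring
      _ ≤ 4 * ε := by gcongr
  calc |y ^ 3 - 1| / r ^ 3 * r = |y ^ 3 - 1| / r ^ 2 := by field_simp
    _ ≤ 4 * ε / d ^ 2 := by gcongr

/-- a complex number with small components -/
lemma norm_mk_le {a b c : ℝ} (ha : |a| ≤ c) (hb : |b| ≤ c) : ‖(⟨a, b⟩ : ℂ)‖ ≤ 2 * c := by
  calc ‖(⟨a, b⟩ : ℂ)‖ ≤ |a| + |b| := Complex.norm_le_abs_re_add_abs_im _
    _ ≤ 2 * c := by linarith

/-- the error of the accelerations for other masses -/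
lemma FA_mass {ε : ℝ} {m : Fin 3 → ℝ} (hm : NearM ε m) (a b : ℂ) :
    ‖FA m a b - FA mh a b‖ ≤ 4 * ε := by
  have e : FA m a b - FA mh a b = -(((m 0 - mh 0) + (m 1 - mh 1) : ℝ) • kd dA a) -
      ((m 2 - mh 2 : ℝ) • kd dC (a + b)) + (m 2 - mh 2 : ℝ) • kd dB b := by
    simp only [FA, sub_smul, add_smul]; abel
  have hA := norm_kd_le dA_pos a
  have hC := norm_kd_le dC_pos (a + b)
  have hB := norm_kd_le dB_pos b
  have h0 := hm 0
  have h1 := hm 1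
  have h2 := hm 2
  have hε : 0 ≤ ε := (abs_nonneg _).trans h0
  have h01 : |(m 0 - mh 0) + (m 1 - mh 1)| ≤ 2 * ε := (abs_add_le _ _).trans (by linarith)
  rw [e]
  calc _ ≤ ‖((m 0 - mh 0) + (m 1 - mh 1) : ℝ) • kd dA a‖ + ‖(m 2 - mh 2 : ℝ) • kd dC (a + b)‖ +
      ‖(m 2 - mh 2 : ℝ) • kd dB b‖ := by
        refine (norm_add_le _ _).trans ?_
        gcongr
        refine (norm_sub_le _ _).trans ?_
        rw [norm_neg]
    _ ≤ 2 * ε * (1 / dA ^ 2) + ε * (1 / dC ^ 2) + ε * (1 / dB ^ 2) := by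
        rw [norm_smul, norm_smul, norm_smul, Real.norm_eq_abs, Real.norm_eq_abs]
        gcongr
    _ ≤ 4 * ε := by
        simp only [dA, dC, dB]
        norm_num
        linarith

lemma FB_mass {ε : ℝ} {m : Fin 3 → ℝ} (hm : NearM ε m) (a b : ℂ) :
    ‖FB m a b - FB mh a b‖ ≤ 4 * ε := by
  have e : FB m a b - FB mh a b = ((m 0 - mh 0 : ℝ) • kd dA a) -
      ((m 0 - mh 0 : ℝ) • kd dC (a + b)) - ((m 1 - mh 1) + (m 2 - mh 2) : ℝ) • kd dB b := by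
    simp only [FB, sub_smul, add_smul]; abel
  have hA := norm_kd_le dA_pos a
  have hC := norm_kd_le dC_pos (a + b)
  have hB := norm_kd_le dB_pos b
  have h0 := hm 0
  have h1 := hm 1
  have h2 := hm 2
  have hε : 0 ≤ ε := (abs_nonneg _).trans h0
  have h01 : |(m 1 - mh 1) + (m 2 - mh 2)| ≤ 2 * ε := (abs_add_le _ _).trans (by linarith)
  rw [e]
  calc _ ≤ ‖(m 0 - mh 0 : ℝ) • kd dA a‖ + ‖(m 0 - mh 0 : ℝ) • kd dC (a + b)‖ +
      ‖((m 1 - mh 1) + (m 2 - mh 2) : ℝ) • kd dB b‖ := by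
        refine (norm_sub_le _ _).trans ?_
        gcongr
        exact norm_sub_le _ _
    _ ≤ ε * (1 / dA ^ 2) + ε * (1 / dC ^ 2) + 2 * ε * (1 / dB ^ 2) := by
        rw [norm_smul, norm_smul, norm_smul, Real.norm_eq_abs, Real.norm_eq_abs]
        gcongr
    _ ≤ 4 * ε := by
        simp only [dA, dC, dB]
        norm_num
        linarith

/-- distances are large enough -/
def Far (δ : ℝ) (x : E) : Prop := dA + δ ≤ ‖x.1‖ ∧ dC + δ ≤ ‖x.1 + x.2.1‖ ∧ dB + δ ≤ ‖x.2.1‖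

lemma Far.of_dist {δ ε : ℝ} {x y : E} (h : Far δ x) (hxy : dist y x ≤ ε) : Far (δ - 2 * ε) y := by
  rw [dist_eq_norm] at hxy
  have n1 : ‖y.1 - x.1‖ ≤ ε := (norm_fst_le (y - x)).trans hxy
  have n2 : ‖y.2.1 - x.2.1‖ ≤ ε :=
    ((norm_fst_le (y - x).2).trans (norm_snd_le (y - x))).trans hxy
  have hε : 0 ≤ ε := (norm_nonneg _).trans n1
  obtain ⟨h1, h2, h3⟩ := h
  have t1 : ‖x.1‖ ≤ ‖y.1‖ + ‖y.1 - x.1‖ := by
    have := norm_sub_norm_le x.1 y.1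
    rw [norm_sub_rev] at this
    linarith
  have t3 : ‖x.2.1‖ ≤ ‖y.2.1‖ + ‖y.2.1 - x.2.1‖ := by
    have := norm_sub_norm_le x.2.1 y.2.1
    rw [norm_sub_rev] at this
    linarith
  have t2 : ‖x.1 + x.2.1‖ ≤ ‖y.1 + y.2.1‖ + (‖y.1 - x.1‖ + ‖y.2.1 - x.2.1‖) := by
    have := norm_sub_norm_le (x.1 + x.2.1) (y.1 + y.2.1)
    rw [norm_sub_rev] at this
    have h5 : y.1 + y.2.1 - (x.1 + x.2.1) = (y.1 - x.1) + (y.2.1 - x.2.1) := by ring
    rw [h5] at this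
    have := norm_add_le (y.1 - x.1) (y.2.1 - x.2.1)
    linarith
  exact ⟨by linarith, by linarith, by linarith⟩

/-- the approximate trajectory of a step -/
noncomputable def trj (L : Ls) (t : ℝ) : E :=
  (cz L.ax L.ay (4 * t), cz L.bx L.bt (4 * t), (4 / sg : ℝ) • cz1 L.ax L.ay (4 * t),
    (4 / sg : ℝ) • cz1 L.bx L.bt (4 * t))

/-- its derivative -/
noncomputable def trj' (L : Ls) (t : ℝ) : E :=
  ((4 : ℝ) • cz1 L.ax L.ay (4 * t), (4 : ℝ) • cz1 L.bx L.bt (4 * t),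
    (16 / sg : ℝ) • cz2 L.ax L.ay (4 * t), (16 / sg : ℝ) • cz2 L.bx L.bt (4 * t))

lemma hasDerivAt_trj (L : Ls) (t : ℝ) : HasDerivAt (trj L) (trj' L t) t := by
  have h4 : HasDerivAt (fun t : ℝ => 4 * t) 4 t := by
    simpa using (hasDerivAt_id t).const_mul 4
  have h1 := (hasDerivAt_cz L.ax L.ay (4 * t)).scomp t h4
  have h2 := (hasDerivAt_cz L.bx L.bt (4 * t)).scomp t h4
  have h3 := ((hasDerivAt_cz1 L.ax L.ay (4 * t)).scomp t h4).const_smul (4 / sg)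
  have h5 := ((hasDerivAt_cz1 L.bx L.bt (4 * t)).scomp t h4).const_smul (4 / sg)
  have e : ∀ z : ℂ, (4 / sg : ℝ) • ((4 : ℝ) • z) = (16 / sg : ℝ) • z := fun z => by
    rw [smul_smul]; congr 1; ring
  rw [e] at h3 h5
  exact h1.prodMk (h2.prodMk (h3.prodMk h5))

end Pool.Agent.T9h50.TB
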