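import Pool.Agent.T9h50.TB.Dfc
import Pool.Agent.T9h50.TB.Dat

/-!
# The approximate solution on the unstable manifold of the relative equilibrium
-/

set_option autoImplicit false
set_option exponentiation.threshold 2000

open scoped NNReal ComplexConjugate Topology
open Complex Set Filter

namespace Pool.Agent.T9h50.TB

lemma evR_lin (k : ℕ) (p : List Int) (x : ℝ) : evR (lin k p) x = k * evR p x + x * dR p x := by
  induction p generalizing k with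
  | nil => simp [lin, evR, dR]
  | cons a p ih =>
    have e : evR (lin k (a :: p)) x = (((Int.mul (Int.ofNat k) a : ℤ)) : ℝ) + x * evR (lin (k + 1) p) x := rfl
    have e2 : (((Int.mul (Int.ofNat k) a : ℤ)) : ℝ) = k * a := by
      have : Int.mul (Int.ofNat k) a = (k : ℤ) * a := rfl
      rw [this]; push_cast; ring
    rw [e, e2, ih, evR, dR]
    push_cast
    ring

lemma evR_sqd (k : ℕ) (p : List Int) (x : ℝ) : evR (sqd k p) x =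
    k ^ 2 * evR p x + (2 * k + 1) * x * dR p x + x ^ 2 * ddR p x := by
  induction p generalizing k with
  | nil => simp [sqd, evR, dR, ddR]
  | cons a p ih =>
    have e : evR (sqd k (a :: p)) x =
        (((Int.mul (Int.ofNat (Nat.mul k k)) a : ℤ)) : ℝ) + x * evR (sqd (k + 1) p) x := rfl
    have e2 : (((Int.mul (Int.ofNat (Nat.mul k k)) a : ℤ)) : ℝ) = k * k * a := by
      have : Int.mul (Int.ofNat (Nat.mul k k)) a = ((k * k : ℕ) : ℤ) * a := rfl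
      rw [this]; push_cast; ring
    rw [e, e2, ih, evR, dR, ddR]
    push_cast
    ring

/-- if the check succeeds then the function is `O(x ^ 2)` -/
theorem Rep.bound2 {V : ℤ} {B D : ℕ} {f : ℝ → ℝ} (h : Rep V B f) (hB : 2 * B < XN) (hD : 2 * D < XN)
    (hc : chkQ D V = true) {x : ℝ} (h0 : 0 ≤ x) (h1 : x ≤ 1) : |f x| ≤ 104 * D * x ^ 2 := by
  rw [chkQ, Bool.and_eq_true, decide_eq_true_eq] at hc
  obtain ⟨hc1, hc2⟩ := hc
  obtain ⟨p, p1, p2, p3⟩ := h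
  obtain ⟨r, r1, r2, r3⟩ := chk_sound D _ hc2
  have hp : Small p := small_of_nrm (by omega)
  have hr : Small (0 :: 0 :: r) := by
    intro a ha
    have hX := XN_pos
    rcases List.mem_cons.1 ha with rfl | ha
    · simpa using hX
    · rcases List.mem_cons.1 ha with rfl | ha
      · simpa using hX
      · have := r2 a ha; omega
  have hV : pk p = pk (0 :: 0 :: r) := by
    rw [p1, pk_cons, pk_cons, r3]
    have h3 : V % ((XN * XN : ℕ) : ℤ) = 0 := hc1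
    have h4 : ((XN * XN : ℕ) : ℤ) * (V / ((XN * XN : ℕ) : ℤ)) + V % ((XN * XN : ℕ) : ℤ) = V :=
      Int.mul_ediv_add_emod _ _
    have h5 : Int.ediv V (Int.ofNat (Nat.mul XN XN)) = V / ((XN * XN : ℕ) : ℤ) := rfl
    rw [h5]
    rw [h3] at h4
    push_cast at h4 ⊢
    linarith
  rw [← p3, unique_of_pk p (0 :: 0 :: r) hp hr hV]
  have e : evR (0 :: 0 :: r) x = x ^ 2 * evR r x := by
    simp only [evR]; push_cast; ring
  rw [e, abs_mul, abs_of_nonneg (sq_nonneg x), mul_comm]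
  have : |evR r x| ≤ 104 * D := by
    calc |evR r x| ≤ nrm r := abs_evR_le r h0 h1
      _ ≤ ((104 * D : ℕ) : ℝ) := by exact_mod_cast r1
      _ = 104 * D := by push_cast; ring
  gcongr

/-- the scale -/
noncomputable def SQR : ℝ := 126490664084915909692741386240

lemma SQR_pos : 0 < SQR := by unfold SQR; norm_num

lemma SQ_cast : ((SQ : ℤ) : ℝ) = SQR := by
  unfold SQ SQR; norm_num

/-- comparison with the kernel -/
lemma kern_cmp2 {γ ε d c : ℝ} {z : ℂ} (hd : 0 < d) (hγ0 : 0 < γ) (hε0 : 0 ≤ ε)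
    (hε1 : ε ≤ 1 / 10 ^ 4) (hy2 : |(γ * ‖z‖) ^ 2 - 1| ≤ ε) (h1 : γ * c ≤ 1000) (hc0 : 0 < c)
    (hc : 1000 * d ≤ (1 - 1 / 10 ^ 4) * c) :
    (1 - 1 / 10 ^ 4) * c / 1000 ≤ ‖z‖ ∧ ‖((γ * γ * γ : ℝ) : ℂ) * z - kd d z‖ ≤ 4 * ε / d ^ 2 := by
  set r := ‖z‖ with hr
  have hr0 : 0 ≤ r := norm_nonneg _
  set y := γ * r with hy
  have hy0 : 0 ≤ y := mul_nonneg hγ0.le hr0
  obtain ⟨hy3, hy4⟩ := abs_le.1 hy2
  have hy1 : 1 - ε ≤ y := by nlinarith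
  have hy5 : y ≤ 1 + ε := by nlinarith
  have hrlow : (1 - 1 / 10 ^ 4) * c / 1000 ≤ r := by
    have h2 : (1 - 1 / 10 ^ 4) ≤ γ * r := by linarith
    have h3 : (1 - 1 / 10 ^ 4) * c ≤ 1000 * r := by
      calc (1 - 1 / 10 ^ 4) * c ≤ (γ * r) * c := by gcongr
        _ = (γ * c) * r := by ring
        _ ≤ 1000 * r := by gcongr
    linarith
  have hrd : d ≤ r := by
    have : d ≤ (1 - 1 / 10 ^ 4) * c / 1000 := by linarith
    linarith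
  have hrpos : 0 < r := hd.trans_le hrd
  refine ⟨hrlow, ?_⟩
  rw [kd_eq hrd]
  have e1 : ((γ * γ * γ : ℝ) : ℂ) * z - (((‖z‖ ^ 3)⁻¹ : ℝ) • z) =
      ((((y ^ 3 - 1) / r ^ 3 : ℝ)) : ℂ) * z := by
    rw [Complex.real_smul, ← hr, ← sub_mul, ← Complex.ofReal_sub]
    congr 2
    rw [hy]
    field_simp
  rw [e1, norm_mul, Complex.norm_real, Real.norm_eq_abs, ← hr, abs_div, abs_of_pos (by positivity : 0 < r ^ 3)]
  have e2 : |y ^ 3 - 1| ≤ 4 * ε := by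
    have e3 : y ^ 3 - 1 = (y - 1) * (y ^ 2 + y + 1) := by ring
    have e4 : |y - 1| * (y + 1) ≤ ε := by
      have : (y - 1) * (y + 1) = y ^ 2 - 1 := by ring
      rw [← abs_of_pos (by linarith : 0 < y + 1), ← abs_mul, this]
      exact hy2
    rw [e3, abs_mul, abs_of_pos (by nlinarith : 0 < y ^ 2 + y + 1)]
    have e5 : y ^ 2 + y + 1 ≤ 4 * (y + 1) := by nlinarith
    calc |y - 1| * (y ^ 2 + y + 1) ≤ |y - 1| * (4 * (y + 1)) := by gcongr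
      _ = 4 * (|y - 1| * (y + 1)) := by ring
      _ ≤ 4 * ε := by gcongr
  calc |y ^ 3 - 1| / r ^ 3 * r = |y ^ 3 - 1| / r ^ 2 := by field_simp
    _ ≤ 4 * ε / d ^ 2 := by gcongr

theorem dgq_le : DGQ ≤ 2 ^ 400 := by decide +kernel
theorem drq_le : DRQ ≤ 2 ^ 400 := by decide +kernel
theorem cst_le : (14432 * (SQ * (SQ * SQ))).natAbs ≤ 2 ^ 305 := by decide +kernel
theorem sq4_le : (11 * ((SQ * SQ) * (SQ * SQ))).natAbs ≤ 2 ^ 400 := by decide +kernel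
theorem sq_toNat : Int.toNat SQ ≤ 2 ^ 97 := by decide +kernel

lemma DGQ_le : (DGQ : ℝ) ≤ 11 * SQR ^ 4 / 10 ^ 26 := by
  have h : DGQ * 10 ^ 26 ≤ 11 * (Int.toNat SQ) ^ 4 := Nat.div_mul_le_self _ _
  have e : ((Int.toNat SQ : ℕ) : ℝ) = SQR := by
    have : ((Int.toNat SQ : ℕ) : ℤ) = SQ := Int.toNat_of_nonneg (by unfold SQ; norm_num)
    rw [← SQ_cast]; exact_mod_cast this
  rw [le_div_iff₀ (by positivity), ← e]
  exact_mod_cast h

lemma DRQ_le : (DRQ : ℝ) ≤ 158752 * SQR ^ 4 / 10 ^ 25 := by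
  have h : DRQ * 10 ^ 25 ≤ 158752 * (Int.toNat SQ) ^ 4 := Nat.div_mul_le_self _ _
  have e : ((Int.toNat SQ : ℕ) : ℝ) = SQR := by
    have : ((Int.toNat SQ : ℕ) : ℤ) = SQ := Int.toNat_of_nonneg (by unfold SQ; norm_num)
    rw [← SQ_cast]; exact_mod_cast this
  rw [le_div_iff₀ (by positivity), ← e]
  exact_mod_cast h

lemma chkGQ_sound {D : ℕ} {G U V : ℤ} {g u v : ℝ → ℝ} (hG : Rep G (2 ^ 98) g) (hU : Rep U (2 ^ 99) u)
    (hV : Rep V (2 ^ 99) v) (hD : 2 * D < XN) (h : chkGQ D G U V = true)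
    (x : ℝ) (h0 : 0 ≤ x) (h1 : x ≤ 1) :
    |g x * g x * (11 * (u x * u x) + 4 * (v x * v x)) - 11 * SQR ^ 4| ≤ 104 * (D : ℝ) * x ^ 2 := by
  have r1 := (hG.mul hG).mul (((hU.mul hU).smul 11).add ((hV.mul hV).smul 4))
  have r2 := r1.sub (Rep.const (11 * ((SQ * SQ) * (SQ * SQ))))
  have hb := r2.bound2 (B := _) (D := D) ?_ hD h h0 h1
  · have e : (((11 * ((SQ * SQ) * (SQ * SQ)) : ℤ)) : ℝ) = 11 * SQR ^ 4 := by
      push_cast; rw [SQ_cast]; ring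
    rw [e] at hb
    push_cast at hb
    exact hb
  · have h4 := sq4_le
    have e11 : (11 : ℤ).natAbs = 11 := rfl
    have e4 : (4 : ℤ).natAbs = 4 := rfl
    rw [e11, e4]
    have h5 : 2 ^ 98 * 2 ^ 98 * (11 * (2 ^ 99 * 2 ^ 99) + 4 * (2 ^ 99 * 2 ^ 99)) + 2 ^ 400 ≤ (2 : ℕ) ^ 430 := by
      norm_num
    have := two_pow_lt_XN
    omega

lemma fin_aux {P Q B C : ℕ} (h5 : Q + 11 * C ≤ 2 ^ 430) (h6 : P ≤ Q) (hB : B ≤ C) :
    2 * (P + 11 * B) < XN := by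
  have h7 := two_pow_lt_XN
  calc 2 * (P + 11 * B) ≤ 2 * (Q + 11 * C) :=
        Nat.mul_le_mul_left 2 (Nat.add_le_add h6 (Nat.mul_le_mul_left 11 hB))
    _ ≤ 2 * 2 ^ 430 := Nat.mul_le_mul_left 2 h5
    _ = 2 ^ 430 * 2 := Nat.mul_comm _ _
    _ < XN := h7

lemma chkXQ_sound {D : ℕ} {x y : List Int} {F : ℤ} {B : ℕ} {f : ℝ → ℝ} (hF : Rep F B f)
    (hB : B ≤ 2 ^ 420) (hD : 2 * D < XN) (nx : nrm x ≤ 2 ^ 98) (nsx : nrm (sqd 0 x) ≤ 2 ^ 102)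
    (nly : nrm (lin 0 y) ≤ 2 ^ 102) (h : chkXQ D x y F = true) (s : ℝ) (h0 : 0 ≤ s) (h1 : s ≤ 1) :
    |14432 * SQR ^ 3 * (11 * evR (sqd 0 x) s - 4 * evR x s - 8 * evR (lin 0 y) s) - 11 * f s| ≤
      104 * (D : ℝ) * s ^ 2 := by
  have r1 := ((((Rep.list _ nsx).smul 11).sub ((Rep.list _ nx).smul 4)).sub
    ((Rep.list _ nly).smul 8)).smul (14432 * (SQ * (SQ * SQ)))
  have r2 := r1.sub (hF.smul 11)
  have hb := r2.bound2 (B := _) (D := D) ?_ hD h h0 h1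
  · have e : (((14432 * (SQ * (SQ * SQ)) : ℤ)) : ℝ) = 14432 * SQR ^ 3 := by
      push_cast; rw [SQ_cast]; ring
    rw [e] at hb
    push_cast at hb
    exact hb
  · have h4 := cst_le
    have e11 : (11 : ℤ).natAbs = 11 := rfl
    have e4 : (4 : ℤ).natAbs = 4 := rfl
    have e8 : (8 : ℤ).natAbs = 8 := rfl
    rw [e11, e4, e8]
    have h5 : 2 ^ 305 * (11 * 2 ^ 102 + 4 * 2 ^ 98 + 8 * 2 ^ 102) + 11 * 2 ^ 420 ≤ (2 : ℕ) ^ 430 := by
      norm_num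
    have h6 : (14432 * (SQ * (SQ * SQ))).natAbs * (11 * 2 ^ 102 + 4 * 2 ^ 98 + 8 * 2 ^ 102) ≤
      2 ^ 305 * (11 * 2 ^ 102 + 4 * 2 ^ 98 + 8 * 2 ^ 102) := Nat.mul_le_mul_right _ h4
    exact fin_aux h5 h6 hB

lemma chkYQ_sound {D : ℕ} {x y : List Int} {F : ℤ} {B : ℕ} {f : ℝ → ℝ} (hF : Rep F B f)
    (hB : B ≤ 2 ^ 420) (hD : 2 * D < XN) (ny : nrm y ≤ 2 ^ 98) (nsy : nrm (sqd 0 y) ≤ 2 ^ 102)
    (nlx : nrm (lin 0 x) ≤ 2 ^ 102) (h : chkYQ D x y F = true) (s : ℝ) (h0 : 0 ≤ s) (h1 : s ≤ 1) :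
    |14432 * SQR ^ 3 * (11 * evR (sqd 0 y) s - 4 * evR y s + 22 * evR (lin 0 x) s) - 11 * f s| ≤
      104 * (D : ℝ) * s ^ 2 := by
  have r1 := ((((Rep.list _ nsy).smul 11).sub ((Rep.list _ ny).smul 4)).add
    ((Rep.list _ nlx).smul 22)).smul (14432 * (SQ * (SQ * SQ)))
  have r2 := r1.sub (hF.smul 11)
  have hb := r2.bound2 (B := _) (D := D) ?_ hD h h0 h1
  · have e : (((14432 * (SQ * (SQ * SQ)) : ℤ)) : ℝ) = 14432 * SQR ^ 3 := by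
      push_cast; rw [SQ_cast]; ring
    rw [e] at hb
    push_cast at hb
    exact hb
  · have h4 := cst_le
    have e11 : (11 : ℤ).natAbs = 11 := rfl
    have e4 : (4 : ℤ).natAbs = 4 := rfl
    have e22 : (22 : ℤ).natAbs = 22 := rfl
    rw [e11, e4, e22]
    have h5 : 2 ^ 305 * (11 * 2 ^ 102 + 4 * 2 ^ 98 + 22 * 2 ^ 102) + 11 * 2 ^ 420 ≤ (2 : ℕ) ^ 430 := by
      norm_num
    have h6 : (14432 * (SQ * (SQ * SQ))).natAbs * (11 * 2 ^ 102 + 4 * 2 ^ 98 + 22 * 2 ^ 102) ≤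
      2 ^ 305 * (11 * 2 ^ 102 + 4 * 2 ^ 98 + 22 * 2 ^ 102) := Nat.mul_le_mul_right _ h4
    exact fin_aux h5 h6 hB

/-- what the checks prove about the polynomials of the unstable manifold -/
structure GoodQ : Prop where
  ga0 : ∀ x : ℝ, 0 ≤ x → x ≤ 1 → 0 < evR QgA x
  gc0 : ∀ x : ℝ, 0 ≤ x → x ≤ 1 → 0 < evR QgC x
  gb0 : ∀ x : ℝ, 0 ≤ x → x ≤ 1 → 0 < evR QgB x
  ga1 : ∀ x : ℝ, 0 ≤ x → x ≤ 1 → evR QgA x * 941 ≤ 1000 * SQR
  gc1 : ∀ x : ℝ, 0 ≤ x → x ≤ 1 → evR QgC x * 2901 ≤ 1000 * SQR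
  gb1 : ∀ x : ℝ, 0 ≤ x → x ≤ 1 → evR QgB x * 1551 ≤ 1000 * SQR
  ea : ∀ x : ℝ, 0 ≤ x → x ≤ 1 →
    |evR QgA x * evR QgA x * (11 * (evR QxA x * evR QxA x) + 4 * (evR QyA x * evR QyA x)) -
      11 * SQR ^ 4| ≤ 104 * (DGQ : ℝ) * x ^ 2
  ec : ∀ x : ℝ, 0 ≤ x → x ≤ 1 →
    |evR QgC x * evR QgC x * (11 * ((evR QxA x + evR QxB x) * (evR QxA x + evR QxB x)) +
      4 * ((evR QyA x + evR QyB x) * (evR QyA x + evR QyB x))) - 11 * SQR ^ 4| ≤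
      104 * (DGQ : ℝ) * x ^ 2
  eb : ∀ x : ℝ, 0 ≤ x → x ≤ 1 →
    |evR QgB x * evR QgB x * (11 * (evR QxB x * evR QxB x) + 4 * (evR QyB x * evR QyB x)) -
      11 * SQR ^ 4| ≤ 104 * (DGQ : ℝ) * x ^ 2
  rxa : ∀ s : ℝ, 0 ≤ s → s ≤ 1 →
    |14432 * SQR ^ 3 * (11 * evR (sqd 0 QxA) s - 4 * evR QxA s - 8 * evR (lin 0 QyA) s) -
      11 * (35244 * (evR QxB s * (evR QgB s * evR QgB s * evR QgB s) -
      (evR QxA s + evR QxB s) * (evR QgC s * evR QgC s * evR QgC s)) -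
      10143 * (evR QxA s * (evR QgA s * evR QgA s * evR QgA s)))| ≤ 104 * (DRQ : ℝ) * s ^ 2
  rya : ∀ s : ℝ, 0 ≤ s → s ≤ 1 →
    |14432 * SQR ^ 3 * (11 * evR (sqd 0 QyA) s - 4 * evR QyA s + 22 * evR (lin 0 QxA) s) -
      11 * (35244 * (evR QyB s * (evR QgB s * evR QgB s * evR QgB s) -
      (evR QyA s + evR QyB s) * (evR QgC s * evR QgC s * evR QgC s)) -
      10143 * (evR QyA s * (evR QgA s * evR QgA s * evR QgA s)))| ≤ 104 * (DRQ : ℝ) * s ^ 2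
  rxb : ∀ s : ℝ, 0 ≤ s → s ≤ 1 →
    |14432 * SQR ^ 3 * (11 * evR (sqd 0 QxB) s - 4 * evR QxB s - 8 * evR (lin 0 QyB) s) -
      11 * (747 * (evR QxA s * (evR QgA s * evR QgA s * evR QgA s) -
      (evR QxA s + evR QxB s) * (evR QgC s * evR QgC s * evR QgC s)) -
      44640 * (evR QxB s * (evR QgB s * evR QgB s * evR QgB s)))| ≤ 104 * (DRQ : ℝ) * s ^ 2
  ryb : ∀ s : ℝ, 0 ≤ s → s ≤ 1 →
    |14432 * SQR ^ 3 * (11 * evR (sqd 0 QyB) s - 4 * evR QyB s + 22 * evR (lin 0 QxB) s) -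
      11 * (747 * (evR QyA s * (evR QgA s * evR QgA s * evR QgA s) -
      (evR QyA s + evR QyB s) * (evR QgC s * evR QgC s * evR QgC s)) -
      44640 * (evR QyB s * (evR QgB s * evR QgB s * evR QgB s)))| ≤ 104 * (DRQ : ℝ) * s ^ 2

lemma gq_le {l : List Int} {c : ℕ}
    (h : Nat.ble (Nat.mul (nrm l) c) (Nat.mul 1000 (Int.toNat SQ)) = true) (x : ℝ)
    (h0 : 0 ≤ x) (h1 : x ≤ 1) : evR l x * c ≤ 1000 * SQR := by
  have h' : nrm l * c ≤ 1000 * (Int.toNat SQ) := Nat.le_of_ble_eq_true h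
  have h2 : evR l x ≤ nrm l := (le_abs_self _).trans (abs_evR_le l h0 h1)
  have e : ((Int.toNat SQ : ℕ) : ℝ) = SQR := by
    have : ((Int.toNat SQ : ℕ) : ℤ) = SQ := Int.toNat_of_nonneg (by unfold SQ; norm_num)
    rw [← SQ_cast]; exact_mod_cast this
  have h3 : (nrm l : ℝ) * c ≤ 1000 * SQR := by
    rw [← e]; exact_mod_cast h'
  have : (0 : ℝ) ≤ c := Nat.cast_nonneg _
  nlinarith

theorem goodQ : GoodQ := by
  have hn := q_n
  simp only [nQ, Bool.and_eq_true] at hn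
  obtain ⟨nxa, nya, nxb, nyb, sxa, sya, sxb, syb, lxa, lya, lxb, lyb, nga, ngc, ngb, pga, pgc, pgb⟩ := hn
  have nxa' : nrm QxA ≤ 2 ^ 97 := Nat.le_of_ble_eq_true nxa
  have nya' : nrm QyA ≤ 2 ^ 97 := Nat.le_of_ble_eq_true nya
  have nxb' : nrm QxB ≤ 2 ^ 98 := Nat.le_of_ble_eq_true nxb
  have nyb' : nrm QyB ≤ 2 ^ 98 := Nat.le_of_ble_eq_true nyb
  have sxa' : nrm (sqd 0 QxA) ≤ 2 ^ 102 := Nat.le_of_ble_eq_true sxa
  have sya' : nrm (sqd 0 QyA) ≤ 2 ^ 102 := Nat.le_of_ble_eq_true sya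
  have sxb' : nrm (sqd 0 QxB) ≤ 2 ^ 102 := Nat.le_of_ble_eq_true sxb
  have syb' : nrm (sqd 0 QyB) ≤ 2 ^ 102 := Nat.le_of_ble_eq_true syb
  have lxa' : nrm (lin 0 QxA) ≤ 2 ^ 102 := Nat.le_of_ble_eq_true lxa
  have lya' : nrm (lin 0 QyA) ≤ 2 ^ 102 := Nat.le_of_ble_eq_true lya
  have lxb' : nrm (lin 0 QxB) ≤ 2 ^ 102 := Nat.le_of_ble_eq_true lxb
  have lyb' : nrm (lin 0 QyB) ≤ 2 ^ 102 := Nat.le_of_ble_eq_true lyb
  have hsq := sq_toNat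
  have e98 : (2 : ℕ) ^ 98 = 2 * 2 ^ 97 := by norm_num
  have e98' : (2 : ℕ) ^ 99 = 2 * 2 ^ 98 := by norm_num
  have key : ∀ N n c : ℕ, 941 ≤ c → N ≤ 2 ^ 97 → n * c ≤ 1000 * N → n ≤ 2 ^ 98 := by
    intro N n c h0 h1 h2
    have h3 : n * 941 ≤ n * c := Nat.mul_le_mul_left n h0
    omega
  have nga' : nrm QgA ≤ 2 ^ 98 := key _ _ 941 (by norm_num) hsq (Nat.le_of_ble_eq_true nga)
  have ngc' : nrm QgC ≤ 2 ^ 98 := key _ _ 2901 (by norm_num) hsq (Nat.le_of_ble_eq_true ngc)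
  have ngb' : nrm QgB ≤ 2 ^ 98 := key _ _ 1551 (by norm_num) hsq (Nat.le_of_ble_eq_true ngb)
  have hXX := two_pow_lt_XN
  have e430 : (2 : ℕ) ^ 400 ≤ 2 ^ 430 := Nat.pow_le_pow_right (by norm_num) (by norm_num)
  have hDG : 2 * DGQ < XN := by have := dgq_le; omega
  have hDR : 2 * DRQ < XN := by have := drq_le; omega
  have Rax := Rep.list QxA nxa'
  have Ray := Rep.list QyA nya'
  have Rbx := Rep.list QxB nxb'
  have Rby := Rep.list QyB nyb'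
  have Rga := Rep.list QgA nga'
  have Rgc := Rep.list QgC ngc'
  have Rgb := Rep.list QgB ngb'
  have Rcx : Rep (pk QxA + pk QxB) (2 ^ 99) (fun x => evR QxA x + evR QxB x) :=
    (Rax.add Rbx).mono (by omega)
  have Rcy : Rep (pk QyA + pk QyB) (2 ^ 99) (fun x => evR QyA x + evR QyB x) :=
    (Ray.add Rby).mono (by omega)
  have Rga3 := (Rga.mul Rga).mul Rga
  have Rgc3 := (Rgc.mul Rgc).mul Rgc
  have Rgb3 := (Rgb.mul Rgb).mul Rgb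
  have kax := Rax.mul Rga3
  have kay := Ray.mul Rga3
  have kcx := Rcx.mul Rgc3
  have kcy := Rcy.mul Rgc3
  have kbx := Rbx.mul Rgb3
  have kby := Rby.mul Rgb3
  refine ⟨g_pos pga, g_pos pgc, g_pos pgb, gq_le nga, gq_le ngc, gq_le ngb,
    chkGQ_sound Rga (Rax.mono (by omega)) (Ray.mono (by omega)) hDG q_ga,
    chkGQ_sound Rgc Rcx Rcy hDG q_gc,
    chkGQ_sound Rgb (Rbx.mono (by omega)) (Rby.mono (by omega)) hDG q_gb, ?_, ?_, ?_, ?_⟩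
  · exact chkXQ_sound (((kbx.sub kcx).smul 35244).sub (kax.smul 10143)) (by norm_num) hDR
      (by omega) sxa' lya' q_xa
  · exact chkYQ_sound (((kby.sub kcy).smul 35244).sub (kay.smul 10143)) (by norm_num) hDR
      (by omega) sya' lxa' q_ya
  · exact chkXQ_sound (((kax.sub kcx).smul 747).sub (kbx.smul 44640)) (by norm_num) hDR
      (by omega) sxb' lyb' q_xb
  · exact chkYQ_sound (((kay.sub kcy).smul 747).sub (kby.smul 44640)) (by norm_num) hDR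
      (by omega) syb' lxb' q_yb

end Pool.Agent.T9h50.TB
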