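import Pool.Agent.T9h50.TB.Wu

/-!
# The approximate solution on the unstable manifold: the defect
-/

set_option autoImplicit false
set_option exponentiation.threshold 2000

open scoped NNReal ComplexConjugate Topology
open Complex Set Filter

namespace Pool.Agent.T9h50.TB

/-- the frequency of the relative equilibrium -/
noncomputable def om : ℝ := Real.sqrt (4 / 11)

lemma om_sq : om * om = 4 / 11 := Real.mul_self_sqrt (by norm_num)
lemma om_pos : 0 < om := Real.sqrt_pos.2 (by norm_num)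
lemma om_lt : om < 1 := by nlinarith [om_sq, om_pos]

/-- the complex polynomials in the rotating frame -/
noncomputable def cq (x y : List Int) (s : ℝ) : ℂ := ⟨evR x s / SQR, om * (evR y s / SQR)⟩
noncomputable def cq1 (x y : List Int) (s : ℝ) : ℂ :=
  ⟨evR (lin 0 x) s / SQR - 4 / 11 * (evR y s / SQR),
    om * (evR (lin 0 y) s / SQR + evR x s / SQR)⟩
noncomputable def cq2 (x y : List Int) (s : ℝ) : ℂ :=
  ⟨evR (sqd 0 x) s / SQR - 8 / 11 * (evR (lin 0 y) s / SQR) - 4 / 11 * (evR x s / SQR),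
    om * (evR (sqd 0 y) s / SQR + 2 * (evR (lin 0 x) s / SQR) - 4 / 11 * (evR y s / SQR))⟩

/-- the rotation -/
noncomputable def rot (t : ℝ) : ℂ := Complex.exp ((om * t : ℝ) * I)

lemma norm_rot (t : ℝ) : ‖rot t‖ = 1 := by rw [rot, Complex.norm_exp_ofReal_mul_I]

lemma hasDerivAt_rot (t : ℝ) : HasDerivAt rot (I * om * rot t) t := by
  have h1 : HasDerivAt (fun t : ℝ => ((om * t : ℝ) : ℂ) * I) (((om * 1 : ℝ) : ℂ) * I) t :=
    (((hasDerivAt_id t).const_mul om).ofReal_comp).mul_const I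
  have h2 := h1.cexp
  refine h2.congr_deriv ?_
  rw [rot]; push_cast; ring

lemma hasDerivAt_evR_exp (l : List Int) (t : ℝ) :
    HasDerivAt (fun t => evR l (Real.exp t)) (evR (lin 0 l) (Real.exp t)) t := by
  have h := (hasDerivAt_evR l (Real.exp t)).comp t (Real.hasDerivAt_exp t)
  refine h.congr_deriv ?_
  rw [evR_lin]; push_cast; ring

lemma hasDerivAt_lin_exp (l : List Int) (t : ℝ) :
    HasDerivAt (fun t => evR (lin 0 l) (Real.exp t)) (evR (sqd 0 l) (Real.exp t)) t := by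
  have e : (fun t => evR (lin 0 l) (Real.exp t)) = fun t => Real.exp t * dR l (Real.exp t) := by
    funext t; rw [evR_lin]; push_cast; ring
  rw [e]
  have h1 := (hasDerivAt_dR l (Real.exp t)).comp t (Real.hasDerivAt_exp t)
  have h := (Real.hasDerivAt_exp t).fun_mul h1
  refine h.congr_deriv ?_
  rw [evR_sqd]; push_cast; simp only [Function.comp]; ring

lemma hasDerivAt_rot_mul {z : ℝ → ℂ} {z' w : ℂ} {t : ℝ} (hz : HasDerivAt z z' t)
    (hw : z' + I * om * z t = w) : HasDerivAt (fun t => rot t * z t) (rot t * w) t := by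
  have h := (hasDerivAt_rot t).fun_mul hz
  refine h.congr_deriv ?_
  rw [← hw]; ring

lemma hasDerivAt_cq (x y : List Int) (t : ℝ) :
    HasDerivAt (fun t => rot t * cq x y (Real.exp t)) (rot t * cq1 x y (Real.exp t)) t := by
  have h := hasDerivAt_mk ((hasDerivAt_evR_exp x t).div_const SQR)
    (((hasDerivAt_evR_exp y t).div_const SQR).const_mul om)
  refine hasDerivAt_rot_mul h ?_
  apply Complex.ext
  · simp only [cq1, cq, Complex.add_re, Complex.mul_re, Complex.mul_im, Complex.I_re, Complex.I_im,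
      Complex.ofReal_re, Complex.ofReal_im]
    linear_combination -(evR y (Real.exp t) / SQR) * om_sq
  · simp only [cq1, cq, Complex.add_im, Complex.mul_re, Complex.mul_im, Complex.I_re, Complex.I_im,
      Complex.ofReal_re, Complex.ofReal_im]
    ring

lemma hasDerivAt_cq1 (x y : List Int) (t : ℝ) :
    HasDerivAt (fun t => rot t * cq1 x y (Real.exp t)) (rot t * cq2 x y (Real.exp t)) t := by
  have h := hasDerivAt_mk (((hasDerivAt_lin_exp x t).div_const SQR).fun_sub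
      (((hasDerivAt_evR_exp y t).div_const SQR).const_mul (4 / 11)))
    ((((hasDerivAt_lin_exp y t).div_const SQR).fun_add
      ((hasDerivAt_evR_exp x t).div_const SQR)).const_mul om)
  refine hasDerivAt_rot_mul h ?_
  apply Complex.ext
  · simp only [cq1, cq2, Complex.add_re, Complex.mul_re, Complex.mul_im, Complex.I_re, Complex.I_im,
      Complex.ofReal_re, Complex.ofReal_im]
    linear_combination -(evR (lin 0 y) (Real.exp t) / SQR + evR x (Real.exp t) / SQR) * om_sq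
  · simp only [cq1, cq2, Complex.add_im, Complex.mul_re, Complex.mul_im, Complex.I_re, Complex.I_im,
      Complex.ofReal_re, Complex.ofReal_im]
    ring

/-- the approximate solution -/
noncomputable def wu (t : ℝ) : E :=
  (rot t * cq QxA QyA (Real.exp t), rot t * cq QxB QyB (Real.exp t),
    sg⁻¹ • (rot t * cq1 QxA QyA (Real.exp t)), sg⁻¹ • (rot t * cq1 QxB QyB (Real.exp t)))

/-- its derivative -/
noncomputable def wu' (t : ℝ) : E :=
  (rot t * cq1 QxA QyA (Real.exp t), rot t * cq1 QxB QyB (Real.exp t),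
    sg⁻¹ • (rot t * cq2 QxA QyA (Real.exp t)), sg⁻¹ • (rot t * cq2 QxB QyB (Real.exp t)))

lemma hasDerivAt_wu (t : ℝ) : HasDerivAt wu (wu' t) t :=
  (hasDerivAt_cq QxA QyA t).prodMk ((hasDerivAt_cq QxB QyB t).prodMk
    (((hasDerivAt_cq1 QxA QyA t).const_smul sg⁻¹).prodMk
      ((hasDerivAt_cq1 QxB QyB t).const_smul sg⁻¹)))

lemma FA_rot (m : Fin 3 → ℝ) {u : ℂ} (hu : ‖u‖ = 1) (a b : ℂ) :
    FA m (u * a) (u * b) = u * FA m a b := by
  rw [FA, FA, kd_rot dA hu, kd_rot dB hu, ← mul_add, kd_rot dC hu]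
  simp only [Complex.real_smul]
  ring

lemma FB_rot (m : Fin 3 → ℝ) {u : ℂ} (hu : ‖u‖ = 1) (a b : ℂ) :
    FB m (u * a) (u * b) = u * FB m a b := by
  rw [FB, FB, kd_rot dA hu, kd_rot dB hu, ← mul_add, kd_rot dC hu]
  simp only [Complex.real_smul]
  ring

lemma re_q {r2 x ly a b c u v w D : ℝ} {k1 k2 : ℝ}
    (h : |14432 * SQR ^ 3 * (11 * r2 - 4 * x - 8 * ly) -
      11 * (k1 * (u * (a * a * a) - v * (b * b * b)) - k2 * (w * (c * c * c)))| ≤ D) :
    |(r2 / SQR - 8 / 11 * (ly / SQR) - 4 / 11 * (x / SQR)) -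
      (k1 / 14432 * ((a / SQR * (a / SQR) * (a / SQR)) * (u / SQR) -
      (b / SQR * (b / SQR) * (b / SQR)) * (v / SQR)) -
      k2 / 14432 * ((c / SQR * (c / SQR) * (c / SQR)) * (w / SQR)))| ≤ D / (158752 * SQR ^ 4) := by
  have hS := SQR_pos
  have e : (r2 / SQR - 8 / 11 * (ly / SQR) - 4 / 11 * (x / SQR)) -
      (k1 / 14432 * ((a / SQR * (a / SQR) * (a / SQR)) * (u / SQR) -
      (b / SQR * (b / SQR) * (b / SQR)) * (v / SQR)) -
      k2 / 14432 * ((c / SQR * (c / SQR) * (c / SQR)) * (w / SQR))) =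
      (14432 * SQR ^ 3 * (11 * r2 - 4 * x - 8 * ly) -
      11 * (k1 * (u * (a * a * a) - v * (b * b * b)) - k2 * (w * (c * c * c)))) / (158752 * SQR ^ 4) := by
    field_simp
    ring
  rw [e, abs_div, abs_of_pos (by positivity : (0:ℝ) < 158752 * SQR ^ 4)]
  exact div_le_div_of_nonneg_right h (by positivity)

lemma im_q {r2 y lx a b c u v w D : ℝ} {k1 k2 : ℝ}
    (h : |14432 * SQR ^ 3 * (11 * r2 - 4 * y + 22 * lx) -
      11 * (k1 * (u * (a * a * a) - v * (b * b * b)) - k2 * (w * (c * c * c)))| ≤ D) :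
    |om * (r2 / SQR + 2 * (lx / SQR) - 4 / 11 * (y / SQR)) -
      (k1 / 14432 * ((a / SQR * (a / SQR) * (a / SQR)) * (om * (u / SQR)) -
      (b / SQR * (b / SQR) * (b / SQR)) * (om * (v / SQR))) -
      k2 / 14432 * ((c / SQR * (c / SQR) * (c / SQR)) * (om * (w / SQR))))| ≤
      D / (158752 * SQR ^ 4) := by
  have hS := SQR_pos
  have hD : 0 ≤ D := (abs_nonneg _).trans h
  have e : om * (r2 / SQR + 2 * (lx / SQR) - 4 / 11 * (y / SQR)) -
      (k1 / 14432 * ((a / SQR * (a / SQR) * (a / SQR)) * (om * (u / SQR)) -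
      (b / SQR * (b / SQR) * (b / SQR)) * (om * (v / SQR))) -
      k2 / 14432 * ((c / SQR * (c / SQR) * (c / SQR)) * (om * (w / SQR)))) =
      om * ((14432 * SQR ^ 3 * (11 * r2 - 4 * y + 22 * lx) -
      11 * (k1 * (u * (a * a * a) - v * (b * b * b)) - k2 * (w * (c * c * c)))) / (158752 * SQR ^ 4)) := by
    field_simp
    ring
  rw [e, abs_mul, abs_of_pos om_pos, abs_div, abs_of_pos (by positivity : (0:ℝ) < 158752 * SQR ^ 4)]
  calc _ ≤ om * (D / (158752 * SQR ^ 4)) :=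
        mul_le_mul_of_nonneg_left (div_le_div_of_nonneg_right h (by positivity)) om_pos.le
    _ ≤ 1 * (D / (158752 * SQR ^ 4)) := mul_le_mul_of_nonneg_right om_lt.le (by positivity)
    _ = _ := one_mul _

lemma gam_q {g x y D : ℝ} (h : |g * g * (11 * (x * x) + 4 * (y * y)) - 11 * SQR ^ 4| ≤ D) :
    |(g / SQR * ‖(⟨x / SQR, om * (y / SQR)⟩ : ℂ)‖) ^ 2 - 1| ≤ D / (11 * SQR ^ 4) := by
  have hS := SQR_pos
  have hr2 : ‖(⟨x / SQR, om * (y / SQR)⟩ : ℂ)‖ ^ 2 = (11 * (x * x) + 4 * (y * y)) / (11 * SQR ^ 2) := by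
    rw [← Complex.normSq_eq_norm_sq, Complex.normSq_mk]
    have e : x / SQR * (x / SQR) + om * (y / SQR) * (om * (y / SQR)) =
      x / SQR * (x / SQR) + (om * om) * ((y / SQR) * (y / SQR)) := by ring
    rw [e, om_sq]
    field_simp
  have e : (g / SQR * ‖(⟨x / SQR, om * (y / SQR)⟩ : ℂ)‖) ^ 2 - 1 =
      (g * g * (11 * (x * x) + 4 * (y * y)) - 11 * SQR ^ 4) / (11 * SQR ^ 4) := by
    rw [mul_pow, hr2]
    field_simp
  rw [e, abs_div, abs_of_pos (by positivity : (0:ℝ) < 11 * SQR ^ 4)]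
  exact div_le_div_of_nonneg_right h (by positivity)

theorem wu_defect {ε : ℝ} {m : Fin 3 → ℝ} (hm : NearM ε m) {t : ℝ} (h0 : t ≤ 0) :
    dist (wu' t) (fld m (wu t)) ≤ 1.68 / 10 ^ 23 * Real.exp (2 * t) + 3 * ε ∧
      Far (7 / 10 ^ 4) (wu t) := by
  have hε : 0 ≤ ε := (abs_nonneg _).trans (hm 0)
  set x := Real.exp t with hx
  have hx0 : 0 ≤ x := (Real.exp_pos t).le
  have hx1 : x ≤ 1 := by rw [hx]; exact Real.exp_le_one_iff.2 h0
  have hxx : Real.exp (2 * t) = x ^ 2 := by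
    rw [hx, ← Real.exp_nat_mul]; norm_num
  have hx2 : x ^ 2 ≤ 1 := by nlinarith
  have hxp : 0 ≤ x ^ 2 := sq_nonneg x
  have hS := SQR_pos
  have hL := goodQ
  have hD2 : 104 * (DGQ : ℝ) * x ^ 2 / (11 * SQR ^ 4) ≤ 1.04 / 10 ^ 24 * x ^ 2 := by
    rw [div_le_iff₀ (by positivity)]
    have h1 := DGQ_le
    have h2 : 104 * (DGQ : ℝ) * x ^ 2 ≤ 104 * (11 * SQR ^ 4 / 10 ^ 26) * x ^ 2 := by gcongr
    calc _ ≤ _ := h2
      _ = _ := by ring
  have hD1 : 1.04 / 10 ^ 24 * x ^ 2 ≤ 1 / 10 ^ 4 := by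
    calc 1.04 / 10 ^ 24 * x ^ 2 ≤ 1.04 / 10 ^ 24 * 1 := by gcongr
      _ ≤ 1 / 10 ^ 4 := by norm_num
  have hD0 : 0 ≤ 1.04 / 10 ^ 24 * x ^ 2 := by positivity
  have cg : ∀ (g c : ℝ), g * c ≤ 1000 * SQR → g / SQR * c ≤ 1000 := by
    intro g c h
    rw [div_mul_eq_mul_div, div_le_iff₀ hS]; exact h
  obtain ⟨fa, ka⟩ := kern_cmp2 dA_pos (div_pos (hL.ga0 x hx0 hx1) hS) hD0 hD1
    ((gam_q (hL.ea x hx0 hx1)).trans hD2) (cg _ _ (hL.ga1 x hx0 hx1)) (by norm_num)
    (by unfold dA; norm_num)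
  obtain ⟨fc, kc⟩ := kern_cmp2 dC_pos (div_pos (hL.gc0 x hx0 hx1) hS) hD0 hD1
    ((gam_q (hL.ec x hx0 hx1)).trans hD2) (cg _ _ (hL.gc1 x hx0 hx1)) (by norm_num)
    (by unfold dC; norm_num)
  obtain ⟨fb, kb⟩ := kern_cmp2 dB_pos (div_pos (hL.gb0 x hx0 hx1) hS) hD0 hD1
    ((gam_q (hL.eb x hx0 hx1)).trans hD2) (cg _ _ (hL.gb1 x hx0 hx1)) (by norm_num)
    (by unfold dB; norm_num)
  set A : ℂ := cq QxA QyA x with hA
  set B : ℂ := cq QxB QyB x with hB
  have eA : (⟨evR QxA x / SQR, om * (evR QyA x / SQR)⟩ : ℂ) = A := rfl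
  have eB : (⟨evR QxB x / SQR, om * (evR QyB x / SQR)⟩ : ℂ) = B := rfl
  have eC : (⟨(evR QxA x + evR QxB x) / SQR, om * ((evR QyA x + evR QyB x) / SQR)⟩ : ℂ) = A + B := by
    apply Complex.ext
    · simp only [A, B, cq, Complex.add_re]; ring
    · simp only [A, B, cq, Complex.add_im]; ring
  rw [eA] at fa ka
  rw [eB] at fb kb
  rw [eC] at fc kc
  have hrot := norm_rot t
  have far : Far (7 / 10 ^ 4) (wu t) := by
    refine ⟨?_, ?_, ?_⟩
    · have : ‖(wu t).1‖ = ‖A‖ := by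
        show ‖rot t * A‖ = ‖A‖
        rw [norm_mul, hrot, one_mul]
      rw [this]
      calc dA + 7 / 10 ^ 4 ≤ (1 - 1 / 10 ^ 4) * 941 / 1000 := by unfold dA; norm_num
        _ ≤ _ := fa
    · have : ‖(wu t).1 + (wu t).2.1‖ = ‖A + B‖ := by
        show ‖rot t * A + rot t * B‖ = ‖A + B‖
        rw [← mul_add, norm_mul, hrot, one_mul]
      rw [this]
      calc dC + 7 / 10 ^ 4 ≤ (1 - 1 / 10 ^ 4) * 2901 / 1000 := by unfold dC; norm_num
        _ ≤ _ := fc
    · have : ‖(wu t).2.1‖ = ‖B‖ := by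
        show ‖rot t * B‖ = ‖B‖
        rw [norm_mul, hrot, one_mul]
      rw [this]
      calc dB + 7 / 10 ^ 4 ≤ (1 - 1 / 10 ^ 4) * 1551 / 1000 := by unfold dB; norm_num
        _ ≤ _ := fb
  refine ⟨?_, far⟩
  -- residual
  set γa := evR QgA x / SQR * (evR QgA x / SQR) * (evR QgA x / SQR) with hγa
  set γb := evR QgB x / SQR * (evR QgB x / SQR) * (evR QgB x / SQR) with hγb
  set γc := evR QgC x / SQR * (evR QgC x / SQR) * (evR QgC x / SQR) with hγc
  have hδ : 104 * (DRQ : ℝ) * x ^ 2 / (158752 * SQR ^ 4) ≤ 1.04 / 10 ^ 23 * x ^ 2 := by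
    rw [div_le_iff₀ (by positivity)]
    have h1 := DRQ_le
    have h2 : 104 * (DRQ : ℝ) * x ^ 2 ≤ 104 * (158752 * SQR ^ 4 / 10 ^ 25) * x ^ 2 := by gcongr
    calc _ ≤ _ := h2
      _ = _ := by ring
  have resA : ‖cq2 QxA QyA x - ((35244 / 14432 : ℝ) • (((γb : ℝ) : ℂ) * B - ((γc : ℝ) : ℂ) * (A + B)) -
      (10143 / 14432 : ℝ) • (((γa : ℝ) : ℂ) * A))‖ ≤ 2 * (1.04 / 10 ^ 23 * x ^ 2) := by
    have p1 := (re_q (hL.rxa x hx0 hx1)).trans hδ
    have p2 := (im_q (hL.rya x hx0 hx1)).trans hδ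
    refine le_trans (le_of_eq ?_) (norm_mk_le p1 p2)
    congr 1
    rw [← eC, ← eA, ← eB]
    apply Complex.ext
    · simp only [cq2, Complex.sub_re, Complex.real_smul, Complex.re_ofReal_mul, γa, γb, γc]
    · simp only [cq2, Complex.sub_im, Complex.real_smul, Complex.im_ofReal_mul, γa, γb, γc]
  have resB : ‖cq2 QxB QyB x - ((747 / 14432 : ℝ) • (((γa : ℝ) : ℂ) * A - ((γc : ℝ) : ℂ) * (A + B)) -
      (44640 / 14432 : ℝ) • (((γb : ℝ) : ℂ) * B))‖ ≤ 2 * (1.04 / 10 ^ 23 * x ^ 2) := by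
    have p1 := (re_q (hL.rxb x hx0 hx1)).trans hδ
    have p2 := (im_q (hL.ryb x hx0 hx1)).trans hδ
    refine le_trans (le_of_eq ?_) (norm_mk_le p1 p2)
    congr 1
    rw [← eC, ← eA, ← eB]
    apply Complex.ext
    · simp only [cq2, Complex.sub_re, Complex.real_smul, Complex.re_ofReal_mul, γa, γb, γc]
    · simp only [cq2, Complex.sub_im, Complex.real_smul, Complex.im_ofReal_mul, γa, γb, γc]
  have RA := combine resA ka kb kc (by norm_num) (by norm_num) (k3 := 1 / 10 ^ 23 * x ^ 2) (by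
    simp only [dA, dB, dC]
    norm_num at hxp ⊢
    linarith)
  have RB := combine resB kb ka kc (by norm_num) (by norm_num) (k3 := 1 / 10 ^ 23 * x ^ 2) (by
    simp only [dA, dB, dC]
    norm_num at hxp ⊢
    linarith)
  have FAh : FA mh A B = (35244 / 14432 : ℝ) • (kd dB B - kd dC (A + B)) - (10143 / 14432 : ℝ) • kd dA A := by
    simp only [FA, mh0, mh1, mh2, smul_sub]
    rw [show (747 / 14432 + 9396 / 14432 : ℝ) = 10143 / 14432 by norm_num]
    abel
  have FBh : FB mh A B = (747 / 14432 : ℝ) • (kd dA A - kd dC (A + B)) - (44640 / 14432 : ℝ) • kd dB B := by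
    simp only [FB, mh0, mh1, mh2, smul_sub]
    rw [show (9396 / 14432 + 35244 / 14432 : ℝ) = 44640 / 14432 by norm_num]
  rw [← FAh] at RA
  rw [← FBh] at RB
  have MA := FA_mass hm A B
  have MB := FB_mass hm A B
  have TA : ‖cq2 QxA QyA x - FA m A B‖ ≤ 3.1 / 10 ^ 23 * x ^ 2 + 4 * ε := by
    have e : cq2 QxA QyA x - FA m A B =
      (cq2 QxA QyA x - FA mh A B) - (FA m A B - FA mh A B) := by abel
    rw [e]
    refine (norm_sub_le _ _).trans ?_
    norm_num at RA MA hxp ⊢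
    linarith
  have TB : ‖cq2 QxB QyB x - FB m A B‖ ≤ 3.1 / 10 ^ 23 * x ^ 2 + 4 * ε := by
    have e : cq2 QxB QyB x - FB m A B =
      (cq2 QxB QyB x - FB mh A B) - (FB m A B - FB mh A B) := by abel
    rw [e]
    refine (norm_sub_le _ _).trans ?_
    norm_num at RB MB hxp ⊢
    linarith
  rw [dist_eq_norm, hxx]
  have hsg : sg ≠ 0 := sg_pos.ne'
  have e1 : (wu' t - fld m (wu t)).1 = 0 := by
    simp only [wu', fld, wu, Prod.fst_sub, smul_smul]
    rw [mul_inv_cancel₀ hsg, one_smul, sub_self]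
  have e2 : (wu' t - fld m (wu t)).2.1 = 0 := by
    simp only [wu', fld, wu, Prod.fst_sub, Prod.snd_sub, smul_smul]
    rw [mul_inv_cancel₀ hsg, one_smul, sub_self]
  have e3 : (wu' t - fld m (wu t)).2.2.1 = sg⁻¹ • (rot t * (cq2 QxA QyA x - FA m A B)) := by
    show sg⁻¹ • (rot t * cq2 QxA QyA x) - sg⁻¹ • FA m (rot t * A) (rot t * B) = _
    rw [FA_rot m hrot, mul_sub, smul_sub]
  have e4 : (wu' t - fld m (wu t)).2.2.2 = sg⁻¹ • (rot t * (cq2 QxB QyB x - FB m A B)) := by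
    show sg⁻¹ • (rot t * cq2 QxB QyB x) - sg⁻¹ • FB m (rot t * A) (rot t * B) = _
    rw [FB_rot m hrot, mul_sub, smul_sub]
  have hs' : ∀ z : ℂ, ‖z‖ ≤ 3.1 / 10 ^ 23 * x ^ 2 + 4 * ε →
      ‖sg⁻¹ • (rot t * z)‖ ≤ 1.68 / 10 ^ 23 * x ^ 2 + 3 * ε := fun z hz => by
    rw [norm_smul, norm_mul, hrot, one_mul, Real.norm_of_nonneg (inv_pos.2 sg_pos).le, sg]
    norm_num at hz hxp ⊢
    linarith
  have hpos : 0 ≤ 1.68 / 10 ^ 23 * x ^ 2 + 3 * ε := by positivity
  rw [Prod.norm_def, Prod.norm_def, Prod.norm_def, e1, e2, e3, e4, norm_zero]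
  exact max_le hpos (max_le hpos (max_le (hs' _ TA) (hs' _ TB)))

end Pool.Agent.T9h50.TB
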