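import Pool.Agent.T9h50.TB.Wu2
import Pool.Agent.T9h50.TB.KRun

/-!
# Solutions near the unstable manifold escape
-/

set_option autoImplicit false
set_option exponentiation.threshold 2000

open scoped NNReal ComplexConjugate Topology
open Complex Set Filter

namespace Pool.Agent.T9h50.TB

lemma Far.mono {δ δ' : ℝ} {x : E} (h : Far δ x) (hδ : δ' ≤ δ) : Far δ' x :=
  ⟨by linarith [h.1], by linarith [h.2.1], by linarith [h.2.2]⟩

/-- comparison of a solution with the approximate solution -/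
theorem wu_cmp {ε c t1 : ℝ} {m : Fin 3 → ℝ} (hm : NearM ε m) (hε : ε ≤ 1 / 10 ^ 6) (ht1 : t1 ≤ 0)
    {y : ℝ → E} (hy : ∀ t ∈ Icc t1 0, HasDerivAt y (fld m (y t)) t) (hc : dist (y t1) (wu t1) ≤ c)
    {t : ℝ} (ht : t ∈ Icc t1 0) :
    dist (y t) (wu t) ≤ (c + 60 * ε) * Real.exp (19 / 10 * (t - t1)) +
      1.13 / 10 ^ 22 * Real.exp (2 * t) := by
  have hε0 : 0 ≤ ε := (abs_nonneg _).trans (hm 0)
  have hc0 : 0 ≤ c := dist_nonneg.trans hc
  have hL := fld_lip (hm.mono hε)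
  have cs : ((37 / 20 : ℝ≥0) : ℝ) = 37 / 20 := by norm_num
  rw [dist_eq_norm]
  refine image_norm_le_of_norm_deriv_right_lt_deriv_boundary' (f := fun t => y t - wu t)
    (f' := fun t => fld m (y t) - wu' t) (a := t1) (b := 0)
    (B := fun t => (c + 60 * ε) * Real.exp (19 / 10 * (t - t1)) + 1.13 / 10 ^ 22 * Real.exp (2 * t))
    (B' := fun t => (c + 60 * ε) * (Real.exp (19 / 10 * (t - t1)) * (19 / 10 * 1)) +
      1.13 / 10 ^ 22 * (Real.exp (2 * t) * (2 * 1))) ?_ ?_ ?_ ?_ ?_ ?_ ht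
  · intro s hs
    exact ((hy s hs).sub (hasDerivAt_wu s)).continuousAt.continuousWithinAt
  · intro s hs
    exact ((hy s ⟨hs.1, hs.2.le⟩).fun_sub (hasDerivAt_wu s)).hasDerivWithinAt
  · simp only [sub_self, mul_zero, Real.exp_zero, mul_one]
    rw [← dist_eq_norm]
    have : 0 ≤ 1.13 / 10 ^ 22 * Real.exp (2 * t1) := by positivity
    linarith
  · fun_prop
  · intro s _
    exact (((((hasDerivAt_id s).sub_const t1).const_mul (19 / 10)).exp.const_mul _).fun_add
      (((hasDerivAt_id s).const_mul 2).exp.const_mul _)).hasDerivWithinAt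
  · intro s hs he
    have hd := (wu_defect hm (hs.2.le)).1
    have h1 : ‖fld m (y s) - wu' s‖ ≤ 37 / 20 * ‖y s - wu s‖ +
        (1.68 / 10 ^ 23 * Real.exp (2 * s) + 3 * ε) := by
      have e : fld m (y s) - wu' s = (fld m (y s) - fld m (wu s)) - (wu' s - fld m (wu s)) := by abel
      rw [e]
      refine (norm_sub_le _ _).trans ?_
      have h2 := hL.dist_le_mul (y s) (wu s)
      rw [dist_eq_norm, dist_eq_norm, cs] at h2
      rw [dist_eq_norm] at hd
      linarith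
    rw [he] at h1
    have h3 : 1 ≤ Real.exp (19 / 10 * (s - t1)) := Real.one_le_exp (by nlinarith [hs.1])
    have h4 : 0 < Real.exp (2 * s) := Real.exp_pos _
    have h5 : 3 * ε ≤ 5 / 100 * ((c + 60 * ε) * Real.exp (19 / 10 * (s - t1))) := by
      have : c + 60 * ε ≤ (c + 60 * ε) * Real.exp (19 / 10 * (s - t1)) :=
        le_mul_of_one_le_right (by linarith) h3
      linarith
    norm_num at h1 h4 h5 ⊢
    linarith

lemma om_near : |om - 603022689155527245293624133940124851 / 10 ^ 36| ≤ 1 / 10 ^ 34 := by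
  have h1 := om_sq
  have h2 := om_pos
  rw [abs_le]
  constructor
  · have : 603022689155527245293624133940124800 / 10 ^ 36 ≤ om := by
      by_contra h
      push Not at h
      have : om * om < (603022689155527245293624133940124800 / 10 ^ 36) *
        (603022689155527245293624133940124800 / 10 ^ 36) := by nlinarith
      norm_num at this h1
      linarith
    norm_num at this ⊢
    linarith
  · have : om ≤ 603022689155527245293624133940124900 / 10 ^ 36 := by
      by_contra h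
      push Not at h
      have : (603022689155527245293624133940124900 / 10 ^ 36) *
        (603022689155527245293624133940124900 / 10 ^ 36) < om * om := by nlinarith
      norm_num at this h1
      linarith
    norm_num at this ⊢
    linarith

theorem smXA : sm QxA = 132595050775818619326055801041 := by decide +kernel
theorem smYA : sm QyA = -8697579820488526002812984108 := by decide +kernel
theorem smXB : sm QxB = 252264594831339922539624021697 := by decide +kernel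
theorem smYB : sm QyB = 1006683047287587863335805101 := by decide +kernel
theorem dsXA : dsm 0 QxA = 5892355845949468603191342914 := by decide +kernel
theorem dsYA : dsm 0 QyA = -8693748412600786280909979658 := by decide +kernel
theorem dsXB : dsm 0 QxB = -700320328369128043064402102 := by decide +kernel
theorem dsYB : dsm 0 QyB = 1004125286723806639302976291 := by decide +kernel

lemma evR_one {l : List Int} {v : ℤ} (h : sm l = v) : evR l 1 = v := by rw [← sm_eq, h]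
lemma lin_one {l : List Int} {v : ℤ} (h : dsm 0 l = v) : evR (lin 0 l) 1 = v := by
  rw [← h, dsm_eq, evR_lin]; push_cast; ring

lemma om_mul_near (q r : ℝ) {e : ℝ} (hq : |q| ≤ 10)
    (h : |603022689155527245293624133940124851 / 10 ^ 36 * q - r| ≤ e) :
    |om * q - r| ≤ e + 1 / 10 ^ 33 := by
  have h1 := om_near
  have e1 : om * q - r = (om - 603022689155527245293624133940124851 / 10 ^ 36) * q +
    (603022689155527245293624133940124851 / 10 ^ 36 * q - r) := by ring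
  rw [e1]
  refine (abs_add_le _ _).trans ?_
  rw [abs_mul]
  have h2 : |om - 603022689155527245293624133940124851 / 10 ^ 36| * |q| ≤ 1 / 10 ^ 34 * 10 :=
    mul_le_mul h1 hq (abs_nonneg _) (by norm_num)
  norm_num at h2 h ⊢
  linarith

lemma wu_zero : dist (wu 0) (stE st0) ≤ 1 / 10 ^ 26 := by
  rw [dist_eq_norm]
  have r0 : rot 0 = 1 := by simp [rot]
  have p1 : ‖cq QxA QyA 1 - ⟨st0.ax0 / SR, st0.ay0 / SR⟩‖ ≤ 2 * (1 / 10 ^ 27) := by
    have e : cq QxA QyA 1 - ⟨st0.ax0 / SR, st0.ay0 / SR⟩ =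
        ⟨evR QxA 1 / SQR - st0.ax0 / SR, om * (evR QyA 1 / SQR) - st0.ay0 / SR⟩ := rfl
    rw [e]
    apply norm_mk_le
    · rw [evR_one smXA, SQR, SR]; norm_num [st0, abs_le]
    · refine (om_mul_near _ _ ?_ (e := 5 / 10 ^ 28) ?_).trans (by norm_num)
      · rw [evR_one smYA, SQR]; norm_num [abs_le]
      · rw [evR_one smYA, SQR, SR]; norm_num [st0, abs_le]
  have p2 : ‖cq QxB QyB 1 - ⟨st0.bx0 / SR, st0.bt0 / SR⟩‖ ≤ 2 * (1 / 10 ^ 27) := by
    have e : cq QxB QyB 1 - ⟨st0.bx0 / SR, st0.bt0 / SR⟩ =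
        ⟨evR QxB 1 / SQR - st0.bx0 / SR, om * (evR QyB 1 / SQR) - st0.bt0 / SR⟩ := rfl
    rw [e]
    apply norm_mk_le
    · rw [evR_one smXB, SQR, SR]; norm_num [st0, abs_le]
    · refine (om_mul_near _ _ ?_ (e := 5 / 10 ^ 28) ?_).trans (by norm_num)
      · rw [evR_one smYB, SQR]; norm_num [abs_le]
      · rw [evR_one smYB, SQR, SR]; norm_num [st0, abs_le]
  have p3 : ‖cq1 QxA QyA 1 - (4 : ℝ) • (⟨st0.ax1 / SR, st0.ay1 / SR⟩ : ℂ)‖ ≤ 2 * (1 / 10 ^ 27) := by
    have e : cq1 QxA QyA 1 - (4 : ℝ) • (⟨st0.ax1 / SR, st0.ay1 / SR⟩ : ℂ) =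
        ⟨evR (lin 0 QxA) 1 / SQR - 4 / 11 * (evR QyA 1 / SQR) - 4 * (st0.ax1 / SR),
          om * (evR (lin 0 QyA) 1 / SQR + evR QxA 1 / SQR) - 4 * (st0.ay1 / SR)⟩ := by
      apply Complex.ext
      · simp only [cq1, Complex.sub_re, Complex.smul_re, smul_eq_mul]
      · simp only [cq1, Complex.sub_im, Complex.smul_im, smul_eq_mul]
    rw [e]
    apply norm_mk_le
    · rw [evR_one smYA, lin_one dsXA, SQR, SR]; norm_num [st0, abs_le]
    · refine (om_mul_near _ _ ?_ (e := 5 / 10 ^ 28) ?_).trans (by norm_num)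
      · rw [evR_one smXA, lin_one dsYA, SQR]; norm_num [abs_le]
      · rw [evR_one smXA, lin_one dsYA, SQR, SR]; norm_num [st0, abs_le]
  have p4 : ‖cq1 QxB QyB 1 - (4 : ℝ) • (⟨st0.bx1 / SR, st0.bt1 / SR⟩ : ℂ)‖ ≤ 2 * (1 / 10 ^ 27) := by
    have e : cq1 QxB QyB 1 - (4 : ℝ) • (⟨st0.bx1 / SR, st0.bt1 / SR⟩ : ℂ) =
        ⟨evR (lin 0 QxB) 1 / SQR - 4 / 11 * (evR QyB 1 / SQR) - 4 * (st0.bx1 / SR),
          om * (evR (lin 0 QyB) 1 / SQR + evR QxB 1 / SQR) - 4 * (st0.bt1 / SR)⟩ := by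
      apply Complex.ext
      · simp only [cq1, Complex.sub_re, Complex.smul_re, smul_eq_mul]
      · simp only [cq1, Complex.sub_im, Complex.smul_im, smul_eq_mul]
    rw [e]
    apply norm_mk_le
    · rw [evR_one smYB, lin_one dsXB, SQR, SR]; norm_num [st0, abs_le]
    · refine (om_mul_near _ _ ?_ (e := 5 / 10 ^ 28) ?_).trans (by norm_num)
      · rw [evR_one smXB, lin_one dsYB, SQR]; norm_num [abs_le]
      · rw [evR_one smXB, lin_one dsYB, SQR, SR]; norm_num [st0, abs_le]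
  have e1 : (wu 0 - stE st0).1 = cq QxA QyA 1 - ⟨st0.ax0 / SR, st0.ay0 / SR⟩ := by
    simp only [wu, stE, Prod.fst_sub, r0, Real.exp_zero, one_mul]
  have e2 : (wu 0 - stE st0).2.1 = cq QxB QyB 1 - ⟨st0.bx0 / SR, st0.bt0 / SR⟩ := by
    simp only [wu, stE, Prod.fst_sub, Prod.snd_sub, r0, Real.exp_zero, one_mul]
  have e3 : (wu 0 - stE st0).2.2.1 = sg⁻¹ • (cq1 QxA QyA 1 - (4 : ℝ) • (⟨st0.ax1 / SR, st0.ay1 / SR⟩ : ℂ)) := by
    simp only [wu, stE, Prod.fst_sub, Prod.snd_sub, r0, Real.exp_zero, one_mul, smul_sub, smul_smul]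
    rw [show sg⁻¹ * 4 = 4 / sg by rw [div_eq_mul_inv, mul_comm]]
  have e4 : (wu 0 - stE st0).2.2.2 = sg⁻¹ • (cq1 QxB QyB 1 - (4 : ℝ) • (⟨st0.bx1 / SR, st0.bt1 / SR⟩ : ℂ)) := by
    simp only [wu, stE, Prod.snd_sub, r0, Real.exp_zero, one_mul, smul_sub, smul_smul]
    rw [show sg⁻¹ * 4 = 4 / sg by rw [div_eq_mul_inv, mul_comm]]
  have hs' : ∀ z : ℂ, ‖z‖ ≤ 2 * (1 / 10 ^ 27) → ‖sg⁻¹ • z‖ ≤ 1 / 10 ^ 26 := fun z hz => by
    rw [norm_smul, Real.norm_of_nonneg (inv_pos.2 sg_pos).le, sg]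
    norm_num at hz ⊢
    linarith
  rw [Prod.norm_def, Prod.norm_def, Prod.norm_def, e1, e2, e3, e4]
  refine max_le (p1.trans (by norm_num)) (max_le (p2.trans (by norm_num)) (max_le (hs' _ p3) (hs' _ p4)))

/-- every solution which starts near the approximate solution escapes -/
theorem escape_wu {ε c t1 : ℝ} {m : Fin 3 → ℝ} (hm : NearM ε m) (hε : ε ≤ 1 / 10 ^ 24) (ht1 : t1 ≤ 0)
    {y : ℝ → E} (hy : ∀ t, t1 ≤ t → HasDerivAt y (fld m (y t)) t) (hc : dist (y t1) (wu t1) ≤ c)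
    (hce : (c + 60 * ε) * Real.exp (-(19 / 10 * t1)) ≤ 5 / 10 ^ 24) :
    (∀ t, t1 ≤ t → Far 0 (y t)) ∧ ∀ t, 21 ≤ t → 12 + 24 / 100 * (t - 21) ≤ ‖(y t).1‖ := by
  have hε0 : 0 ≤ ε := (abs_nonneg _).trans (hm 0)
  have hc0 : 0 ≤ c := dist_nonneg.trans hc
  have hcmp : ∀ t ∈ Icc t1 0, dist (y t) (wu t) ≤ 1.18 / 10 ^ 22 := by
    intro t ht
    have h1 := wu_cmp hm (hε.trans (by norm_num)) ht1 (fun s hs => hy s hs.1) hc ht
    have h2 : Real.exp (19 / 10 * (t - t1)) ≤ Real.exp (-(19 / 10 * t1)) :=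
      Real.exp_le_exp.2 (by nlinarith [ht.2])
    have h3 : Real.exp (2 * t) ≤ 1 := Real.exp_le_one_iff.2 (by linarith [ht.2])
    have h4 : (c + 60 * ε) * Real.exp (19 / 10 * (t - t1)) ≤
      (c + 60 * ε) * Real.exp (-(19 / 10 * t1)) := mul_le_mul_of_nonneg_left h2 (by linarith)
    norm_num at h1 hce ⊢
    linarith
  have h0 : dist (y 0) (stE st0) ≤ 12 / 10 ^ 23 := by
    have h1 := hcmp 0 ⟨ht1, le_rfl⟩
    have h2 := wu_zero
    have h3 := dist_triangle (y 0) (wu 0) (stE st0)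
    norm_num at h1 h2 ⊢
    linarith
  have h1 := escape_st0 (hm.mono hε) (t0 := 0) (fun t ht => hy t (ht1.trans ht)) h0
  refine ⟨fun t ht => ?_, fun t ht => ?_⟩
  · rcases lt_or_ge t 0 with h2 | h2
    · have h3 := (wu_defect hm h2.le).2
      exact (h3.of_dist (hcmp t ⟨ht, h2.le⟩)).mono (by norm_num)
    · exact h1.1 t h2
  · have := h1.2 t (by linarith)
    rw [zero_add] at this
    exact this

end Pool.Agent.T9h50.TB
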